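import Pool.Agent.R748.CH.Stm
import Pool.Agent.H140R2.FR.T03Zeros

/-!
Project CH (MP_0705dc_pr): AILOW, lower bound of `Ai` in the half-plane
-/

set_option autoImplicit false

open Complex MeasureTheory Set Filter Topology Polynomial
open Pool.Agent.H140R2.FR (Ai BB cA bR BB_expansion Ai_sq Ai_ne_zero Ai_differentiable)

namespace Pool.Agent.R748.CH

namespace AILOW

lemma large : ∃ R : ℝ, 1 ≤ R ∧ ∀ p : ℂ, 0 < p.re → |p.im| ≤ p.re → R ≤ ‖p‖ →
    ‖(Ai (p ^ 2))⁻¹‖ ≤ 4 * Real.pi * Real.sqrt (1 + ‖p‖) * Real.exp ((2 / 3) * (p ^ 3).re) := by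
  obtain ⟨C₀, hC₀⟩ := BB_expansion 1 (1 / 2) (by norm_num)
  refine ⟨max 1 (2 * |C₀|), le_max_left _ _, fun p hp him hR => ?_⟩
  have hR1 : 1 ≤ ‖p‖ := le_trans (le_max_left _ _) hR
  have hR2 : 2 * |C₀| ≤ ‖p‖ := le_trans (le_max_right _ _) hR
  have hp0 : p ≠ 0 := by
    intro h
    rw [h] at hp
    simp at hp
  have hn : 0 < ‖p‖ := norm_pos_iff.2 hp0
  have h1 : 1 / 2 * ‖p‖ ≤ p.re := by
    have h2 := Complex.norm_le_abs_re_add_abs_im p
    rw [abs_of_pos hp] at h2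
    linarith
  have h3 := hC₀ p hp0 h1
  have hb0 : bR 0 = 1 := by
    unfold bR
    simp
  have h4 : ∑ j ∈ Finset.range 1, (((-1) ^ j * bR j / 576 ^ j : ℝ) : ℂ) * (p ^ (3 * j))⁻¹ = 1 := by
    rw [Finset.sum_range_one, hb0]
    simp
  rw [h4] at h3
  have h5 : C₀ / ‖p‖ ^ (3 * 1) ≤ 1 / 2 := by
    rw [div_le_iff₀ (by positivity)]
    have h6 : ‖p‖ ≤ ‖p‖ ^ (3 * 1) := by
      have : ‖p‖ ^ 1 ≤ ‖p‖ ^ (3 * 1) := pow_le_pow_right₀ hR1 (by norm_num)
      simpa using this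
    calc C₀ ≤ |C₀| := le_abs_self C₀
      _ ≤ 1 / 2 * ‖p‖ := by linarith
      _ ≤ 1 / 2 * ‖p‖ ^ (3 * 1) := mul_le_mul_of_nonneg_left h6 (by norm_num)
  have h7 : 1 / 2 ≤ ‖BB p‖ := by
    have h8 : ‖(1 : ℂ)‖ ≤ ‖BB p‖ + ‖BB p - 1‖ := by
      have : (1 : ℂ) = BB p - (BB p - 1) := by ring
      calc ‖(1 : ℂ)‖ = ‖BB p - (BB p - 1)‖ := by rw [← this]
        _ ≤ _ := norm_sub_le _ _
    rw [norm_one] at h8
    linarith
  have h9 : ‖BB p‖ = Real.sqrt ‖p / (Real.pi : ℂ)‖ * ‖cA p‖ := by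
    unfold BB
    rw [norm_mul]
    congr 1
    have h : ((1 : ℂ) / 2) = (((1 / 2 : ℝ)) : ℂ) := by push_cast; rfl
    rw [h, Complex.norm_cpow_real, Real.sqrt_eq_rpow]
  have h10 : Real.sqrt ‖p / (Real.pi : ℂ)‖ ≤ Real.sqrt (1 + ‖p‖) := by
    refine Real.sqrt_le_sqrt ?_
    rw [norm_div, Complex.norm_real, Real.norm_eq_abs, abs_of_pos Real.pi_pos]
    have : ‖p‖ / Real.pi ≤ ‖p‖ := div_le_self hn.le (by linarith [Real.pi_gt_three])
    linarith
  have h11 : ‖Ai (p ^ 2)‖ = 1 / (2 * Real.pi) * Real.exp (-((2 / 3) * (p ^ 3).re)) * ‖cA p‖ := by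
    rw [Ai_sq p hp, norm_mul, norm_mul, Complex.norm_real, Real.norm_eq_abs,
      abs_of_pos (by positivity), Complex.norm_exp]
    congr 3
    have : -(2 / 3) * p ^ 3 = ((-(2 / 3) : ℝ) : ℂ) * p ^ 3 := by push_cast; ring
    rw [this, Complex.re_ofReal_mul]
    ring
  have hA : Ai (p ^ 2) ≠ 0 := by
    refine Ai_ne_zero _ (Or.inr ?_)
    have : (p ^ 2).re = p.re ^ 2 - p.im ^ 2 := by
      rw [sq, Complex.mul_re]; ring
    rw [this]
    have := sq_le_sq' (by linarith [abs_nonneg p.im, neg_abs_le p.im]) (le_trans (le_abs_self _) him)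
    linarith
  rw [norm_inv, inv_le_iff_one_le_mul₀ (norm_pos_iff.2 hA), h11]
  have h12 : 4 * Real.pi * Real.sqrt (1 + ‖p‖) * Real.exp ((2 / 3) * (p ^ 3).re) *
      (1 / (2 * Real.pi) * Real.exp (-((2 / 3) * (p ^ 3).re)) * ‖cA p‖)
      = 2 * (Real.sqrt (1 + ‖p‖) * ‖cA p‖) := by
    rw [Real.exp_neg]
    have := Real.exp_pos ((2 / 3) * (p ^ 3).re)
    field_simp
    ring
  rw [h12]
  have h13 : ‖BB p‖ ≤ Real.sqrt (1 + ‖p‖) * ‖cA p‖ := by
    rw [h9]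
    exact mul_le_mul_of_nonneg_right h10 (norm_nonneg _)
  linarith

end AILOW

open AILOW in
theorem t_AILOW : S_AILOW := by
  obtain ⟨R, hR1, hR⟩ := large
  have hK : IsCompact (Metric.closedBall (0 : ℂ) R ∩ {p : ℂ | |p.im| ≤ p.re}) := by
    refine (isCompact_closedBall (0 : ℂ) R).inter_right ?_
    exact isClosed_le (Complex.continuous_im.abs) Complex.continuous_re
  have hc : ContinuousOn (fun p : ℂ => (Ai (p ^ 2))⁻¹)
      (Metric.closedBall (0 : ℂ) R ∩ {p : ℂ | |p.im| ≤ p.re}) := by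
    refine ContinuousOn.inv₀ ?_ ?_
    · exact (Ai_differentiable.continuous.comp (continuous_pow 2)).continuousOn
    · rintro p ⟨-, hp⟩
      refine Ai_ne_zero _ (Or.inr ?_)
      have h1 : (p ^ 2).re = p.re ^ 2 - p.im ^ 2 := by
        rw [sq, Complex.mul_re]; ring
      rw [h1]
      have hp' : |p.im| ≤ p.re := hp
      have := sq_le_sq' (by linarith [abs_nonneg p.im, neg_abs_le p.im])
        (le_trans (le_abs_self _) hp')
      linarith
  obtain ⟨M, hM⟩ := hK.exists_bound_of_continuousOn hc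
  refine ⟨4 * Real.pi + |M| * Real.exp ((2 / 3) * R ^ 3), by positivity, fun p hp him => ?_⟩
  have hs : 1 ≤ Real.sqrt (1 + ‖p‖) := by
    rw [Real.one_le_sqrt]
    linarith [norm_nonneg p]
  have hE := Real.exp_pos ((2 / 3) * (p ^ 3).re)
  rcases le_total R ‖p‖ with h | h
  · refine (hR p hp him h).trans ?_
    have h1 : 0 ≤ |M| * Real.exp ((2 / 3) * R ^ 3) := by positivity
    have h2 : 4 * Real.pi * Real.sqrt (1 + ‖p‖) ≤
        (4 * Real.pi + |M| * Real.exp ((2 / 3) * R ^ 3)) * Real.sqrt (1 + ‖p‖) :=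
      mul_le_mul_of_nonneg_right (by linarith) (by positivity)
    exact mul_le_mul_of_nonneg_right h2 hE.le
  · have h1 := hM p ⟨by simpa using h, him⟩
    have h2 : -R ^ 3 ≤ (p ^ 3).re := by
      have h3 : |(p ^ 3).re| ≤ ‖p ^ 3‖ := Complex.abs_re_le_norm _
      rw [norm_pow] at h3
      have h4 : ‖p‖ ^ 3 ≤ R ^ 3 := pow_le_pow_left₀ (norm_nonneg _) h 3
      have h5 := neg_abs_le (p ^ 3).re
      linarith
    have h6 : 1 ≤ Real.exp ((2 / 3) * R ^ 3) * Real.exp ((2 / 3) * (p ^ 3).re) := by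
      rw [← Real.exp_add]
      exact Real.one_le_exp (by linarith)
    calc ‖(Ai (p ^ 2))⁻¹‖ ≤ M := h1
      _ ≤ |M| := le_abs_self M
      _ = |M| * (1 * 1) := by ring
      _ ≤ |M| * (Real.sqrt (1 + ‖p‖) *
          (Real.exp ((2 / 3) * R ^ 3) * Real.exp ((2 / 3) * (p ^ 3).re))) := by
          gcongr
      _ = |M| * Real.exp ((2 / 3) * R ^ 3) * Real.sqrt (1 + ‖p‖) *
          Real.exp ((2 / 3) * (p ^ 3).re) := by ring
      _ ≤ _ := by
          have h7 : 0 ≤ 4 * Real.pi * Real.sqrt (1 + ‖p‖) * Real.exp ((2 / 3) * (p ^ 3).re) := by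
            positivity
          nlinarith [h7]

end Pool.Agent.R748.CH
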