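import Pool.Agent.R748.CH.Stm

/-! Project CH (helper748), piece CLOSE by helper506: division by a linear factor. -/

set_option autoImplicit false

open Complex MeasureTheory Set Filter Topology Polynomial

namespace Pool.Agent.R748.CH

namespace CLOSEpf

lemma re_den (α ω : ℝ) : (1 + I * (ω : ℂ) / (α : ℂ)).re = 1 := by
  have h : I * (ω : ℂ) / (α : ℂ) = ((ω / α : ℝ) : ℂ) * I := by push_cast; ring
  rw [h]
  simp

lemma den_ne (α ω : ℝ) : (1 + I * (ω : ℂ) / (α : ℂ)) ≠ 0 := by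
  intro h
  have := congrArg Complex.re h
  rw [re_den] at this
  simp at this

lemma one_le_norm (α ω : ℝ) : 1 ≤ ‖1 + I * (ω : ℂ) / (α : ℂ)‖ := by
  have h := abs_re_le_norm (1 + I * (ω : ℂ) / (α : ℂ))
  rwa [re_den, abs_one] at h

lemma mom_close {φ : ℝ → ℂ} (hφ : Mom φ) (α : ℝ) : Mom (fun ω : ℝ => φ ω / (1 + I * (ω : ℂ) / (α : ℂ))) := by
  have hc : Continuous (fun ω : ℝ => φ ω / (1 + I * (ω : ℂ) / (α : ℂ))) :=
    hφ.cont.div (by fun_prop) fun ω => den_ne α ω
  refine ⟨hc, fun j => ?_, fun ω => ?_⟩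
  · refine Integrable.mono' (hφ.mom j) ?_ (ae_of_all _ fun ω => ?_)
    · exact Continuous.aestronglyMeasurable (by fun_prop)
    · rw [Real.norm_eq_abs, abs_mul, abs_pow, abs_abs, abs_norm, norm_div]
      exact mul_le_mul_of_nonneg_left (div_le_self (norm_nonneg _) (one_le_norm α ω)) (by positivity)
  · simp only [map_div₀, map_add, map_one, map_mul, conj_I, conj_ofReal, hφ.sym, ofReal_neg]
    congr 2
    ring

lemma mirror (hTR : S_TR) {φ : ℝ → ℂ} (hφ : LC φ) : LC (fun ω : ℝ => φ (-ω)) := by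
  have hM : Mom (fun ω : ℝ => φ (-ω)) := by
    refine ⟨hφ.cont.comp continuous_neg, fun j => ?_, fun ω => ?_⟩
    · have h := (hφ.mom j).comp_neg
      simpa only [abs_neg] using h
    · simp only [hφ.sym]
  have hRT : ∀ (j : ℕ) (x : ℝ), RT (fun ω : ℝ => φ (-ω)) j x = (-1) ^ j * RT φ j (-x) := by
    intro j x
    obtain ⟨-, h2, -, -, h5⟩ := hTR φ hφ.toMom j
    have h6 : RT (fun ω : ℝ => φ (-ω)) j x = (Tr (fun ω : ℝ => φ (-ω)) j x).re := rfl
    rw [h6, h5 x, h2 (-x)]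
    have h7 : ((-1 : ℂ) ^ j * ((RT φ j (-x) : ℝ) : ℂ)) = (((-1) ^ j * RT φ j (-x) : ℝ) : ℂ) := by push_cast; rfl
    rw [h7, ofReal_re]
  refine ⟨hM, fun x => ?_, fun x => ?_⟩
  · rw [hRT]
    simpa using hφ.pos (-x)
  · rw [hRT, hRT, hRT]
    have := hφ.lc (-x)
    simpa using this

lemma close_pos (hTR : S_TR) (hL : S_LEMA) {φ : ℝ → ℂ} (hφ : LC φ) {α : ℝ} (hα : 0 < α) :
    LC (fun ω : ℝ => φ ω / (1 + I * (ω : ℂ) / (α : ℂ))) := by
  set φa : ℝ → ℂ := fun ω : ℝ => φ ω / (1 + I * (ω : ℂ) / (α : ℂ)) with hφa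
  have hM : Mom φa := mom_close hφ.toMom α
  have hrel : ∀ (j : ℕ) (x : ℝ), RT φa j x + RT φa (j + 1) x / α = RT φ j x := by
    intro j x
    obtain ⟨-, a2, -, a4, -⟩ := hTR φa hM j
    obtain ⟨-, b2, -, b4, -⟩ := hTR φa hM (j + 1)
    obtain ⟨-, c2, -, -, -⟩ := hTR φ hφ.toMom j
    have h : Tr φa j x + Tr φa (j + 1) x / (α : ℂ) = Tr φ j x := by
      unfold Tr
      rw [← integral_div, ← integral_add (a4 x) ((b4 x).div_const _)]
      refine integral_congr_ae (ae_of_all _ fun ω => ?_)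
      have h0 := den_ne α ω
      have h1 : φ ω = φa ω * (1 + I * (ω : ℂ) / (α : ℂ)) := by
        rw [hφa]
        exact (div_mul_cancel₀ _ h0).symm
      simp only
      rw [h1]
      ring
    rw [a2, b2, c2] at h
    exact_mod_cast h
  have hd : ∀ (j : ℕ) (x : ℝ), HasDerivAt (RT φa j) (RT φa (j + 1) x) x := fun j => (hTR φa hM j).1
  have hdf : ∀ (j : ℕ) (x : ℝ), HasDerivAt (RT φ j) (RT φ (j + 1) x) x := fun j => (hTR φ hφ.toMom j).1
  have hexp : ∀ x : ℝ, HasDerivAt (fun x : ℝ => Real.exp (α * x)) (Real.exp (α * x) * (α * 1)) x := fun x =>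
    ((hasDerivAt_id x).const_mul α).exp
  have key := hL (fun x => Real.exp (α * x) * RT φa 0 x) (fun x => α * (Real.exp (α * x) * RT φ 0 x))
    (fun x => α * (Real.exp (α * x) * (α * RT φ 0 x + RT φ 1 x)))
    (fun x => α * (Real.exp (α * x) * (α ^ 2 * RT φ 0 x + 2 * α * RT φ 1 x + RT φ 2 x)))
    (fun x => ?_) (fun x => ?_) (fun x => ?_) (fun x => ?_) (fun x => ?_) ?_
  · obtain ⟨k1, k2, -⟩ := key
    refine ⟨hM, fun x => ?_, fun x => ?_⟩
    · have := k1 x
      exact (mul_pos_iff_of_pos_left (Real.exp_pos _)).mp this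
    · have h2 := k2 x
      have r0 := hrel 0 x
      have r1 := hrel 1 x
      simp only [zero_add, Nat.reduceAdd] at r0 r1
      have e : 0 < Real.exp (α * x) := Real.exp_pos _
      have e1 : Real.exp (α * x) * RT φa 0 x * (α * (Real.exp (α * x) * (α * RT φ 0 x + RT φ 1 x))) -
          (α * (Real.exp (α * x) * RT φ 0 x)) ^ 2 =
          Real.exp (α * x) ^ 2 * (RT φa 0 x * RT φa 2 x - RT φa 1 x ^ 2) := by
        rw [← r0, ← r1]
        field_simp
        ring
      have e2 : Real.exp (α * x) ^ 2 * (RT φa 0 x * RT φa 2 x - RT φa 1 x ^ 2) ≤ 0 := by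
        rw [← e1]
        linarith
      have e3 : RT φa 0 x * RT φa 2 x - RT φa 1 x ^ 2 ≤ 0 := by
        by_contra hcon
        push Not at hcon
        have : 0 < Real.exp (α * x) ^ 2 * (RT φa 0 x * RT φa 2 x - RT φa 1 x ^ 2) := by positivity
        linarith
      linarith
  · have h := (hexp x).mul (hd 0 x)
    refine h.congr_deriv ?_
    have r0 := hrel 0 x
    simp only [zero_add] at r0
    rw [← r0]
    field_simp
  · have h := ((hexp x).mul (hdf 0 x)).const_mul α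
    refine h.congr_deriv ?_
    simp only [zero_add]
    ring
  · have h := ((hexp x).mul (((hdf 0 x).const_mul α).add (hdf 1 x))).const_mul α
    refine h.congr_deriv ?_
    simp only [zero_add, Nat.reduceAdd, Pi.add_apply]
    ring
  · have := hφ.pos x
    positivity
  · have h := hφ.lc x
    have e : (α * (Real.exp (α * x) * RT φ 0 x)) *
        (α * (Real.exp (α * x) * (α ^ 2 * RT φ 0 x + 2 * α * RT φ 1 x + RT φ 2 x))) =
        (α * (Real.exp (α * x) * (α * RT φ 0 x + RT φ 1 x))) ^ 2 +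
        (α * Real.exp (α * x)) ^ 2 * (RT φ 0 x * RT φ 2 x - RT φ 1 x ^ 2) := by ring
    simp only [e]
    have h2 : (α * Real.exp (α * x)) ^ 2 * (RT φ 0 x * RT φ 2 x - RT φ 1 x ^ 2) ≤ 0 :=
      mul_nonpos_of_nonneg_of_nonpos (by positivity) (by linarith)
    linarith
  · obtain ⟨C, hC⟩ := (hTR φa hM 0).2.2.1
    have hC0 : 0 ≤ C := (abs_nonneg _).trans (hC 0)
    have h1 : Tendsto (fun x : ℝ => Real.exp (α * x) * C) atBot (𝓝 0) := by
      have h2 : Tendsto (fun x : ℝ => α * x) atBot atBot := tendsto_id.const_mul_atBot hα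
      have h3 := (Real.tendsto_exp_atBot.comp h2).mul_const C
      simpa using h3
    refine squeeze_zero_norm (fun x => ?_) h1
    rw [Real.norm_eq_abs, abs_mul, abs_of_pos (Real.exp_pos _)]
    exact mul_le_mul_of_nonneg_left (hC x) (Real.exp_pos _).le

end CLOSEpf

open CLOSEpf

theorem t_CLOSE (hTR : S_TR) (hL : S_LEMA) : S_CLOSE := by
  intro φ hφ α hα
  rcases lt_or_gt_of_ne hα with h | h
  · have h1 := close_pos hTR hL (mirror hTR hφ) (α := -α) (by linarith)
    have h2 := mirror hTR h1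
    have e : (fun ω : ℝ => (fun ω : ℝ => (fun ω : ℝ => φ (-ω)) ω / (1 + I * (ω : ℂ) / ((-α : ℝ) : ℂ))) (-ω)) =
        fun ω : ℝ => φ ω / (1 + I * (ω : ℂ) / (α : ℂ)) := by
      funext ω
      simp only [neg_neg, ofReal_neg]
      congr 2
      rw [mul_neg, neg_div_neg_eq]
    rw [e] at h2
    exact h2
  · exact close_pos hTR hL hφ h

end Pool.Agent.R748.CH
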