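import Pool.Agent.R748.CH.Stm
import Pool.Agent.H140R2.FR.T03Zeros

set_option autoImplicit false

open Complex MeasureTheory Set Filter Topology
open Pool.Agent.H140R2.FR (Ai Ai_ne_zero Ai_differentiable)

namespace Pool.Agent.R748.CH

/-- the square root of `l + iω` with its estimates -/
theorem decay_root (l ω L : ℝ) (hl : 0 ≤ l) (hlL : l ≤ L) (hω : 2 * L + 1 < |ω|) :
    ∃ p : ℂ, p ^ 2 = (l : ℂ) + I * (ω : ℂ) ∧ 0 < p.re ∧ |p.im| ≤ p.re ∧
      ‖p‖ ≤ 2 * Real.sqrt |ω| ∧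
      (p ^ 3).re ≤ L * Real.sqrt |ω| - Real.sqrt |ω| ^ 3 / 2 := by
  have hL : 0 ≤ L := hl.trans hlL
  have hω0 : 0 < |ω| := by linarith
  have hω1 : ω ≠ 0 := abs_pos.1 hω0
  set N : ℝ := Real.sqrt (l ^ 2 + ω ^ 2) with hN
  have hN2 : N ^ 2 = l ^ 2 + ω ^ 2 := Real.sq_sqrt (by positivity)
  have hNpos : 0 < N := Real.sqrt_pos.2 (by positivity)
  set a : ℝ := Real.sqrt ((N + l) / 2) with ha
  have ha2 : a ^ 2 = (N + l) / 2 := Real.sq_sqrt (by positivity)
  have hapos : 0 < a := Real.sqrt_pos.2 (by positivity)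
  set b : ℝ := ω / (2 * a) with hb
  have hab : 2 * a * b = ω := by rw [hb]; field_simp
  have hb2 : a ^ 2 - b ^ 2 = l := by
    have h1 : b ^ 2 * (4 * a ^ 2) = ω ^ 2 := by rw [← hab]; ring
    have h2 : (a ^ 2 - l) * (4 * a ^ 2) = ω ^ 2 := by
      rw [ha2]; nlinarith
    have h3 : (b ^ 2 - (a ^ 2 - l)) * (4 * a ^ 2) = 0 := by rw [sub_mul, h1, h2, sub_self]
    have h4 : 4 * a ^ 2 ≠ 0 := by positivity
    rcases mul_eq_zero.1 h3 with h5 | h5
    · linarith
    · exact absurd h5 h4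
  set s : ℝ := Real.sqrt |ω| with hs
  have hs2 : s ^ 2 = |ω| := Real.sq_sqrt hω0.le
  have hspos : 0 < s := Real.sqrt_pos.2 hω0
  set B : ℝ := |b| with hB
  have hB0 : 0 ≤ B := abs_nonneg b
  have hB2 : B ^ 2 = b ^ 2 := sq_abs b
  have habB : 2 * a * B = s ^ 2 := by
    rw [hs2, ← hab, abs_mul, abs_of_pos (by positivity : 0 < 2 * a)]
  have hBa : B ≤ a := by
    apply le_of_sq_le_sq _ hapos.le
    rw [hB2]; linarith
  have hBlow : s / 2 ≤ B := by
    by_contra hcon
    push Not at hcon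
    have h1 : B ^ 2 < s ^ 2 / 4 := by nlinarith
    have h2 : a ^ 2 < L + s ^ 2 / 4 := by nlinarith
    have h3 : (s ^ 2) ^ 2 = 4 * a ^ 2 * B ^ 2 := by rw [← habB]; ring
    have h4 : s ^ 2 = |ω| := hs2
    have h5 : 2 * L + 1 < s ^ 2 := by rw [h4]; exact hω
    have h6 : 4 * a ^ 2 * B ^ 2 ≤ 4 * (L + s ^ 2 / 4) * (s ^ 2 / 4) := by
      have : a ^ 2 * B ^ 2 ≤ (L + s ^ 2 / 4) * (s ^ 2 / 4) :=
        mul_le_mul h2.le h1.le (sq_nonneg _) (by positivity)
      nlinarith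
    nlinarith [sq_nonneg s]
  have hale : a ≤ s := by
    apply le_of_sq_le_sq _ hspos.le
    have h1 : B ^ 2 ≤ s ^ 2 / 2 := by nlinarith
    have h5 : 2 * L + 1 < s ^ 2 := by rw [hs2]; exact hω
    nlinarith
  refine ⟨⟨a, b⟩, ?_, hapos, hBa, ?_, ?_⟩
  · apply Complex.ext
    · simp only [pow_two, Complex.mul_re, Complex.add_re, Complex.ofReal_re, Complex.I_re,
        Complex.I_im, Complex.ofReal_im]
      nlinarith
    · simp only [pow_two, Complex.mul_im, Complex.add_im, Complex.ofReal_re, Complex.I_re,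
        Complex.I_im, Complex.ofReal_im]
      nlinarith
  · refine le_trans (Complex.norm_le_abs_re_add_abs_im _) ?_
    show |a| + |b| ≤ 2 * s
    rw [abs_of_pos hapos]
    linarith
  · have h1 : ((⟨a, b⟩ : ℂ) ^ 3).re = a * l - s ^ 2 * B := by
      simp only [pow_succ, pow_zero, one_mul, Complex.mul_re, Complex.mul_im]
      have h2 : (a * a - b * b) * a - (a * b + b * a) * b = a * (a ^ 2 - b ^ 2) - 2 * a * b ^ 2 := by
        ring
      rw [h2, hb2]
      have h3 : 2 * a * b ^ 2 = s * s * B := by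
        rw [← hB2]
        have : s * s = s ^ 2 := by ring
        rw [this, ← habB]; ring
      rw [h3]
    rw [h1]
    have h2 : a * l ≤ L * s := by
      calc a * l ≤ s * L := mul_le_mul hale hlL hl hspos.le
        _ = L * s := mul_comm _ _
    have h3 : s ^ 3 / 2 ≤ s ^ 2 * B := by
      have : s ^ 2 * (s / 2) ≤ s ^ 2 * B := mul_le_mul_of_nonneg_left hBlow (sq_nonneg s)
      nlinarith
    linarith

theorem decay_exp (L A s : ℝ) (hL : 0 ≤ L) (hA : 0 ≤ A) (hs : 0 ≤ s) :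
    2 * s + (2 / 3) * (L * s - s ^ 3 / 2) ≤
      (2 + L) * (3 * (A + 2 + L) + 1) + A * (3 * (A + 2 + L) + 1) ^ 2 - A * s ^ 2 := by
  set S : ℝ := 3 * (A + 2 + L) + 1 with hS
  have hS1 : 1 ≤ S := by rw [hS]; nlinarith
  rcases le_total s S with h | h
  · have h1 : A * s ^ 2 ≤ A * S ^ 2 := by
      apply mul_le_mul_of_nonneg_left _ hA
      exact pow_le_pow_left₀ hs h 2
    have h2 : (2 + L) * s ≤ (2 + L) * S := mul_le_mul_of_nonneg_left h (by linarith)
    have h3 : 0 ≤ s ^ 3 := by positivity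
    nlinarith [mul_nonneg hL hs]
  · have h0 : 1 ≤ s := hS1.trans h
    have h1 : 3 * (A + 2 + L) ≤ s := by linarith
    have h2 : s ^ 2 * (3 * (A + 2 + L)) ≤ s ^ 2 * s := mul_le_mul_of_nonneg_left h1 (sq_nonneg s)
    have h3 : (2 + L) * s ≤ (2 + L) * s ^ 2 := by
      apply mul_le_mul_of_nonneg_left _ (by linarith)
      nlinarith
    have h4 : 0 ≤ (2 + L) * S + A * S ^ 2 := by positivity
    nlinarith [mul_nonneg hL hs]

theorem t_DECAY (hA : S_AILOW) : S_DECAY := by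
  intro L A hL hA0
  obtain ⟨C, hC, hb⟩ := hA
  set R : ℝ := 2 * L + 1 with hR
  have hcont : ContinuousOn (fun q : ℝ × ℝ => (Ai ((q.1 : ℂ) + I * (q.2 : ℂ)))⁻¹)
      (Icc 0 L ×ˢ Icc (-R) R) := by
    apply ContinuousOn.inv₀
    · have h1 : Continuous fun q : ℝ × ℝ => (q.1 : ℂ) + I * (q.2 : ℂ) := by fun_prop
      exact (Ai_differentiable.continuous.comp h1).continuousOn
    · intro q hq
      apply Ai_ne_zero
      right
      have : ((q.1 : ℂ) + I * (q.2 : ℂ)).re = q.1 := by simp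
      rw [this]
      exact hq.1.1
  obtain ⟨C0, hC0⟩ := (isCompact_Icc.prod isCompact_Icc).exists_bound_of_continuousOn hcont
  set M : ℝ := (2 + L) * (3 * (A + 2 + L) + 1) + A * (3 * (A + 2 + L) + 1) ^ 2 with hM
  refine ⟨|C0| * Real.exp (A * R) + C * Real.exp M, by positivity, ?_⟩
  intro l ω hl hlL
  rcases le_or_gt |ω| R with h | h
  · have h1 := hC0 (l, ω) ⟨⟨hl, hlL⟩, abs_le.1 h⟩
    have h2 : 1 ≤ Real.exp (A * R) * Real.exp (-(A * |ω|)) := by
      rw [← Real.exp_add]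
      apply Real.one_le_exp
      have := mul_le_mul_of_nonneg_left h hA0
      linarith
    calc ‖(Ai ((l : ℂ) + I * (ω : ℂ)))⁻¹‖ ≤ C0 := h1
      _ ≤ |C0| := le_abs_self _
      _ = |C0| * 1 := (mul_one _).symm
      _ ≤ |C0| * (Real.exp (A * R) * Real.exp (-(A * |ω|))) :=
          mul_le_mul_of_nonneg_left h2 (abs_nonneg _)
      _ = (|C0| * Real.exp (A * R)) * Real.exp (-(A * |ω|)) := by ring
      _ ≤ (|C0| * Real.exp (A * R) + C * Real.exp M) * Real.exp (-(A * |ω|)) := by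
          apply mul_le_mul_of_nonneg_right _ (Real.exp_pos _).le
          have : 0 ≤ C * Real.exp M := by positivity
          linarith
  · obtain ⟨p, hp2, hpre, hpim, hpn, hp3⟩ := decay_root l ω L hl hlL h
    have h1 := hb p hpre hpim
    rw [hp2] at h1
    set s : ℝ := Real.sqrt |ω| with hs
    have hs0 : 0 ≤ s := Real.sqrt_nonneg _
    have hs2 : s ^ 2 = |ω| := Real.sq_sqrt (abs_nonneg _)
    have h2 : Real.sqrt (1 + ‖p‖) ≤ Real.exp (2 * s) := by
      have e1 : Real.sqrt (1 + ‖p‖) ≤ 1 + ‖p‖ := by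
        apply Real.sqrt_le_iff.2
        constructor
        · positivity
        · nlinarith [norm_nonneg p]
      have e2 : 1 + ‖p‖ ≤ 2 * s + 1 := by linarith
      exact e1.trans (e2.trans (Real.add_one_le_exp _))
    have h3 : Real.exp ((2 / 3) * (p ^ 3).re) ≤ Real.exp ((2 / 3) * (L * s - s ^ 3 / 2)) := by
      apply Real.exp_le_exp.2
      linarith
    have h4 := decay_exp L A s hL hA0 hs0
    calc ‖(Ai ((l : ℂ) + I * (ω : ℂ)))⁻¹‖
        ≤ C * Real.sqrt (1 + ‖p‖) * Real.exp ((2 / 3) * (p ^ 3).re) := h1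
      _ ≤ C * Real.exp (2 * s) * Real.exp ((2 / 3) * (L * s - s ^ 3 / 2)) := by
          apply mul_le_mul _ h3 (Real.exp_pos _).le (by positivity)
          exact mul_le_mul_of_nonneg_left h2 hC.le
      _ = C * Real.exp (2 * s + (2 / 3) * (L * s - s ^ 3 / 2)) := by
          rw [Real.exp_add]; ring
      _ ≤ C * Real.exp (M - A * s ^ 2) := by
          apply mul_le_mul_of_nonneg_left _ hC.le
          exact Real.exp_le_exp.2 h4
      _ = (C * Real.exp M) * Real.exp (-(A * |ω|)) := by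
          rw [sub_eq_add_neg, Real.exp_add, hs2]; ring
      _ ≤ (|C0| * Real.exp (A * R) + C * Real.exp M) * Real.exp (-(A * |ω|)) := by
          apply mul_le_mul_of_nonneg_right _ (Real.exp_pos _).le
          have : 0 ≤ |C0| * Real.exp (A * R) := by positivity
          linarith

end Pool.Agent.R748.CH
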