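import Pool.Agent.R748.CH.Stm

set_option autoImplicit false

open Complex MeasureTheory Set Filter Topology Polynomial
open Pool.Agent.H140R2.FR (Ai)

namespace Pool.Agent.R748.CH

namespace EntAux

theorem exp_int : Integrable (fun x : ℝ => Real.exp (-|x|)) := by
  have h1 : IntegrableOn (fun x : ℝ => Real.exp (-|x|)) (Ioi 0) := by
    refine (exp_neg_integrableOn_Ioi 0 (b := 1) one_pos).congr_fun ?_ measurableSet_Ioi
    intro x hx
    have : (0 : ℝ) < x := hx
    simp [abs_of_pos this]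
  have h2 : IntegrableOn (fun x : ℝ => Real.exp (-|x|)) (Iic 0) := by
    refine (integrableOn_exp_Iic 0).congr_fun ?_ measurableSet_Iic
    intro x hx
    have : x ≤ (0 : ℝ) := hx
    simp [abs_of_nonpos this]
  have := h2.union h1
  rwa [Iic_union_Ioi, integrableOn_univ] at this

/-- the entire extension -/
noncomputable def Ff (φ : ℝ → ℂ) (z : ℂ) : ℂ := ∫ ω : ℝ, cexp (I * (ω : ℂ) * z) * φ ω

theorem norm_le (φ : ℝ → ℂ) (R C : ℝ)
    (hC : ∀ ω : ℝ, ‖φ ω‖ ≤ C * Real.exp (-((R + 2) * |ω|))) (z : ℂ) (hz : ‖z‖ ≤ R) (ω : ℝ) :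
    ‖cexp (I * (ω : ℂ) * z) * φ ω‖ ≤ C * Real.exp (-|ω|) * Real.exp (-|ω|) := by
  rw [norm_mul, Complex.norm_exp]
  have e1 : (I * (ω : ℂ) * z).re ≤ |ω| * R := by
    have e2 : (I * (ω : ℂ) * z).re = -(ω * z.im) := by simp
    rw [e2]
    have e3 : -(ω * z.im) ≤ |ω * z.im| := neg_le_abs _
    rw [abs_mul] at e3
    have e4 : |z.im| ≤ R := (Complex.abs_im_le_norm z).trans hz
    exact e3.trans (mul_le_mul_of_nonneg_left e4 (abs_nonneg _))
  calc Real.exp (I * (ω : ℂ) * z).re * ‖φ ω‖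
      ≤ Real.exp (|ω| * R) * (C * Real.exp (-((R + 2) * |ω|))) := by
        gcongr
        exact hC ω
    _ = C * (Real.exp (|ω| * R) * Real.exp (-((R + 2) * |ω|))) := by ring
    _ = C * (Real.exp (-|ω|) * Real.exp (-|ω|)) := by
        rw [← Real.exp_add, ← Real.exp_add]
        congr 2
        ring
    _ = _ := by ring

theorem hasDeriv (φ : ℝ → ℂ) (hφ : Continuous φ)
    (h : ∀ A : ℝ, ∃ C : ℝ, ∀ ω : ℝ, ‖φ ω‖ ≤ C * Real.exp (-(A * |ω|))) (z₀ : ℂ) :
    DifferentiableAt ℂ (Ff φ) z₀ := by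
  obtain ⟨C, hC⟩ := h ((‖z₀‖ + 1) + 2)
  have hC0 : 0 ≤ C := by
    have := (norm_nonneg _).trans (hC 0)
    simpa using this
  have hcont : ∀ z : ℂ, Continuous fun ω : ℝ => cexp (I * (ω : ℂ) * z) * φ ω := by
    intro z
    fun_prop
  have hcont' : Continuous fun ω : ℝ => I * (ω : ℂ) * (cexp (I * (ω : ℂ) * z₀) * φ ω) := by
    fun_prop
  have hdom : Integrable (fun ω : ℝ => C * Real.exp (-|ω|)) := exp_int.const_mul C
  have key := hasDerivAt_integral_of_dominated_loc_of_deriv_le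
    (μ := volume) (𝕜 := ℂ)
    (F := fun (z : ℂ) (ω : ℝ) => cexp (I * (ω : ℂ) * z) * φ ω)
    (F' := fun (z : ℂ) (ω : ℝ) => I * (ω : ℂ) * (cexp (I * (ω : ℂ) * z) * φ ω))
    (x₀ := z₀) (s := Metric.ball z₀ 1) (bound := fun ω : ℝ => C * Real.exp (-|ω|))
    (Metric.ball_mem_nhds z₀ one_pos)
    (Filter.Eventually.of_forall fun z => (hcont z).aestronglyMeasurable)
    ?_ hcont'.aestronglyMeasurable ?_ hdom ?_
  · exact key.2.differentiableAt
  · refine hdom.mono' (hcont z₀).aestronglyMeasurable (Filter.Eventually.of_forall fun ω => ?_)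
    refine (norm_le φ (‖z₀‖ + 1) C hC z₀ (by linarith) ω).trans ?_
    have : Real.exp (-|ω|) ≤ 1 := Real.exp_le_one_iff.2 (by simp)
    have h2 : 0 ≤ C * Real.exp (-|ω|) := by positivity
    nlinarith
  · refine Filter.Eventually.of_forall fun ω z hz => ?_
    have hz' : ‖z‖ ≤ ‖z₀‖ + 1 := by
      have h1 : ‖z - z₀‖ < 1 := by simpa [dist_eq_norm] using hz
      have h2 : ‖z‖ ≤ ‖z - z₀‖ + ‖z₀‖ := by
        have := norm_add_le (z - z₀) z₀
        simpa using this
      linarith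
    rw [norm_mul, norm_mul, Complex.norm_I, one_mul, Complex.norm_real, Real.norm_eq_abs]
    have h1 := norm_le φ (‖z₀‖ + 1) C hC z hz' ω
    have h3 : |ω| * Real.exp (-|ω|) ≤ 1 := by
      have h4 : |ω| ≤ Real.exp |ω| := by
        have := Real.add_one_le_exp |ω|
        linarith
      have h5 : Real.exp |ω| * Real.exp (-|ω|) = 1 := by
        rw [← Real.exp_add]; simp
      rw [← h5]
      gcongr
    calc |ω| * ‖cexp (I * (ω : ℂ) * z) * φ ω‖
        ≤ |ω| * (C * Real.exp (-|ω|) * Real.exp (-|ω|)) := by gcongr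
      _ = (|ω| * Real.exp (-|ω|)) * (C * Real.exp (-|ω|)) := by ring
      _ ≤ 1 * (C * Real.exp (-|ω|)) := by gcongr
      _ = _ := one_mul _
  · refine Filter.Eventually.of_forall fun ω z _ => ?_
    have h1 : HasDerivAt (fun z : ℂ => I * (ω : ℂ) * z) (I * (ω : ℂ)) z := by
      simpa using (hasDerivAt_id z).const_mul (I * (ω : ℂ))
    have h2 := (h1.cexp).mul_const (φ ω)
    exact h2.congr_deriv (by ring)

end EntAux

open EntAux in
theorem t_ENT : S_ENT := by
  intro φ hφ h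
  have hd : Differentiable ℂ (Ff φ) := fun z => hasDeriv φ hφ h z
  intro x _
  have h1 : AnalyticAt ℂ (Ff φ) (x : ℂ) := hd.analyticAt (x : ℂ)
  have h2 : AnalyticAt ℝ (fun y : ℝ => (Ff φ (y : ℂ)).re) x := by
    have h3 : AnalyticAt ℝ (Ff φ) (x : ℂ) := h1.restrictScalars
    have h4 : AnalyticAt ℝ (fun y : ℝ => (y : ℂ)) x := Complex.ofRealCLM.analyticAt x
    have h5 : AnalyticAt ℝ (fun y : ℝ => Ff φ (y : ℂ)) x := h3.comp h4
    exact (Complex.reCLM.analyticAt _).comp h5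
  have h6 : RT φ 0 = fun y : ℝ => (Ff φ (y : ℂ)).re := by
    funext y
    simp only [RT, Tr, Ff, pow_zero, one_mul]
  rw [h6]
  exact h2

end Pool.Agent.R748.CH
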