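import Pool.Agent.R748.CH.Stm

set_option autoImplicit false

open Complex MeasureTheory Set Filter Topology Polynomial
open Pool.Agent.H140R2.FR (Ai)

namespace Pool.Agent.R748.CH

namespace FastAux

theorem exp_int : Integrable (fun x : ℝ => Real.exp (-|x|)) := by
  have h1 : IntegrableOn (fun x : ℝ => Real.exp (-|x|)) (Ioi 0) := by
    refine (exp_neg_integrableOn_Ioi 0 (b := 1) one_pos).congr_fun ?_ measurableSet_Ioi
    intro x hx
    have : (0 : ℝ) < x := hx
    simp [abs_of_pos this]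
  have h2 : IntegrableOn (fun x : ℝ => Real.exp (-|x|)) (Iic 0) := by
    refine (integrableOn_exp_Iic 0).congr_fun ?_ measurableSet_Iic
    intro x hx
    have : x ≤ (0 : ℝ) := hx
    simp [abs_of_nonpos this]
  have := h2.union h1
  rwa [Iic_union_Ioi, integrableOn_univ] at this

theorem pow_le (j : ℕ) (y : ℝ) (hy : 0 ≤ y) : y ^ j ≤ (j.factorial : ℝ) * Real.exp y := by
  have h := Real.pow_div_factorial_le_exp y hy j
  rwa [div_le_iff₀ (by positivity), mul_comm] at h

end FastAux

open FastAux in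
theorem t_FAST (hS : S_SHIFT) (hD : S_DECAY) : S_FAST := by
  intro L j hL
  obtain ⟨C, hC0, hC⟩ := hD L 2 hL zero_le_two
  refine ⟨∫ ω : ℝ, ((j.factorial : ℝ) * Real.exp L * C) * Real.exp (-|ω|), ?_⟩
  intro x
  have h1 : |RT ph0 j x| ≤ ‖Tr ph0 j x‖ := Complex.abs_re_le_norm _
  refine h1.trans ?_
  rw [hS j x L hL, ← integral_mul_const]
  refine norm_integral_le_of_norm_le ?_ ?_
  · exact ((exp_int.const_mul _).mul_const _)
  · refine Filter.Eventually.of_forall fun ω => ?_
    rw [norm_mul, norm_mul, norm_pow, Complex.norm_exp]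
    have e1 : (((L : ℂ) + I * (ω : ℂ)) * (x : ℂ)).re = L * x := by simp
    rw [e1]
    have e2 : ‖(L : ℂ) + I * (ω : ℂ)‖ ≤ L + |ω| := by
      refine (norm_add_le _ _).trans ?_
      rw [norm_mul, Complex.norm_I, one_mul, Complex.norm_real, Complex.norm_real,
        Real.norm_of_nonneg hL, Real.norm_eq_abs]
    have e3 : ‖(L : ℂ) + I * (ω : ℂ)‖ ^ j ≤ (j.factorial : ℝ) * (Real.exp L * Real.exp |ω|) := by
      refine (pow_le_pow_left₀ (norm_nonneg _) e2 j).trans ?_
      rw [← Real.exp_add]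
      exact pow_le j _ (by positivity)
    have e4 := hC L ω hL le_rfl
    have e5 : Real.exp (-(2 * |ω|)) = Real.exp (-|ω|) * Real.exp (-|ω|) := by
      rw [← Real.exp_add]; congr 1; ring
    have e6 : Real.exp |ω| * Real.exp (-|ω|) = 1 := by
      rw [← Real.exp_add]; simp
    calc ‖(L : ℂ) + I * (ω : ℂ)‖ ^ j * Real.exp (L * x) * ‖(Ai ((L : ℂ) + I * (ω : ℂ)))⁻¹‖
        ≤ ((j.factorial : ℝ) * (Real.exp L * Real.exp |ω|)) * Real.exp (L * x) *
          (C * Real.exp (-(2 * |ω|))) := by gcongr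
      _ = (j.factorial : ℝ) * Real.exp L * C * Real.exp (-|ω|) * Real.exp (L * x) *
          (Real.exp |ω| * Real.exp (-|ω|)) := by rw [e5]; ring
      _ = (j.factorial : ℝ) * Real.exp L * C * Real.exp (-|ω|) * Real.exp (L * x) := by
          rw [e6, mul_one]

end Pool.Agent.R748.CH
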