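import Pool.Agent.R748.CH.Stm
import Pool.Agent.H140R2.FR.T03Zeros

/-! Piece FDEF of project CH: the function `Fa a`. -/

set_option autoImplicit false

open Complex MeasureTheory Set Filter Topology Polynomial
open Pool.Agent.H140R2.FR (Ai)

namespace Pool.Agent.R748.CH

theorem Ai_zero_ne : Ai 0 ≠ 0 :=
  Pool.Agent.H140R2.FR.Ai_ne_zero 0 (Or.inr (by simp))

theorem Fa_mul (a : ℝ) (ha : 0 < a) (h0 : Ai (-(a : ℂ)) = 0) (z : ℂ) :
    (1 + z / (a : ℂ)) * Fa a z = Ai z / Ai 0 := by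
  have ha' : (a : ℂ) ≠ 0 := by exact_mod_cast ha.ne'
  have h1 := sub_smul_dslope Ai (-(a : ℂ)) z
  rw [h0, sub_zero, smul_eq_mul, sub_neg_eq_add] at h1
  unfold Fa
  have h2 := Ai_zero_ne
  rw [← h1]
  field_simp
  ring

theorem Fa_diff (a : ℝ) : Differentiable ℂ (Fa a) := by
  have h1 : DifferentiableOn ℂ (dslope Ai (-(a : ℂ))) Set.univ :=
    (Complex.differentiableOn_dslope Filter.univ_mem).mpr
      Pool.Agent.H140R2.FR.Ai_differentiable.differentiableOn
  have h2 : Differentiable ℂ (dslope Ai (-(a : ℂ))) := differentiableOn_univ.mp h1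
  exact h2.const_mul _

theorem t_FDEF (hG : S_GROW) : S_FDEF := by
  intro a ha h0
  have ha' : (a : ℂ) ≠ 0 := by exact_mod_cast ha.ne'
  have hA0 := Ai_zero_ne
  have hmul := Fa_mul a ha h0
  have hdiff := Fa_diff a
  have hdiv : ∀ z : ℂ, z ≠ -(a : ℂ) → Fa a z = Ai z / Ai 0 / (1 + z / (a : ℂ)) := by
    intro z hz
    have hne : 1 + z / (a : ℂ) ≠ 0 := by
      intro h
      apply hz
      field_simp at h
      linear_combination h
    rw [← hmul z, mul_div_cancel_left₀ _ hne]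
  have hconj : ∀ x : ℂ, Fa a ((starRingEnd ℂ) x) = (starRingEnd ℂ) (Fa a x) := by
    have hA0r : (starRingEnd ℂ) (Ai 0) = Ai 0 := by
      have := Pool.Agent.H140R2.FR.Ai_conj 0
      rw [map_zero] at this
      exact this.symm
    have hc1 : Continuous (fun x : ℂ => Fa a ((starRingEnd ℂ) x)) :=
      hdiff.continuous.comp Complex.continuous_conj
    have hc2 : Continuous (fun x : ℂ => (starRingEnd ℂ) (Fa a x)) :=
      Complex.continuous_conj.comp hdiff.continuous
    have hd : Dense ({-(a : ℂ)}ᶜ : Set ℂ) := dense_compl_singleton _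
    have he : Set.EqOn (fun x : ℂ => Fa a ((starRingEnd ℂ) x))
        (fun x : ℂ => (starRingEnd ℂ) (Fa a x)) ({-(a : ℂ)}ᶜ : Set ℂ) := by
      intro x hx
      have hx' : x ≠ -(a : ℂ) := hx
      have hx2 : (starRingEnd ℂ) x ≠ -(a : ℂ) := by
        intro h
        apply hx'
        have := congrArg (starRingEnd ℂ) h
        simpa using this
      show Fa a ((starRingEnd ℂ) x) = (starRingEnd ℂ) (Fa a x)
      rw [hdiv _ hx2, hdiv _ hx', map_div₀, map_div₀, hA0r, Pool.Agent.H140R2.FR.Ai_conj]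
      simp
    exact fun x => congrFun (hc1.ext_on hd hc2 he) x
  refine ⟨hdiff, ?_, hmul, hconj, ?_, ?_⟩
  · have := hmul 0
    rw [zero_div, add_zero, one_mul, div_self hA0] at this
    exact this
  · intro z hz
    by_contra him
    have h1 := hmul z
    rw [hz, mul_zero] at h1
    have h2 : Ai z = 0 := by
      have := h1.symm
      rcases div_eq_zero_iff.mp this with h | h
      · exact h
      · exact absurd h hA0
    exact Pool.Agent.H140R2.FR.Ai_ne_zero z (Or.inl him) h2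
  · obtain ⟨K₀, hK₀, hK⟩ := hG
    obtain ⟨B, hB⟩ := (isCompact_closedBall (0 : ℂ) (2 * a)).exists_bound_of_continuousOn
      hdiff.continuous.continuousOn
    have hA0n : 0 < ‖Ai 0‖ := norm_pos_iff.mpr hA0
    have hl1 : 0 ≤ Real.log (max B 1) := Real.log_nonneg (le_max_right _ _)
    refine ⟨K₀ + |Real.log ‖Ai 0‖| + Real.log (max B 1), by positivity, fun z => ?_⟩
    have hz0 := norm_nonneg z
    have hP : (1 : ℝ) ≤ (1 + ‖z‖) ^ (3 / 2 : ℝ) := Real.one_le_rpow (by linarith) (by norm_num)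
    have hKz := hK z
    generalize (1 + ‖z‖) ^ (3 / 2 : ℝ) = P at *
    by_cases hc : 1 ≤ ‖1 + z / (a : ℂ)‖
    · have h1 : ‖1 + z / (a : ℂ)‖ * ‖Fa a z‖ = ‖Ai z‖ / ‖Ai 0‖ := by
        rw [← norm_mul, hmul z, norm_div]
      have h2 : ‖Fa a z‖ ≤ ‖Ai z‖ / ‖Ai 0‖ := by
        rw [← h1]
        exact le_mul_of_one_le_left (norm_nonneg _) hc
      have h3 : ‖Ai z‖ / ‖Ai 0‖ ≤ Real.exp (K₀ * P) * Real.exp |Real.log ‖Ai 0‖| := by
        rw [div_eq_mul_inv]
        have h4 : ‖Ai 0‖⁻¹ ≤ Real.exp |Real.log ‖Ai 0‖| := by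
          have : ‖Ai 0‖⁻¹ = Real.exp (-Real.log ‖Ai 0‖) := by
            rw [Real.exp_neg, Real.exp_log hA0n]
          rw [this]
          exact Real.exp_le_exp.mpr (neg_le_abs _)
        exact mul_le_mul hKz h4 (by positivity) (by positivity)
      refine (h2.trans h3).trans ?_
      rw [← Real.exp_add]
      apply Real.exp_le_exp.mpr
      have h5 : |Real.log ‖Ai 0‖| ≤ |Real.log ‖Ai 0‖| * P :=
        le_mul_of_one_le_right (abs_nonneg _) hP
      have h6 : 0 ≤ Real.log (max B 1) * P := mul_nonneg hl1 (by linarith)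
      nlinarith
    · push Not at hc
      have h1 : ‖z‖ ≤ 2 * a := by
        have h2 : ‖z / (a : ℂ)‖ ≤ ‖1 + z / (a : ℂ)‖ + 1 := by
          have e : z / (a : ℂ) = (1 + z / (a : ℂ)) - 1 := by ring
          calc ‖z / (a : ℂ)‖ = ‖(1 + z / (a : ℂ)) - 1‖ := by rw [← e]
            _ ≤ ‖1 + z / (a : ℂ)‖ + ‖(1 : ℂ)‖ := norm_sub_le _ _
            _ = ‖1 + z / (a : ℂ)‖ + 1 := by rw [norm_one]
        have h3 : ‖z / (a : ℂ)‖ = ‖z‖ / a := by
          rw [norm_div, Complex.norm_real, Real.norm_eq_abs, abs_of_pos ha]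
        rw [h3] at h2
        have h4 : ‖z‖ / a ≤ 2 := by linarith
        rwa [div_le_iff₀ ha] at h4
      have h2 : ‖Fa a z‖ ≤ B := hB z (by simpa using h1)
      have h3 : ‖Fa a z‖ ≤ Real.exp (Real.log (max B 1)) := by
        rw [Real.exp_log (by positivity)]
        exact h2.trans (le_max_left _ _)
      refine h3.trans (Real.exp_le_exp.mpr ?_)
      have h5 : Real.log (max B 1) ≤ Real.log (max B 1) * P :=
        le_mul_of_one_le_right hl1 hP
      have h6 : 0 ≤ K₀ * P := mul_nonneg hK₀ (by linarith)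
      have h7 : 0 ≤ |Real.log ‖Ai 0‖| * P := mul_nonneg (abs_nonneg _) (by linarith)
      nlinarith

end Pool.Agent.R748.CH
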