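import Pool.Agent.R748.CH.Stm

/-!
# Project CH (MP_0705dc_pr), piece FIN: the final calculus step
-/

set_option autoImplicit false

open Set Filter Topology

namespace Pool.Agent.R748.CH

namespace FINaux

theorem second (g g1 g2 : ℝ → ℝ) (h1 : ∀ t, HasDerivAt g (g1 t) t)
    (h2 : ∀ t, HasDerivAt g1 (g2 t) t) (t : ℝ) : iteratedDeriv 2 g t = g2 t := by
  have e1 : deriv g = g1 := funext fun t => (h1 t).deriv
  have e2 : deriv g1 = g2 := funext fun t => (h2 t).deriv
  rw [iteratedDeriv_succ, iteratedDeriv_one, e1, e2]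

theorem contDiff2 (G G1 G2 G3 : ℝ → ℝ) (h1 : ∀ x, HasDerivAt G (G1 x) x)
    (h2 : ∀ x, HasDerivAt G1 (G2 x) x) (h3 : ∀ x, HasDerivAt G2 (G3 x) x) : ContDiff ℝ 2 G := by
  have e1 : deriv G = G1 := funext fun t => (h1 t).deriv
  have e2 : deriv G1 = G2 := funext fun t => (h2 t).deriv
  have c2 : ContDiff ℝ 0 G2 := contDiff_zero.2 (continuous_iff_continuousAt.2 fun x =>
    (h3 x).continuousAt)
  have c1 : ContDiff ℝ 1 G1 := by
    have : ContDiff ℝ (0 + 1) G1 := contDiff_succ_iff_deriv.2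
      ⟨fun x => (h2 x).differentiableAt, by simp, by rw [e2]; exact c2⟩
    simpa using this
  have : ContDiff ℝ (1 + 1) G := contDiff_succ_iff_deriv.2
    ⟨fun x => (h1 x).differentiableAt, by simp, by rw [e1]; exact c1⟩
  have e : (1 + 1 : WithTop ℕ∞) = 2 := one_add_one_eq_two
  rw [e] at this
  exact this

end FINaux

open FINaux in
theorem t_FIN : S_FIN := by
  intro G G1 G2 G3 k X₀ hk hG hG1 hG2 hpos hlc htail
  have cG : Continuous G := continuous_iff_continuousAt.2 fun x => (hG x).continuousAt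
  have cG1 : Continuous G1 := continuous_iff_continuousAt.2 fun x => (hG1 x).continuousAt
  have cG2 : Continuous G2 := continuous_iff_continuousAt.2 fun x => (hG2 x).continuousAt
  obtain ⟨w, hw⟩ : ∃ w : ℝ → ℝ, w = fun x => (G1 x ^ 2 - G x * G2 x) / G x ^ 2 := ⟨_, rfl⟩
  have hwc : Continuous w := by
    rw [hw]
    refine Continuous.div (by fun_prop) (by fun_prop) fun x => ?_
    have := hpos x
    positivity
  have hw0 : ∀ x, 0 < w x := by
    intro x
    rw [hw]
    have h1 := hpos x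
    have h2 := hlc x
    exact div_pos (by linarith) (by positivity)
  have hw1 : ∀ X, X₀ ≤ X → 1 ≤ w (-X) := by
    intro X hX
    rw [hw]
    show 1 ≤ (G1 (-X) ^ 2 - G (-X) * G2 (-X)) / G (-X) ^ 2
    have h1 := hpos (-X)
    rw [le_div_iff₀ (by positivity), one_mul]
    exact htail X hX
  obtain ⟨R, hR⟩ : ∃ R : ℝ, R = max X₀ 0 := ⟨_, rfl⟩
  have hR0 : 0 ≤ R := by rw [hR]; exact le_max_right _ _
  have hRX : X₀ ≤ R := by rw [hR]; exact le_max_left _ _
  obtain ⟨x0, hx0, hmin⟩ := (isCompact_Icc (a := -R) (b := R)).exists_isMinOn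
    ⟨0, by constructor <;> linarith⟩ hwc.continuousOn
  obtain ⟨c0, hc0⟩ : ∃ c0 : ℝ, c0 = min (w x0) 1 := ⟨_, rfl⟩
  have hc0p : 0 < c0 := by
    rw [hc0]
    exact lt_min (hw0 x0) one_pos
  have hkey : ∀ x, c0 ≤ w (-x) + w x := by
    intro x
    have h1 := hw0 x
    have h2 := hw0 (-x)
    have h3 : c0 ≤ w x0 := by rw [hc0]; exact min_le_left _ _
    have h4 : c0 ≤ 1 := by rw [hc0]; exact min_le_right _ _
    rcases le_or_gt |x| R with h | h
    · have h5 : w x0 ≤ w x := hmin (abs_le.1 h)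
      linarith
    · rcases lt_abs.1 h with h | h
      · have h5 := hw1 x (by linarith)
        linarith
      · have h5 := hw1 (-x) (by linarith)
        rw [neg_neg] at h5
        linarith
  refine ⟨k ^ 2 * c0, by positivity, ?_⟩
  rintro f ⟨b, hb, hf⟩
  have hfpos : ∀ t, 0 < f t := by
    intro t
    rw [hf]
    have h1 := hpos (-(k * t))
    have h2 := hpos (k * t)
    positivity
  -- the logarithm and its derivatives
  obtain ⟨g, hg⟩ : ∃ g : ℝ → ℝ, g = fun t => Real.log (f t) := ⟨_, rfl⟩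
  obtain ⟨g1, hg1⟩ : ∃ g1 : ℝ → ℝ, g1 = fun t => k * (G1 (k * t) / G (k * t)) -
    k * (G1 (-(k * t)) / G (-(k * t))) := ⟨_, rfl⟩
  obtain ⟨g2, hg2⟩ : ∃ g2 : ℝ → ℝ, g2 = fun t => -(k ^ 2 * (w (-(k * t)) + w (k * t))) :=
    ⟨_, rfl⟩
  have dk : ∀ t : ℝ, HasDerivAt (fun t : ℝ => k * t) k t := by
    intro t
    have := (hasDerivAt_id t).const_mul k
    rwa [mul_one] at this
  have dnk : ∀ t : ℝ, HasDerivAt (fun t : ℝ => -(k * t)) (-k) t := fun t => (dk t).neg
  have hgd : ∀ t, HasDerivAt g (g1 t) t := by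
    intro t
    have e : g = fun t => Real.log b + (Real.log (G (-(k * t))) + Real.log (G (k * t))) := by
      rw [hg]
      funext t
      rw [hf, mul_assoc, Real.log_mul hb.ne' (mul_pos (hpos _) (hpos _)).ne',
        Real.log_mul (hpos _).ne' (hpos _).ne']
    have d1 : HasDerivAt (fun t => Real.log (G (-(k * t))))
        (G1 (-(k * t)) * -k / G (-(k * t))) t :=
      ((hG (-(k * t))).comp t (dnk t)).log (hpos _).ne'
    have d2 : HasDerivAt (fun t => Real.log (G (k * t))) (G1 (k * t) * k / G (k * t)) t :=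
      ((hG (k * t)).comp t (dk t)).log (hpos _).ne'
    rw [e, hg1]
    refine ((d1.add d2).const_add (Real.log b)).congr_deriv ?_
    ring
  have dq : ∀ x, HasDerivAt (fun x => G1 x / G x) (-w x) x := by
    intro x
    have h1 := (hG1 x).div (hG x) (hpos x).ne'
    refine h1.congr_deriv ?_
    rw [hw]
    show (G2 x * G x - G1 x * G1 x) / G x ^ 2 = -((G1 x ^ 2 - G x * G2 x) / G x ^ 2)
    rw [← neg_div]
    congr 1
    ring
  have hg1d : ∀ t, HasDerivAt g1 (g2 t) t := by
    intro t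
    have d1 : HasDerivAt (fun t => k * (G1 (-(k * t)) / G (-(k * t))))
        (k * (-w (-(k * t)) * -k)) t :=
      (HasDerivAt.comp (h₂ := fun x => G1 x / G x) (h := fun t => -(k * t)) t
        (dq (-(k * t))) (dnk t)).const_mul k
    have d2 : HasDerivAt (fun t => k * (G1 (k * t) / G (k * t))) (k * (-w (k * t) * k)) t :=
      (HasDerivAt.comp (h₂ := fun x => G1 x / G x) (h := fun t => k * t) t
        (dq (k * t)) (dk t)).const_mul k
    rw [hg1, hg2]
    refine (d2.sub d1).congr_deriv ?_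
    ring
  have hg2c : ∀ t, k ^ 2 * c0 ≤ -g2 t := by
    intro t
    rw [hg2]
    show k ^ 2 * c0 ≤ -(-(k ^ 2 * (w (-(k * t)) + w (k * t))))
    rw [neg_neg]
    exact mul_le_mul_of_nonneg_left (hkey (k * t)) (by positivity)
  refine ⟨hfpos, ?_, ?_, ?_⟩
  · have cd := contDiff2 G G1 G2 G3 hG hG1 hG2
    have e : f = fun t => b * G (-(k * t)) * G (k * t) := funext hf
    rw [e]
    have c1 : ContDiff ℝ 2 fun t : ℝ => G (-(k * t)) := cd.comp (by fun_prop)
    have c2 : ContDiff ℝ 2 fun t : ℝ => G (k * t) := cd.comp (by fun_prop)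
    exact (contDiff_const.mul c1).mul c2
  · intro t
    have h1 := second g g1 g2 hgd hg1d t
    rw [hg] at h1
    rw [h1]
    exact hg2c t
  · have hd1 : ∀ t, HasDerivAt (fun t => -Real.log (f t) - k ^ 2 * c0 / 2 * t ^ 2)
        (-g1 t - k ^ 2 * c0 * t) t := by
      intro t
      have h1 := hgd t
      rw [hg] at h1
      have h2 : HasDerivAt (fun t : ℝ => k ^ 2 * c0 / 2 * t ^ 2) (k ^ 2 * c0 * t) t := by
        have := (hasDerivAt_pow 2 t).const_mul (k ^ 2 * c0 / 2)
        refine this.congr_deriv ?_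
        push_cast
        ring
      exact h1.neg.sub h2
    have hd2 : ∀ t, HasDerivAt (fun t => -g1 t - k ^ 2 * c0 * t) (-g2 t - k ^ 2 * c0) t := by
      intro t
      have h2 : HasDerivAt (fun t : ℝ => k ^ 2 * c0 * t) (k ^ 2 * c0) t := by
        have := (hasDerivAt_id t).const_mul (k ^ 2 * c0)
        rwa [mul_one] at this
      exact (hg1d t).neg.sub h2
    have e : deriv (fun t => -Real.log (f t) - k ^ 2 * c0 / 2 * t ^ 2) =
        fun t => -g1 t - k ^ 2 * c0 * t := funext fun t => (hd1 t).deriv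
    refine Monotone.convexOn_univ_of_deriv (fun t => (hd1 t).differentiableAt) ?_
    rw [e]
    refine monotone_of_deriv_nonneg (fun t => (hd2 t).differentiableAt) fun t => ?_
    rw [(hd2 t).deriv]
    have := hg2c t
    linarith

end Pool.Agent.R748.CH
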