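import Pool.Agent.R748.CH.Stm

/-!
# Project CH: the final theorem from the pieces
-/

set_option autoImplicit false

open Complex MeasureTheory Set Filter Topology Polynomial
open Pool.Agent.H140R2.FR (Ai)

namespace Pool.Agent.R748.CH

theorem t_FINAL (hTR : S_TR) (hPH : S_PH) (hTAIL : S_TAIL) (hG : S_G) (hSC : S_SCALE)
    (hFIN : S_FIN) : ∃ c : ℝ, 0 < c ∧ (∀ t, 0 < fZ t) ∧ ContDiff ℝ 2 fZ ∧
      (∀ t, c ≤ -(iteratedDeriv 2 (fun s => Real.log (fZ s)) t)) ∧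
      ConvexOn ℝ Set.univ (fun t => -Real.log (fZ t) - c / 2 * t ^ 2) := by
  have hM0 := hPH.1
  obtain ⟨X0, hX0⟩ := hTAIL
  have hk : (0 : ℝ) < (2 : ℝ) ^ ((1 : ℝ) / 3) := by positivity
  obtain ⟨c, hc, h⟩ := hFIN (RT ph0 0) (RT ph0 1) (RT ph0 2) (RT ph0 3) ((2 : ℝ) ^ ((1 : ℝ) / 3)) X0 hk
    (hTR ph0 hM0 0).1 (hTR ph0 hM0 1).1 (hTR ph0 hM0 2).1 hG.1 hG.2 (fun X hX => (hX0 X hX).1)
  refine ⟨c, hc, h fZ ⟨(1 / 2) * ((2 : ℝ) ^ ((2 : ℝ) / 3) / (2 * Real.pi)) ^ 2, by positivity, fun t => ?_⟩⟩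
  have hre : ∀ t : ℝ, (gG t).re = (2 : ℝ) ^ ((2 : ℝ) / 3) / (2 * Real.pi) *
      RT ph0 0 (-((2 : ℝ) ^ ((1 : ℝ) / 3) * t)) := by
    intro t
    rw [hSC t, (hTR ph0 hM0 0).2.1, ← Complex.ofReal_mul, Complex.ofReal_re]
  unfold fZ
  rw [hre t, hre (-t)]
  have : -((2 : ℝ) ^ ((1 : ℝ) / 3) * -t) = (2 : ℝ) ^ ((1 : ℝ) / 3) * t := by ring
  rw [this]
  ring

end Pool.Agent.R748.CH
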