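import Pool.Agent.R748.CH.Stm

/-! Project CH (helper748), piece GAUSS by helper506: the Gaussian. -/

set_option autoImplicit false

open Complex MeasureTheory Set Filter Topology Polynomial

namespace Pool.Agent.R748.CH

namespace GAUSSpf

lemma norm_g (δ ω : ℝ) : ‖cexp (-(δ : ℂ) * (ω : ℂ) ^ 2)‖ = Real.exp (-δ * ω ^ 2) := by
  have h : -(δ : ℂ) * (ω : ℂ) ^ 2 = ((-δ * ω ^ 2 : ℝ) : ℂ) := by push_cast; rfl
  rw [h, ← ofReal_exp, norm_real, Real.norm_eq_abs, abs_of_pos (Real.exp_pos _)]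

lemma mom_gauss {δ : ℝ} (hδ : 0 < δ) : Mom (fun ω : ℝ => cexp (-(δ : ℂ) * (ω : ℂ) ^ 2)) := by
  refine ⟨by fun_prop, fun j => ?_, fun ω => ?_⟩
  · have h := integrable_rpow_mul_exp_neg_mul_sq hδ (s := (j : ℝ)) (by
      have : (0 : ℝ) ≤ j := Nat.cast_nonneg j
      linarith)
    refine h.norm.congr (ae_of_all _ fun ω => ?_)
    simp only [norm_g]
    rw [Real.rpow_natCast, norm_mul, norm_pow, Real.norm_eq_abs, Real.norm_eq_abs, abs_of_pos (Real.exp_pos _)]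
  · rw [← exp_conj]
    simp only [map_mul, map_neg, conj_ofReal, map_pow, ofReal_neg]
    congr 1
    ring

lemma tr_gauss {δ : ℝ} (hδ : 0 < δ) (x : ℝ) : RT (fun ω : ℝ => cexp (-(δ : ℂ) * (ω : ℂ) ^ 2)) 0 x =
    (Real.pi / δ) ^ ((1 : ℝ) / 2) * Real.exp (-x ^ 2 / (4 * δ)) := by
  have h := fourierIntegral_gaussian (b := (δ : ℂ)) (by simpa using hδ) (x : ℂ)
  have h1 : Tr (fun ω : ℝ => cexp (-(δ : ℂ) * (ω : ℂ) ^ 2)) 0 x =
      (((Real.pi / δ) ^ ((1 : ℝ) / 2) * Real.exp (-x ^ 2 / (4 * δ)) : ℝ) : ℂ) := by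
    unfold Tr
    have e : (fun ω : ℝ => (I * (ω : ℂ)) ^ 0 * cexp (I * (ω : ℂ) * (x : ℂ)) * cexp (-(δ : ℂ) * (ω : ℂ) ^ 2)) =
        fun ω : ℝ => cexp (I * (x : ℂ) * (ω : ℂ)) * cexp (-(δ : ℂ) * (ω : ℂ) ^ 2) := by
      funext ω
      rw [pow_zero, one_mul]
      congr 2
      ring
    rw [e, h]
    have hpd : (0 : ℝ) ≤ Real.pi / δ := by positivity
    rw [ofReal_mul, ofReal_cpow hpd, ofReal_exp]
    push_cast
    rfl
  rw [RT, h1, ofReal_re]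

end GAUSSpf

open GAUSSpf

theorem t_GAUSS (hTR : S_TR) : S_GAUSS := by
  intro δ hδ
  set φ : ℝ → ℂ := fun ω : ℝ => cexp (-(δ : ℂ) * (ω : ℂ) ^ 2) with hφ
  have hM : Mom φ := mom_gauss hδ
  set c : ℝ := (Real.pi / δ) ^ ((1 : ℝ) / 2) with hc
  have hc0 : 0 < c := Real.rpow_pos_of_pos (by positivity) _
  have hf : ∀ x, RT φ 0 x = c * Real.exp (-x ^ 2 / (4 * δ)) := tr_gauss hδ
  have hfun : RT φ 0 = fun x => c * Real.exp (-x ^ 2 / (4 * δ)) := funext hf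
  have hexp : ∀ x : ℝ, HasDerivAt (fun x : ℝ => Real.exp (-x ^ 2 / (4 * δ)))
      (Real.exp (-x ^ 2 / (4 * δ)) * (-(x / (2 * δ)))) x := by
    intro x
    have h1 : HasDerivAt (fun x : ℝ => -x ^ 2 / (4 * δ)) (-(x / (2 * δ))) x := by
      have h2 := ((hasDerivAt_pow 2 x).neg).div_const (4 * δ)
      refine h2.congr_deriv ?_
      field_simp
      norm_num
      ring
    exact h1.exp
  have h1 : ∀ x, RT φ 1 x = -(x / (2 * δ)) * (c * Real.exp (-x ^ 2 / (4 * δ))) := by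
    intro x
    have a := (hTR φ hM 0).1 x
    rw [hfun] at a
    have b := (hexp x).const_mul c
    rw [show (0 + 1 : ℕ) = 1 from rfl] at a
    rw [a.unique b]
    ring
  have h1fun : RT φ 1 = fun x => -(x / (2 * δ)) * (c * Real.exp (-x ^ 2 / (4 * δ))) := funext h1
  have h2 : ∀ x, RT φ 2 x = (x ^ 2 / (4 * δ ^ 2) - 1 / (2 * δ)) * (c * Real.exp (-x ^ 2 / (4 * δ))) := by
    intro x
    have a := (hTR φ hM 1).1 x
    rw [h1fun] at a
    have b1 : HasDerivAt (fun x : ℝ => -(x / (2 * δ))) (-(1 / (2 * δ))) x := ((hasDerivAt_id x).div_const _).neg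
    have b := b1.mul ((hexp x).const_mul c)
    rw [show (1 + 1 : ℕ) = 2 from rfl] at a
    rw [a.unique b]
    field_simp
    ring
  refine ⟨hM, fun x => ?_, fun x => ?_⟩
  · rw [hf]
    positivity
  · rw [hf, h1, h2]
    have e : c * Real.exp (-x ^ 2 / (4 * δ)) * ((x ^ 2 / (4 * δ ^ 2) - 1 / (2 * δ)) *
        (c * Real.exp (-x ^ 2 / (4 * δ)))) = (-(x / (2 * δ)) * (c * Real.exp (-x ^ 2 / (4 * δ)))) ^ 2 -
        1 / (2 * δ) * (c * Real.exp (-x ^ 2 / (4 * δ))) ^ 2 := by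
      field_simp
      ring
    rw [e]
    have : 0 ≤ 1 / (2 * δ) * (c * Real.exp (-x ^ 2 / (4 * δ))) ^ 2 := by positivity
    linarith

end Pool.Agent.R748.CH
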