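import Pool.Agent.R748.CH.Stm
import Pool.Agent.H140R2.FR.T01Airy

/-! Piece GROW of project CH: growth of the Airy function. -/

set_option autoImplicit false

open Complex MeasureTheory Set Filter Topology Polynomial
open Pool.Agent.H140R2.FR (Ai)

namespace Pool.Agent.R748.CH

open Pool.Agent.H140R2.FR in
theorem grow_pt (z : ℂ) (η : ℝ) (hη1 : 1 ≤ η) (hη2 : η ^ 2 = 1 + ‖z‖) (s : ℝ) :
    ‖T01.gz z ((s : ℂ) + I * (η : ℂ))‖ ≤ Real.exp (2 * η ^ 3) * Real.exp (-(1 / 2) * s ^ 2) := by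
  rw [T01.norm_gz, ← Real.exp_add]
  apply Real.exp_le_exp.mpr
  have hre : ((s : ℂ) + I * (η : ℂ)).re = s := by simp
  have him : ((s : ℂ) + I * (η : ℂ)).im = η := by simp
  rw [hre, him]
  have h1 : |z.im| ≤ η ^ 2 := by
    rw [hη2]
    have := Complex.abs_im_le_norm z
    linarith
  have h2 : |z.re| ≤ η ^ 2 := by
    rw [hη2]
    have := Complex.abs_re_le_norm z
    linarith
  have hη0 : 0 < η := by linarith
  have h3 : -(z.im * s) ≤ η ^ 2 * |s| := by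
    have : |z.im * s| ≤ η ^ 2 * |s| := by
      rw [abs_mul]
      gcongr
    exact (neg_le_abs _).trans this
  have h4 : -(z.re * η) ≤ η ^ 2 * η := by
    have : |z.re * η| ≤ η ^ 2 * η := by
      rw [abs_mul, abs_of_pos hη0]
      gcongr
    exact (neg_le_abs _).trans this
  have h5 : η ^ 2 * |s| ≤ η * s ^ 2 / 2 + η ^ 3 / 2 := by
    have : 0 ≤ η * (|s| - η) ^ 2 := by positivity
    have e : |s| ^ 2 = s ^ 2 := sq_abs s
    nlinarith
  have h6 : s ^ 2 ≤ η * s ^ 2 := by nlinarith [sq_nonneg s]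
  have h7 : 0 < η ^ 3 := by positivity
  have e1 : η ^ 2 * η = η ^ 3 := by ring
  nlinarith

theorem t_GROW : S_GROW := by
  refine ⟨2, by norm_num, fun z => ?_⟩
  have hR : 1 ≤ 1 + ‖z‖ := by have := norm_nonneg z; linarith
  obtain ⟨η, hη⟩ : ∃ η : ℝ, η = Real.sqrt (1 + ‖z‖) := ⟨_, rfl⟩
  have hη1 : 1 ≤ η := by rw [hη]; exact Real.one_le_sqrt.mpr hR
  have hη2 : η ^ 2 = 1 + ‖z‖ := by rw [hη]; exact Real.sq_sqrt (by linarith)
  have hη0 : 0 < η := by linarith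
  have hη3 : (1 + ‖z‖) ^ (3 / 2 : ℝ) = η ^ 3 := by
    rw [← hη2, ← Real.rpow_natCast η 2, ← Real.rpow_mul hη0.le, ← Real.rpow_natCast η 3]
    norm_num
  have e1 : Ai z = ((1 / (2 * Real.pi) : ℝ) : ℂ) *
      ∫ s : ℝ, Pool.Agent.H140R2.FR.T01.gz z ((s : ℂ) + I * (η : ℂ)) := by
    have := (Pool.Agent.H140R2.FR.T01.shift0 z).2.2 I (I * (η : ℂ)) (by simp) (by simpa using hη0)
    rw [← this]
    rfl
  rw [hη3, e1, norm_mul, Complex.norm_real, Real.norm_eq_abs,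
    abs_of_pos (by positivity : (0:ℝ) < 1 / (2 * Real.pi))]
  have hint : ‖∫ s : ℝ, Pool.Agent.H140R2.FR.T01.gz z ((s : ℂ) + I * (η : ℂ))‖ ≤
      ∫ s : ℝ, Real.exp (2 * η ^ 3) * Real.exp (-(1 / 2) * s ^ 2) := by
    refine norm_integral_le_of_norm_le ?_ (ae_of_all _ (grow_pt z η hη1 hη2))
    exact (integrable_exp_neg_mul_sq (by norm_num : (0:ℝ) < 1 / 2)).const_mul _
  rw [integral_const_mul, integral_gaussian] at hint
  have h1 : Real.sqrt (Real.pi / (1 / 2)) ≤ 2 * Real.pi := by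
    rw [Real.sqrt_le_iff]
    have := Real.pi_gt_three
    constructor
    · positivity
    · nlinarith
  have h2 : (1 / (2 * Real.pi)) * (Real.exp (2 * η ^ 3) * Real.sqrt (Real.pi / (1 / 2))) ≤
      (1 / (2 * Real.pi)) * (Real.exp (2 * η ^ 3) * (2 * Real.pi)) := by
    have := Real.pi_pos
    gcongr
  have h3 : (1 / (2 * Real.pi)) * (Real.exp (2 * η ^ 3) * (2 * Real.pi)) = Real.exp (2 * η ^ 3) := by
    have := Real.pi_pos.ne'
    field_simp
  have h4 : (1 / (2 * Real.pi)) * ‖∫ s : ℝ, Pool.Agent.H140R2.FR.T01.gz z ((s : ℂ) + I * (η : ℂ))‖ ≤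
      (1 / (2 * Real.pi)) * (Real.exp (2 * η ^ 3) * Real.sqrt (Real.pi / (1 / 2))) := by
    have := Real.pi_pos
    gcongr
  linarith

end Pool.Agent.R748.CH
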