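import Pool.Agent.R748.CH.Stm
import Pool.Agent.H140R2.FR.T03Zeros

/-!
# Project CH: domination of the kernel (KERB)
-/

set_option autoImplicit false

open Complex MeasureTheory Set Filter Topology Polynomial
open Pool.Agent.H140R2.FR (Ai cA Ai_differentiable Ai_ne_zero Ai_conj Ai_sq)

namespace Pool.Agent.R748.CH

namespace KERB

/-- square root of a complex number in the first quadrant -/
theorem root (X s : ℝ) (hX : 0 < X) (hs : 0 ≤ s) :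
    ∃ a b : ℝ, X ≤ a ∧ 0 ≤ b ∧ a ^ 2 - b ^ 2 = X ^ 2 ∧ 2 * a * b = s := by
  set ρ : ℝ := Real.sqrt (X ^ 4 + s ^ 2) with hρ
  have hρ2 : ρ ^ 2 = X ^ 4 + s ^ 2 := Real.sq_sqrt (by positivity)
  have hρ0 : 0 ≤ ρ := Real.sqrt_nonneg _
  have hρX : X ^ 2 ≤ ρ := by
    refine Real.le_sqrt_of_sq_le ?_
    nlinarith [sq_nonneg s]
  have ha2 : Real.sqrt ((ρ + X ^ 2) / 2) ^ 2 = (ρ + X ^ 2) / 2 := Real.sq_sqrt (by positivity)
  have hb2 : Real.sqrt ((ρ - X ^ 2) / 2) ^ 2 = (ρ - X ^ 2) / 2 := Real.sq_sqrt (by linarith)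
  have ha0 : 0 ≤ Real.sqrt ((ρ + X ^ 2) / 2) := Real.sqrt_nonneg _
  have hb0 : 0 ≤ Real.sqrt ((ρ - X ^ 2) / 2) := Real.sqrt_nonneg _
  refine ⟨Real.sqrt ((ρ + X ^ 2) / 2), Real.sqrt ((ρ - X ^ 2) / 2), ?_, hb0, ?_, ?_⟩
  · refine Real.le_sqrt_of_sq_le ?_
    linarith
  · rw [ha2, hb2]; ring
  · have h1 : (2 * Real.sqrt ((ρ + X ^ 2) / 2) * Real.sqrt ((ρ - X ^ 2) / 2)) ^ 2 = s ^ 2 := by
      rw [mul_pow, mul_pow, ha2, hb2]
      nlinarith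
    have h2 := abs_eq_abs.2 (sq_eq_sq_iff_eq_or_eq_neg.1 h1)
    rwa [abs_of_nonneg (by positivity), abs_of_nonneg hs] at h2

theorem cube_le {X a b : ℝ} (hX : 0 < X) (ha : X ≤ a) (h : a ^ 2 - b ^ 2 = X ^ 2) :
    a * (X ^ 2 - 2 * b ^ 2) - X ^ 3 ≤ -(3 / 2) * (X * b ^ 2) := by
  by_cases h1 : 2 * b ^ 2 ≤ X ^ 2
  · have h2 : a ≤ X + b ^ 2 / (2 * X) := by
      refine abs_le_of_sq_le_sq' ?_ (by positivity) |>.2
      have h3 : (X + b ^ 2 / (2 * X)) ^ 2 = X ^ 2 + b ^ 2 + (b ^ 2 / (2 * X)) ^ 2 := by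
        field_simp
        ring
      rw [h3]
      have h4 : 0 ≤ (b ^ 2 / (2 * X)) ^ 2 := by positivity
      linarith
    have h3 : a * (X ^ 2 - 2 * b ^ 2) ≤ (X + b ^ 2 / (2 * X)) * (X ^ 2 - 2 * b ^ 2) :=
      mul_le_mul_of_nonneg_right h2 (by linarith)
    have h4 : (X + b ^ 2 / (2 * X)) * (X ^ 2 - 2 * b ^ 2) =
        X ^ 3 - 3 / 2 * (X * b ^ 2) - b ^ 4 / X := by
      field_simp
      ring
    have h5 : 0 ≤ b ^ 4 / X := by positivity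
    linarith
  · push Not at h1
    have h2 : a * (X ^ 2 - 2 * b ^ 2) ≤ X * (X ^ 2 - 2 * b ^ 2) := by nlinarith
    have h3 : 0 ≤ X * b ^ 2 := by positivity
    nlinarith

theorem low {X a b v : ℝ} (hX : 1 ≤ X) (hv : 0 ≤ v) (hb : 0 ≤ b)
    (h : a ^ 2 - b ^ 2 = X ^ 2) (hs : (2 * a * b) ^ 2 = X * v ^ 2) :
    v / 4 - 1 / 8 ≤ X * b ^ 2 := by
  have hX0 : 0 < X := by linarith
  have hs' : 4 * (X ^ 2 + b ^ 2) * b ^ 2 = X * v ^ 2 := by
    rw [← hs]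
    have : a ^ 2 = X ^ 2 + b ^ 2 := by linarith
    calc 4 * (X ^ 2 + b ^ 2) * b ^ 2 = 4 * a ^ 2 * b ^ 2 := by rw [this]
      _ = _ := by ring
  by_cases h1 : b ≤ X
  · have h2 : b ^ 2 ≤ X ^ 2 := pow_le_pow_left₀ hb h1 2
    have h3 : X * v ^ 2 ≤ X * (8 * (X * b ^ 2)) := by
      rw [← hs']
      nlinarith [sq_nonneg b]
    have h4 := le_of_mul_le_mul_left h3 hX0
    nlinarith [sq_nonneg (v - 1)]
  · push Not at h1
    have h2 : X ^ 2 ≤ b ^ 2 := pow_le_pow_left₀ hX0.le h1.le 2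
    have h3 : v ^ 2 ≤ 8 * (b ^ 2) ^ 2 := by
      have h4 : v ^ 2 ≤ X * v ^ 2 := by nlinarith [sq_nonneg v]
      nlinarith [sq_nonneg b]
    have h5 : v / 4 ≤ b ^ 2 := by
      refine abs_le_of_sq_le_sq' ?_ (sq_nonneg b) |>.2
      nlinarith [sq_nonneg (b ^ 2)]
    nlinarith [sq_nonneg b]

theorem Ai_up {X : ℝ} (hX : 1 ≤ X) : ‖Ai ((X : ℂ) ^ 2)‖ ≤
    1 / (2 * Real.pi) * Real.exp (-(2 / 3 * X ^ 3)) * Real.sqrt (Real.pi / X) := by
  have hX0 : 0 < X := by linarith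
  rw [Ai_sq (X : ℂ) (by simpa using hX0), norm_mul, norm_mul]
  have h1 : ‖((1 / (2 * Real.pi) : ℝ) : ℂ)‖ = 1 / (2 * Real.pi) := by
    rw [Complex.norm_real, Real.norm_of_nonneg (by positivity)]
  have h2 : ‖cexp (-(2 / 3) * (X : ℂ) ^ 3)‖ = Real.exp (-(2 / 3 * X ^ 3)) := by
    have : (-(2 / 3) * (X : ℂ) ^ 3) = ((-(2 / 3 * X ^ 3) : ℝ) : ℂ) := by push_cast; ring
    rw [this, Complex.norm_exp, Complex.ofReal_re]
  have h3 : ‖cA (X : ℂ)‖ ≤ Real.sqrt (Real.pi / X) := by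
    unfold cA
    refine (norm_integral_le_integral_norm _).trans (le_of_eq ?_)
    rw [← integral_gaussian X]
    refine integral_congr_ae (Filter.Eventually.of_forall fun y => ?_)
    simp only
    rw [Complex.norm_exp]
    congr 1
    have : (-(X : ℂ) * (y : ℂ) ^ 2 + I * (y : ℂ) ^ 3 / 3) =
        ((-X * y ^ 2 : ℝ) : ℂ) + ((y ^ 3 / 3 : ℝ) : ℂ) * I := by push_cast; ring
    rw [this, Complex.add_re, Complex.ofReal_re, Complex.re_ofReal_mul, Complex.I_re, mul_zero,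
      add_zero]
  rw [h1, h2]
  exact mul_le_mul_of_nonneg_left h3 (by positivity)

theorem inv_abs (X v : ℝ) : ‖(Ai ((X : ℂ) ^ 2 + I * ((Real.sqrt X * v : ℝ) : ℂ)))⁻¹‖ =
    ‖(Ai ((X : ℂ) ^ 2 + I * ((Real.sqrt X * |v| : ℝ) : ℂ)))⁻¹‖ := by
  rcases abs_cases v with h | h
  · rw [h.1]
  · rw [h.1]
    have h1 : ((X : ℂ) ^ 2 + I * ((Real.sqrt X * -v : ℝ) : ℂ)) =
        (starRingEnd ℂ) ((X : ℂ) ^ 2 + I * ((Real.sqrt X * v : ℝ) : ℂ)) := by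
      simp
    rw [h1, Ai_conj, norm_inv, norm_inv, Complex.norm_conj]

end KERB

open KERB in
/-- KERB: domination of the kernel. -/
theorem t_KERB (hA : S_AILOW) : S_KERB := by
  obtain ⟨C, hC, hCb⟩ := hA
  refine ⟨C * Real.exp (1 / 8), by positivity, fun X v hX => ?_⟩
  have hX0 : 0 < X := by linarith
  have hpi := Real.pi_pos
  have h1 : ‖HX X v‖ = ‖Ai ((X : ℂ) ^ 2)‖ *
      ‖(Ai ((X : ℂ) ^ 2 + I * ((Real.sqrt X * |v| : ℝ) : ℂ)))⁻¹‖ := by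
    unfold HX
    have h2 : ‖cexp (-(I * ((X * Real.sqrt X * v : ℝ) : ℂ)))‖ = 1 := by
      rw [Complex.norm_exp]
      simp
    rw [norm_mul, h2, mul_one, norm_div, ← inv_abs, norm_inv, div_eq_mul_inv]
  obtain ⟨a, b, ha, hb, hab, hs⟩ := root X (Real.sqrt X * |v|) hX0 (by positivity)
  set p : ℂ := (a : ℂ) + b * I with hp
  have hpre : p.re = a := by simp [hp]
  have hpim : p.im = b := by simp [hp]
  have hp2 : p ^ 2 = (X : ℂ) ^ 2 + I * ((Real.sqrt X * |v| : ℝ) : ℂ) := by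
    rw [← hs]
    have : ((X : ℂ)) ^ 2 = ((X ^ 2 : ℝ) : ℂ) := by push_cast; ring
    rw [this, ← hab, hp]
    push_cast
    ring_nf
    rw [I_sq]
    ring
  have hp3 : (p ^ 3).re = a * (X ^ 2 - 2 * b ^ 2) := by
    have h2 : p ^ 3 = ((a ^ 3 - 3 * a * b ^ 2 : ℝ) : ℂ) + ((3 * a ^ 2 * b - b ^ 3 : ℝ) : ℂ) * I := by
      rw [hp]
      push_cast
      have hI3 : I ^ 3 = -I := by rw [pow_succ, I_sq]; ring
      ring_nf
      rw [I_sq, hI3]
      ring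
    rw [h2]
    simp only [Complex.add_re, Complex.ofReal_re, Complex.mul_re, Complex.I_re, mul_zero,
      Complex.ofReal_im, Complex.I_im, mul_one, sub_self, add_zero]
    rw [← hab]
    ring
  have h3 := hCb p (by rw [hpre]; linarith) (by
    rw [hpre, hpim, abs_of_nonneg hb]
    refine abs_le_of_sq_le_sq' ?_ (by linarith) |>.2
    nlinarith [sq_nonneg X])
  rw [hp2, hp3] at h3
  have h4 := cube_le hX0 ha hab
  have hs2 : (2 * a * b) ^ 2 = X * |v| ^ 2 := by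
    rw [hs, mul_pow, Real.sq_sqrt hX0.le]
  have h5 := low hX (abs_nonneg v) hb hab hs2
  have hpn : ‖p‖ ≤ X * (1 + |v|) := by
    have h6 : ‖p‖ ^ 2 = a ^ 2 + b ^ 2 := by
      rw [Complex.sq_norm, Complex.normSq_apply, hpre, hpim]
      ring
    refine abs_le_of_sq_le_sq' ?_ (by positivity) |>.2
    rw [h6]
    refine abs_le_of_sq_le_sq' ?_ (by positivity) |>.2
    have h7 : (a ^ 2 + b ^ 2) ^ 2 = X ^ 4 + X * |v| ^ 2 := by
      have h8 : (a ^ 2 + b ^ 2) ^ 2 = (a ^ 2 - b ^ 2) ^ 2 + (2 * a * b) ^ 2 := by ring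
      rw [h8, hab, hs2]
      ring
    rw [h7]
    have h9 : X * |v| ^ 2 ≤ X ^ 4 * |v| ^ 2 := by
      refine mul_le_mul_of_nonneg_right ?_ (by positivity)
      nlinarith [pow_le_pow_left₀ zero_le_one hX 3, hX0]
    have h10 : 1 + |v| ^ 2 ≤ (1 + |v|) ^ 4 := by
      have hv := abs_nonneg v
      nlinarith [pow_nonneg hv 3, pow_nonneg hv 4, pow_nonneg hv 2]
    calc X ^ 4 + X * |v| ^ 2 ≤ X ^ 4 * (1 + |v| ^ 2) := by linarith
      _ ≤ X ^ 4 * (1 + |v|) ^ 4 := mul_le_mul_of_nonneg_left h10 (by positivity)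
      _ = _ := by ring
  have h11 : Real.sqrt (Real.pi / X) * Real.sqrt (1 + ‖p‖) ≤ 2 * Real.pi * (1 + |v|) := by
    rw [← Real.sqrt_mul (by positivity)]
    refine Real.sqrt_le_iff.2 ⟨by positivity, ?_⟩
    have h12 : Real.pi / X * (1 + ‖p‖) ≤ 2 * Real.pi * (1 + |v|) := by
      rw [div_mul_eq_mul_div, div_le_iff₀ hX0]
      have h13 : 1 + ‖p‖ ≤ X * (2 * (1 + |v|)) := by
        nlinarith [abs_nonneg v]
      calc Real.pi * (1 + ‖p‖) ≤ Real.pi * (X * (2 * (1 + |v|))) :=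
            mul_le_mul_of_nonneg_left h13 hpi.le
        _ = _ := by ring
    refine h12.trans ?_
    have h14 : 1 ≤ 2 * Real.pi * (1 + |v|) := by
      have := Real.pi_gt_three
      nlinarith [abs_nonneg v]
    nlinarith
  rw [h1]
  calc ‖Ai ((X : ℂ) ^ 2)‖ * ‖(Ai ((X : ℂ) ^ 2 + I * ((Real.sqrt X * |v| : ℝ) : ℂ)))⁻¹‖ ≤
      (1 / (2 * Real.pi) * Real.exp (-(2 / 3 * X ^ 3)) * Real.sqrt (Real.pi / X)) *
      (C * Real.sqrt (1 + ‖p‖) * Real.exp (2 / 3 * (a * (X ^ 2 - 2 * b ^ 2)))) :=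
        mul_le_mul (Ai_up hX) h3 (norm_nonneg _) (by positivity)
    _ = C * (1 / (2 * Real.pi)) * (Real.sqrt (Real.pi / X) * Real.sqrt (1 + ‖p‖)) *
      (Real.exp (-(2 / 3 * X ^ 3)) * Real.exp (2 / 3 * (a * (X ^ 2 - 2 * b ^ 2)))) := by ring
    _ ≤ C * (1 / (2 * Real.pi)) * (2 * Real.pi * (1 + |v|)) *
      (Real.exp (1 / 8) * Real.exp (-(|v| / 4))) := by
        refine mul_le_mul (mul_le_mul_of_nonneg_left h11 (by positivity)) ?_ (by positivity)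
          (by positivity)
        rw [← Real.exp_add, ← Real.exp_add]
        refine Real.exp_le_exp.2 ?_
        linarith
    _ = C * Real.exp (1 / 8) * (1 + |v|) * Real.exp (-(|v| / 4)) := by
        field_simp

end Pool.Agent.R748.CH
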