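import Pool.Agent.R748.CH.Stm
import Pool.Agent.H140R2.FR.T03Zeros

set_option autoImplicit false

open Complex MeasureTheory Set Filter Topology
open Pool.Agent.H140R2.FR (Ai Ai_ne_zero Ai_differentiable BB cA bR Ai_sq BB_ne_zero BB_expansion)

namespace Pool.Agent.R748.CH

/-- `BB q → 1` in the sector -/
theorem kerl_BB (q : ℝ → ℂ) (h1 : ∀ᶠ X in atTop, q X ≠ 0) (h2 : ∀ᶠ X in atTop, 1 / 2 * ‖q X‖ ≤ (q X).re)
    (h3 : Tendsto (fun X => ‖q X‖) atTop atTop) : Tendsto (fun X => BB (q X)) atTop (𝓝 1) := by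
  obtain ⟨C, hC⟩ := BB_expansion 1 (1 / 2) (by norm_num)
  have hz : Tendsto (fun X => C / ‖q X‖ ^ (3 * 1)) atTop (𝓝 0) := by
    apply Tendsto.div_atTop tendsto_const_nhds
    exact (tendsto_pow_atTop (by norm_num)).comp h3
  rw [tendsto_iff_norm_sub_tendsto_zero]
  refine squeeze_zero' (Eventually.of_forall fun X => norm_nonneg _) ?_ hz
  filter_upwards [h1, h2] with X h1 h2
  have h := hC (q X) h1 h2
  have e : ∑ j ∈ Finset.range 1, (((-1) ^ j * bR j / 576 ^ j : ℝ) : ℂ) * ((q X) ^ (3 * j))⁻¹ = 1 := by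
    simp [bR]
  rw [e] at h
  exact h

/-- `cA` in terms of `BB` for `p = X r` -/
theorem kerl_cA (X : ℝ) (hX : 0 < X) (r : ℂ) (hr : 0 < r.re) :
    cA (X : ℂ) / cA ((X : ℂ) * r) = BB (X : ℂ) / BB ((X : ℂ) * r) * r ^ ((1 : ℂ) / 2) := by
  have hpi := Real.pi_pos
  have hr0 : r ≠ 0 := by rintro rfl; simp at hr
  have hy : 0 < X / Real.pi := div_pos hX hpi
  have e1 : (X : ℂ) / (Real.pi : ℂ) = ((X / Real.pi : ℝ) : ℂ) := by push_cast; rfl
  have e2 : (X : ℂ) * r / (Real.pi : ℂ) = ((X / Real.pi : ℝ) : ℂ) * r := by push_cast; ring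
  have e3 : (((X / Real.pi : ℝ) : ℂ) * r) ^ ((1 : ℂ) / 2) =
      ((X / Real.pi : ℝ) : ℂ) ^ ((1 : ℂ) / 2) * r ^ ((1 : ℂ) / 2) := by
    have hy0 : ((X / Real.pi : ℝ) : ℂ) ≠ 0 := by exact_mod_cast hy.ne'
    rw [Complex.cpow_def_of_ne_zero (mul_ne_zero hy0 hr0), Complex.cpow_def_of_ne_zero hy0,
      Complex.cpow_def_of_ne_zero hr0, Complex.log_ofReal_mul hy hr0, ← Complex.exp_add,
      ← Complex.ofReal_log hy.le]
    congr 1
    ring
  have hA : ((X / Real.pi : ℝ) : ℂ) ^ ((1 : ℂ) / 2) ≠ 0 := by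
    rw [Ne, Complex.cpow_eq_zero_iff]
    rintro ⟨h, -⟩
    exact hy.ne' (by exact_mod_cast h)
  have hB : r ^ ((1 : ℂ) / 2) ≠ 0 := by
    rw [Ne, Complex.cpow_eq_zero_iff]
    rintro ⟨h, -⟩
    exact hr0 h
  have hpre : 0 < ((X : ℂ) * r).re := by
    rw [Complex.re_ofReal_mul]; exact mul_pos hX hr
  have hBB := BB_ne_zero ((X : ℂ) * r) hpre
  have f1 : BB (X : ℂ) = ((X / Real.pi : ℝ) : ℂ) ^ ((1 : ℂ) / 2) * cA (X : ℂ) := by
    unfold BB; rw [e1]
  have f2 : BB ((X : ℂ) * r) =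
      ((X / Real.pi : ℝ) : ℂ) ^ ((1 : ℂ) / 2) * r ^ ((1 : ℂ) / 2) * cA ((X : ℂ) * r) := by
    unfold BB; rw [e2, e3]
  have hcA : cA ((X : ℂ) * r) ≠ 0 := by
    intro h
    rw [f2, h, mul_zero] at hBB
    exact hBB rfl
  rw [f1, f2]
  field_simp

theorem kerl_id (X v : ℝ) (hX : 0 < X) (r : ℂ) (hr : 0 < r.re)
    (hr2 : r ^ 2 = 1 + I * ((v / (X * Real.sqrt X) : ℝ) : ℂ)) :
    HX X v = cA (X : ℂ) / cA ((X : ℂ) * r) *
      cexp ((((X * Real.sqrt X : ℝ) : ℂ) * (r - 1)) ^ 2 +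
        (2 / 3) * ((((X * Real.sqrt X : ℝ) : ℂ) * (r - 1)) ^ 3 * (((Real.sqrt X) ^ 3)⁻¹ : ℝ))) := by
  have hs : 0 < Real.sqrt X := Real.sqrt_pos.2 hX
  have hss : Real.sqrt X ^ 2 = X := Real.sq_sqrt hX.le
  have hsC : (Real.sqrt X : ℂ) ≠ 0 := by exact_mod_cast hs.ne'
  have hXC : (X : ℂ) ≠ 0 := by exact_mod_cast hX.ne'
  have hssC : (Real.sqrt X : ℂ) ^ 2 = (X : ℂ) := by exact_mod_cast hss
  have hpre : 0 < ((X : ℂ) * r).re := by
    rw [Complex.re_ofReal_mul]; exact mul_pos hX hr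
  have hp2 : (X : ℂ) ^ 2 + I * ((Real.sqrt X * v : ℝ) : ℂ) = ((X : ℂ) * r) ^ 2 := by
    rw [mul_pow, hr2]
    push_cast
    rw [mul_add, mul_one]
    congr 1
    field_simp
    rw [← hssC]; ring
  unfold HX
  rw [hp2, Ai_sq _ hpre, Ai_sq (X : ℂ) (by simpa using hX)]
  have hc : ((1 / (2 * Real.pi) : ℝ) : ℂ) ≠ 0 := by
    have := Real.pi_pos
    exact_mod_cast (by positivity : (1 / (2 * Real.pi) : ℝ) ≠ 0)
  have e1 : ((1 / (2 * Real.pi) : ℝ) : ℂ) * cexp (-(2 / 3) * (X : ℂ) ^ 3) * cA (X : ℂ) /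
      (((1 / (2 * Real.pi) : ℝ) : ℂ) * cexp (-(2 / 3) * ((X : ℂ) * r) ^ 3) * cA ((X : ℂ) * r)) =
      cA (X : ℂ) / cA ((X : ℂ) * r) *
        cexp (-(2 / 3) * (X : ℂ) ^ 3 - -(2 / 3) * ((X : ℂ) * r) ^ 3) := by
    rw [Complex.exp_sub]
    have hex := Complex.exp_ne_zero (-(2 / 3) * ((X : ℂ) * r) ^ 3)
    rw [mul_assoc, mul_assoc, mul_div_mul_left _ _ hc]
    rw [mul_div_mul_comm, mul_comm]
  rw [e1, mul_assoc, ← Complex.exp_add]
  congr 2
  -- the exponents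
  have h3 : I * ((v / (X * Real.sqrt X) : ℝ) : ℂ) = r ^ 2 - 1 := by rw [hr2]; ring
  have h4 : I * ((X * Real.sqrt X * v : ℝ) : ℂ) = (X : ℂ) ^ 3 * (r ^ 2 - 1) := by
    rw [← h3]
    push_cast
    field_simp
    rw [← hssC]
  rw [h4]
  push_cast
  have h5 : ((X : ℂ) * (Real.sqrt X : ℂ) * (r - 1)) ^ 2 = (X : ℂ) ^ 3 * (r - 1) ^ 2 := by
    rw [mul_pow, mul_pow, hssC]; ring
  have h6 : ((X : ℂ) * (Real.sqrt X : ℂ) * (r - 1)) ^ 3 * ((Real.sqrt X : ℂ) ^ 3)⁻¹ =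
      (X : ℂ) ^ 3 * (r - 1) ^ 3 := by
    field_simp
  rw [h5, h6]
  ring

theorem t_KERL : S_KERL := by
  intro v
  set w : ℝ → ℂ := fun X => 1 + I * ((v / (X * Real.sqrt X) : ℝ) : ℂ) with hw
  set r : ℝ → ℂ := fun X => (w X) ^ (((2 : ℕ) : ℂ)⁻¹) with hr
  have hXs : Tendsto (fun X : ℝ => X * Real.sqrt X) atTop atTop :=
    tendsto_id.atTop_mul_atTop₀ Real.tendsto_sqrt_atTop
  have hw1 : Tendsto w atTop (𝓝 1) := by
    have h1 : Tendsto (fun X : ℝ => v / (X * Real.sqrt X)) atTop (𝓝 0) :=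
      Tendsto.div_atTop tendsto_const_nhds hXs
    have h2 : Tendsto (fun X : ℝ => ((v / (X * Real.sqrt X) : ℝ) : ℂ)) atTop (𝓝 ((0 : ℝ) : ℂ)) :=
      (Complex.continuous_ofReal.tendsto 0).comp h1
    have h3 := (h2.const_mul I).const_add 1
    have e : (1 : ℂ) + I * ((0 : ℝ) : ℂ) = 1 := by simp
    rw [e] at h3
    exact h3
  have hr1 : Tendsto r atTop (𝓝 1) := by
    have h1 : ContinuousAt (fun z : ℂ => z ^ (((2 : ℕ) : ℂ)⁻¹)) 1 := by
      apply continuousAt_cpow_const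
      simp
    have h2 := h1.tendsto.comp hw1
    simp only [Complex.one_cpow] at h2
    exact h2
  have hr2 : ∀ X, r X ^ 2 = w X := by
    intro X
    exact Complex.cpow_nat_inv_pow (w X) (by norm_num)
  have hrre : Tendsto (fun X => (r X).re) atTop (𝓝 1) := by
    have h := (Complex.continuous_re.tendsto 1).comp hr1
    rw [Complex.one_re] at h
    exact h
  have hrn : Tendsto (fun X => ‖r X‖) atTop (𝓝 1) := by
    have := hr1.norm
    simpa using this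
  have ev1 : ∀ᶠ X in atTop, 3 / 4 < (r X).re := hrre.eventually (lt_mem_nhds (by norm_num))
  have ev2 : ∀ᶠ X in atTop, ‖r X‖ < 3 / 2 := hrn.eventually (gt_mem_nhds (by norm_num))
  have ev0 : ∀ᶠ X : ℝ in atTop, 0 < X := eventually_gt_atTop 0
  have hE : Tendsto (fun X : ℝ => ((X * Real.sqrt X : ℝ) : ℂ) * (r X - 1)) atTop (𝓝 (I * v / 2)) := by
    have h1 : Tendsto (fun X => I * v / (r X + 1)) atTop (𝓝 (I * v / (1 + 1))) := by
      apply Tendsto.div tendsto_const_nhds (hr1.add_const 1)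
      norm_num
    have e : I * (v : ℂ) / (1 + 1) = I * v / 2 := by norm_num
    rw [e] at h1
    refine h1.congr' ?_
    filter_upwards [ev0, ev1] with X hX0 hX1
    have hs : 0 < Real.sqrt X := Real.sqrt_pos.2 hX0
    have hne : r X + 1 ≠ 0 := by
      intro h
      have := congrArg Complex.re h
      simp at this
      linarith
    have h2 : (r X - 1) * (r X + 1) = I * ((v / (X * Real.sqrt X) : ℝ) : ℂ) := by
      have := hr2 X
      have e : (r X - 1) * (r X + 1) = r X ^ 2 - 1 := by ring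
      rw [e, this, hw]
      ring
    rw [div_eq_iff hne, mul_assoc, h2]
    have hXC : (X : ℂ) ≠ 0 := by exact_mod_cast hX0.ne'
    have hsC : (Real.sqrt X : ℂ) ≠ 0 := by exact_mod_cast hs.ne'
    push_cast
    field_simp
  have hS : Tendsto (fun X : ℝ => ((((Real.sqrt X) ^ 3)⁻¹ : ℝ) : ℂ)) atTop (𝓝 0) := by
    have h1 : Tendsto (fun X : ℝ => ((Real.sqrt X) ^ 3)⁻¹) atTop (𝓝 0) :=
      tendsto_inv_atTop_zero.comp ((tendsto_pow_atTop (by norm_num)).comp Real.tendsto_sqrt_atTop)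
    have h2 := (Complex.continuous_ofReal.tendsto 0).comp h1
    rw [Complex.ofReal_zero] at h2
    exact h2
  have hexp : Tendsto (fun X : ℝ => cexp ((((X * Real.sqrt X : ℝ) : ℂ) * (r X - 1)) ^ 2 +
        (2 / 3) * ((((X * Real.sqrt X : ℝ) : ℂ) * (r X - 1)) ^ 3 * (((Real.sqrt X) ^ 3)⁻¹ : ℝ))))
      atTop (𝓝 (cexp (-((v : ℂ) ^ 2) / 4))) := by
    have h1 := (hE.pow 2).add (((hE.pow 3).mul hS).const_mul (2 / 3))
    have e : (I * (v : ℂ) / 2) ^ 2 + 2 / 3 * ((I * (v : ℂ) / 2) ^ 3 * 0) = -((v : ℂ) ^ 2) / 4 := by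
      rw [div_pow, mul_pow, Complex.I_sq]
      ring
    rw [e] at h1
    exact (Complex.continuous_exp.tendsto _).comp h1
  have hBX : Tendsto (fun X : ℝ => BB (X : ℂ)) atTop (𝓝 1) := by
    apply kerl_BB
    · filter_upwards [ev0] with X hX
      exact_mod_cast hX.ne'
    · filter_upwards [ev0] with X hX
      rw [Complex.norm_real, Complex.ofReal_re, Real.norm_eq_abs, abs_of_pos hX]
      linarith
    · have : (fun X : ℝ => ‖(X : ℂ)‖) = fun X => |X| := by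
        ext X; rw [Complex.norm_real, Real.norm_eq_abs]
      rw [this]
      exact tendsto_abs_atTop_atTop
  have hBp : Tendsto (fun X : ℝ => BB ((X : ℂ) * r X)) atTop (𝓝 1) := by
    apply kerl_BB
    · filter_upwards [ev0, ev1] with X hX h1
      apply mul_ne_zero
      · exact_mod_cast hX.ne'
      · intro h
        rw [h] at h1
        simp at h1
        linarith
    · filter_upwards [ev0, ev1, ev2] with X hX h1 h2
      rw [norm_mul, Complex.norm_real, Real.norm_eq_abs, abs_of_pos hX, Complex.re_ofReal_mul]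
      nlinarith
    · have h1 : Tendsto (fun X : ℝ => X * ‖r X‖) atTop atTop :=
        tendsto_id.atTop_mul_pos one_pos hrn
      refine h1.congr' ?_
      filter_upwards [ev0] with X hX
      rw [norm_mul, Complex.norm_real, Real.norm_eq_abs, abs_of_pos hX]
  have hrt : Tendsto (fun X => (r X) ^ ((1 : ℂ) / 2)) atTop (𝓝 1) := by
    have h1 : ContinuousAt (fun z : ℂ => z ^ ((1 : ℂ) / 2)) 1 := by
      apply continuousAt_cpow_const
      simp
    have h2 := h1.tendsto.comp hr1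
    simp only [Complex.one_cpow] at h2
    exact h2
  have hfin := (((hBX.div hBp one_ne_zero).mul hrt).mul hexp)
  have e1 : (1 : ℂ) / 1 * 1 * cexp (-((v : ℂ) ^ 2) / 4) = cexp (-((v : ℂ) ^ 2) / 4) := by ring
  rw [e1] at hfin
  refine hfin.congr' ?_
  filter_upwards [ev0, ev1] with X hX h1
  have hrp : 0 < (r X).re := by linarith
  rw [kerl_id X v hX (r X) hrp (hr2 X), kerl_cA X hX (r X) hrp]
  rfl

end Pool.Agent.R748.CH
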