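import Pool.Agent.R748.CH.Stm

set_option autoImplicit false

open Complex MeasureTheory Set Filter Topology

namespace Pool.Agent.R748.CH

theorem t_LEMA : S_LEMA := by
  intro M m m1 m2 hM hm hm1 hpos hlc hlim
  have hMmono : StrictMono M :=
    strictMono_of_deriv_pos (fun x => by rw [(hM x).deriv]; exact hpos x)
  have hMpos : ∀ x, 0 < M x := by
    intro x
    have h1 : 0 ≤ M (x - 1) := by
      apply le_of_tendsto hlim
      filter_upwards [eventually_le_atBot (x - 1)] with s hs using hMmono.monotone hs
    exact lt_of_le_of_lt h1 (hMmono (by linarith))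
  have hψ : Antitone (fun x => m1 x / m x) := by
    have hd : ∀ x, HasDerivAt (fun x => m1 x / m x) ((m2 x * m x - m1 x * m1 x) / m x ^ 2) x :=
      fun x => (hm1 x).div (hm x) (hpos x).ne'
    apply antitone_of_deriv_nonpos
    · intro x
      exact (hd x).differentiableAt
    · intro x
      rw [(hd x).deriv]
      apply div_nonpos_of_nonpos_of_nonneg _ (sq_nonneg _)
      nlinarith [hlc x]
  have key : ∀ x, 0 < m1 x → ∀ c, c = m1 x / m x → ∀ s ≤ x, 0 ≤ m s - c * M s ∧
      m s - c * M s ≤ m x - c * M x := by
    intro x hx c hc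
    have hc0 : 0 < c := by rw [hc]; exact div_pos hx (hpos x)
    have hD : ∀ s, HasDerivAt (fun s => m s - c * M s) (m1 s - c * m s) s := fun s =>
      (hm s).sub ((hM s).const_mul c)
    have hmono : MonotoneOn (fun s => m s - c * M s) (Set.Iic x) := by
      apply monotoneOn_of_deriv_nonneg (convex_Iic x)
      · exact fun s _ => (hD s).continuousAt.continuousWithinAt
      · exact fun s _ => (hD s).differentiableAt.differentiableWithinAt
      · intro s hs
        rw [interior_Iic] at hs
        rw [(hD s).deriv]
        have h1 : c ≤ m1 s / m s := by rw [hc]; exact hψ (le_of_lt hs)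
        rw [le_div_iff₀ (hpos s)] at h1
        linarith
    intro s hs
    refine ⟨?_, hmono hs (Set.mem_Iic.2 le_rfl) hs⟩
    have hl : Tendsto (fun r => -(c * M r)) atBot (𝓝 0) := by
      simpa using (hlim.const_mul c).neg
    apply le_of_tendsto hl
    filter_upwards [eventually_le_atBot s] with r hr
    have h1 : m r - c * M r ≤ m s - c * M s :=
      hmono (Set.mem_Iic.2 (hr.trans hs)) (Set.mem_Iic.2 hs) hr
    have h2 := hpos r
    linarith
  have hineq : ∀ x, M x * m1 x ≤ m x ^ 2 := by
    intro x
    rcases le_or_gt (m1 x) 0 with h | h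
    · have h1 := mul_nonneg (hMpos x).le (sub_nonneg.2 h)
      nlinarith [hpos x, sq_nonneg (m x)]
    · have h1 := (key x h _ rfl x le_rfl).1
      have h2 : m1 x / m x * M x ≤ m x := by linarith
      have h3 : m1 x / m x * M x * m x ≤ m x * m x :=
        mul_le_mul_of_nonneg_right h2 (hpos x).le
      have h4 : m1 x / m x * M x * m x = M x * m1 x := by
        have := (hpos x).ne'
        field_simp
      rw [h4] at h3
      nlinarith
  refine ⟨hMpos, hineq, fun hfast x => lt_of_le_of_ne (hineq x) fun heq => ?_⟩
  have hx : 0 < m1 x := by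
    by_contra hneg
    have h1 := mul_nonneg (hMpos x).le (sub_nonneg.2 (not_lt.1 hneg))
    have h2 := pow_pos (hpos x) 2
    nlinarith
  obtain ⟨c, hc⟩ : ∃ c, c = m1 x / m x := ⟨_, rfl⟩
  have hc0 : 0 < c := by rw [hc]; exact div_pos hx (hpos x)
  have hDx : m x - c * M x = 0 := by
    have h1 : c * m x = m1 x := by rw [hc]; exact div_mul_cancel₀ _ (hpos x).ne'
    have h2 : m x * (m x - c * M x) = 0 := by
      have : m x * (m x - c * M x) = m x ^ 2 - M x * (c * m x) := by ring
      rw [this, h1, heq, sub_self]
    rcases mul_eq_zero.1 h2 with h3 | h3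
    · exact absurd h3 (hpos x).ne'
    · exact h3
  have hD0 : ∀ s ≤ x, m s = c * M s := by
    intro s hs
    obtain ⟨h1, h2⟩ := key x hx c hc s hs
    linarith
  have hF : ∀ t, HasDerivAt (fun t => Real.exp (-(c * t)) * M t)
      (Real.exp (-(c * t)) * (-c) * M t + Real.exp (-(c * t)) * m t) t := by
    intro t
    have h1 : HasDerivAt (fun t => -(c * t)) (-(c * 1)) t := ((hasDerivAt_id' t).const_mul c).neg
    rw [mul_one] at h1
    exact (h1.exp).mul (hM t)
  have hconst : ∀ s ≤ x, Real.exp (-(c * s)) * M s = Real.exp (-(c * x)) * M x := by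
    intro s hs
    have h4 := constant_of_has_deriv_right_zero (f := fun t => Real.exp (-(c * t)) * M t)
      (a := s) (b := x) (fun t _ => (hF t).continuousAt.continuousWithinAt) (fun t ht => by
        have h2 := (hF t).hasDerivWithinAt (s := Set.Ici t)
        have h3 : Real.exp (-(c * t)) * (-c) * M t + Real.exp (-(c * t)) * m t = 0 := by
          rw [hD0 t ht.2.le]; ring
        rwa [h3] at h2) x (Set.right_mem_Icc.2 hs)
    exact h4.symm
  have h5 := hfast c hc0
  have h6 : Tendsto (fun s => Real.exp (-(c * s)) * m s) atBot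
      (𝓝 (c * (Real.exp (-(c * x)) * M x))) := by
    apply tendsto_const_nhds.congr'
    filter_upwards [eventually_le_atBot x] with s hs
    rw [hD0 s hs, ← hconst s hs]; ring
  have h7 := tendsto_nhds_unique h5 h6
  have h8 : 0 < c * (Real.exp (-(c * x)) * M x) :=
    mul_pos hc0 (mul_pos (Real.exp_pos _) (hMpos x))
  linarith

end Pool.Agent.R748.CH
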