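import Pool.Agent.R748.CH.Stm

set_option autoImplicit false

open Complex MeasureTheory Set Filter Topology

namespace Pool.Agent.R748.CH

theorem mid_aux {f f1 f2 : ℝ → ℝ} (h0 : ∀ x, HasDerivAt f (f1 x) x)
    (h1 : ∀ x, HasDerivAt f1 (f2 x) x) (hpos : ∀ x, 0 < f x)
    (hlc : ∀ x, f x * f2 x ≤ f1 x ^ 2) (x y : ℝ) : f x * f y ≤ f ((x + y) / 2) ^ 2 := by
  have hg : ∀ x, HasDerivAt (fun x => Real.log (f x)) (f1 x / f x) x := fun x =>
    (h0 x).log (hpos x).ne'
  have hg2 : ∀ x, HasDerivAt (fun x => f1 x / f x) ((f2 x * f x - f1 x * f1 x) / f x ^ 2) x :=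
    fun x => (h1 x).div (h0 x) (hpos x).ne'
  have hc : ConcaveOn ℝ Set.univ (fun x => Real.log (f x)) := by
    apply concaveOn_of_hasDerivWithinAt2_nonpos (f' := fun x => f1 x / f x)
      (f'' := fun x => (f2 x * f x - f1 x * f1 x) / f x ^ 2) convex_univ
    · exact fun x _ => (hg x).continuousAt.continuousWithinAt
    · exact fun x _ => (hg x).hasDerivWithinAt
    · exact fun x _ => (hg2 x).hasDerivWithinAt
    · intro x _
      apply div_nonpos_of_nonpos_of_nonneg _ (sq_nonneg _)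
      nlinarith [hlc x]
  have h2 := hc.2 (Set.mem_univ x) (Set.mem_univ y) (by norm_num : (0 : ℝ) ≤ 1 / 2)
    (by norm_num : (0 : ℝ) ≤ 1 / 2) (by norm_num)
  simp only [smul_eq_mul] at h2
  have h3 : (1 / 2 : ℝ) * x + 1 / 2 * y = (x + y) / 2 := by ring
  rw [h3] at h2
  have e1 : f x * f y = Real.exp (Real.log (f x) + Real.log (f y)) := by
    rw [Real.exp_add, Real.exp_log (hpos x), Real.exp_log (hpos y)]
  have e2 : f ((x + y) / 2) ^ 2 = Real.exp (2 * Real.log (f ((x + y) / 2))) := by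
    rw [two_mul, Real.exp_add, Real.exp_log (hpos _), sq]
  rw [e1, e2]
  apply Real.exp_le_exp.2
  linarith

theorem t_MID (h : S_TR) : S_MID := by
  intro φ hφ x y
  exact mid_aux (f := RT φ 0) (f1 := RT φ 1) (f2 := RT φ 2) (h φ hφ.toMom 0).1
    (h φ hφ.toMom 1).1 hφ.pos hφ.lc x y

end Pool.Agent.R748.CH
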