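import Pool.Agent.R748.CH.Stm
import Pool.Agent.H140R2.FR.T03Zeros

set_option autoImplicit false

open Complex MeasureTheory Set Filter Topology Polynomial
open Pool.Agent.H140R2.FR (Ai)

namespace Pool.Agent.R748.CH

namespace PhAux

theorem exp_int : Integrable (fun x : ℝ => Real.exp (-|x|)) := by
  have h1 : IntegrableOn (fun x : ℝ => Real.exp (-|x|)) (Ioi 0) := by
    refine (exp_neg_integrableOn_Ioi 0 (b := 1) one_pos).congr_fun ?_ measurableSet_Ioi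
    intro x hx
    have : (0 : ℝ) < x := hx
    simp [abs_of_pos this]
  have h2 : IntegrableOn (fun x : ℝ => Real.exp (-|x|)) (Iic 0) := by
    refine (integrableOn_exp_Iic 0).congr_fun ?_ measurableSet_Iic
    intro x hx
    have : x ≤ (0 : ℝ) := hx
    simp [abs_of_nonpos this]
  have := h2.union h1
  rwa [Iic_union_Ioi, integrableOn_univ] at this

theorem pow_le (j : ℕ) (y : ℝ) (hy : 0 ≤ y) : y ^ j ≤ (j.factorial : ℝ) * Real.exp y := by
  have h := Real.pow_div_factorial_le_exp y hy j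
  rwa [div_le_iff₀ (by positivity), mul_comm] at h

theorem mom_of (φ : ℝ → ℂ) (hφ : Continuous φ) (C : ℝ)
    (hC : ∀ ω : ℝ, ‖φ ω‖ ≤ C * Real.exp (-(2 * |ω|))) (j : ℕ) :
    Integrable (fun ω : ℝ => |ω| ^ j * ‖φ ω‖) := by
  have hcont : Continuous (fun ω : ℝ => |ω| ^ j * ‖φ ω‖) :=
    (continuous_abs.pow j).mul hφ.norm
  refine (exp_int.const_mul ((j.factorial : ℝ) * C)).mono' hcont.aestronglyMeasurable
    (Filter.Eventually.of_forall fun ω => ?_)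
  rw [Real.norm_of_nonneg (by positivity)]
  have e5 : Real.exp (-(2 * |ω|)) = Real.exp (-|ω|) * Real.exp (-|ω|) := by
    rw [← Real.exp_add]; congr 1; ring
  have e6 : Real.exp |ω| * Real.exp (-|ω|) = 1 := by
    rw [← Real.exp_add]; simp
  calc |ω| ^ j * ‖φ ω‖ ≤ ((j.factorial : ℝ) * Real.exp |ω|) * (C * Real.exp (-(2 * |ω|))) := by
        have h1 := pow_le j |ω| (abs_nonneg ω)
        have h2 := hC ω
        gcongr
    _ = (j.factorial : ℝ) * C * Real.exp (-|ω|) * (Real.exp |ω| * Real.exp (-|ω|)) := by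
        rw [e5]; ring
    _ = _ := by rw [e6, mul_one]

theorem Ai_I_ne (ω : ℝ) : Ai (I * (ω : ℂ)) ≠ 0 :=
  Pool.Agent.H140R2.FR.Ai_ne_zero _ (Or.inr (by simp))

theorem ph0_cont : Continuous ph0 := by
  have h1 : Continuous fun ω : ℝ => Ai (I * (ω : ℂ)) :=
    Pool.Agent.H140R2.FR.Ai_differentiable.continuous.comp (by fun_prop)
  exact h1.inv₀ Ai_I_ne

theorem ph0_decay (hD : S_DECAY) (A : ℝ) : ∃ C : ℝ, 0 < C ∧ ∀ ω : ℝ,
    ‖ph0 ω‖ ≤ C * Real.exp (-(A * |ω|)) := by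
  obtain ⟨C, hC0, hC⟩ := hD 0 |A| le_rfl (abs_nonneg A)
  refine ⟨C, hC0, fun ω => ?_⟩
  have h1 := hC 0 ω le_rfl le_rfl
  rw [Complex.ofReal_zero, zero_add] at h1
  refine (show ‖ph0 ω‖ ≤ _ from h1).trans ?_
  have h2 : A * |ω| ≤ |A| * |ω| := mul_le_mul_of_nonneg_right (le_abs_self A) (abs_nonneg ω)
  have h3 : Real.exp (-(|A| * |ω|)) ≤ Real.exp (-(A * |ω|)) := Real.exp_le_exp.2 (by linarith)
  exact mul_le_mul_of_nonneg_left h3 hC0.le

theorem conj_Iw (ω : ℝ) : (starRingEnd ℂ) (I * (ω : ℂ)) = I * ((-ω : ℝ) : ℂ) := by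
  rw [map_mul, Complex.conj_I, Complex.conj_ofReal]
  push_cast
  ring

theorem ph0_sym (ω : ℝ) : ph0 (-ω) = (starRingEnd ℂ) (ph0 ω) := by
  unfold ph0
  rw [map_inv₀, ← Pool.Agent.H140R2.FR.Ai_conj, conj_Iw]

theorem Ai0 : 0 < (Ai 0).re ∧ (Ai 0).im = 0 := by
  constructor
  · obtain ⟨z₁, hz₁, _, _, hpos, _⟩ := Pool.Agent.H140R2.FR.exists_first_zero
    have := hpos 0 hz₁
    rwa [Complex.ofReal_zero] at this
  · have h := Pool.Agent.H140R2.FR.Ai_conj 0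
    rw [map_zero] at h
    exact Complex.conj_eq_iff_im.1 h.symm

end PhAux

open PhAux in
theorem t_PH (hD : S_DECAY) (hF : S_FDEF) (hT : S_TR) : S_PH := by
  have hmom0 : Mom ph0 := by
    obtain ⟨C, _, hC⟩ := ph0_decay hD 2
    exact ⟨ph0_cont, mom_of ph0 ph0_cont C hC, ph0_sym⟩
  refine ⟨hmom0, ?_⟩
  intro a ha hz
  have hac : (a : ℂ) ≠ 0 := by exact_mod_cast ha.ne'
  have hA0 : Ai 0 ≠ 0 := by
    intro h
    have := Ai0.1
    rw [h] at this
    simp at this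
  obtain ⟨_, _, hFa, _, _, _⟩ := hF a ha hz
  have hform : ∀ ω : ℝ, ph1 a ω = Ai 0 * ((1 + I * (ω : ℂ) / (a : ℂ)) * ph0 ω) := by
    intro ω
    have h1 := hFa (I * (ω : ℂ))
    have h2 : Ai (I * (ω : ℂ)) / Ai 0 ≠ 0 := div_ne_zero (Ai_I_ne ω) hA0
    have h3 : Fa a (I * (ω : ℂ)) ≠ 0 := by
      intro h0
      rw [h0, mul_zero] at h1
      exact h2 h1.symm
    have h4 := Ai_I_ne ω
    unfold ph1 ph0
    have h5 : Ai (I * (ω : ℂ)) = Ai 0 * ((1 + I * (ω : ℂ) / (a : ℂ)) * Fa a (I * (ω : ℂ))) := by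
      rw [h1]
      field_simp
    have h6 : Ai 0 * ((1 + I * (ω : ℂ) / (a : ℂ)) * (Ai (I * (ω : ℂ)))⁻¹) *
        Fa a (I * (ω : ℂ)) = 1 := by
      have h7 : Ai 0 * ((1 + I * (ω : ℂ) / (a : ℂ)) * (Ai (I * (ω : ℂ)))⁻¹) *
        Fa a (I * (ω : ℂ)) = (Ai (I * (ω : ℂ)))⁻¹ *
          (Ai 0 * ((1 + I * (ω : ℂ) / (a : ℂ)) * Fa a (I * (ω : ℂ)))) := by ring
      rw [h7, ← h5]
      exact inv_mul_cancel₀ h4
    exact inv_eq_of_mul_eq_one_left h6
  have hcont : Continuous (ph1 a) := by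
    have h1 : ph1 a = fun ω : ℝ => Ai 0 * ((1 + I * (ω : ℂ) / (a : ℂ)) * ph0 ω) := funext hform
    rw [h1]
    have := ph0_cont
    fun_prop
  have hdecay : ∀ A : ℝ, ∃ C : ℝ, ∀ ω : ℝ, ‖ph1 a ω‖ ≤ C * Real.exp (-(A * |ω|)) := by
    intro A
    obtain ⟨C, hC0, hC⟩ := ph0_decay hD (A + 1)
    refine ⟨‖Ai 0‖ * ((1 + 1 / a) * C), fun ω => ?_⟩
    rw [hform ω, norm_mul, norm_mul]
    have e1 : ‖1 + I * (ω : ℂ) / (a : ℂ)‖ ≤ (1 + 1 / a) * Real.exp |ω| := by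
      refine (norm_add_le _ _).trans ?_
      rw [norm_one, norm_div, norm_mul, Complex.norm_I, one_mul, Complex.norm_real,
        Complex.norm_real, Real.norm_of_nonneg ha.le, Real.norm_eq_abs]
      have h1 : |ω| ≤ Real.exp |ω| := by
        have := Real.add_one_le_exp |ω|
        linarith
      have h2 : 1 ≤ Real.exp |ω| := Real.one_le_exp (abs_nonneg ω)
      have h3 : |ω| / a ≤ 1 / a * Real.exp |ω| := by
        rw [div_eq_inv_mul, one_div]
        gcongr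
      rw [add_mul, one_mul]
      exact add_le_add h2 h3
    have e2 : Real.exp (-((A + 1) * |ω|)) = Real.exp (-(A * |ω|)) * Real.exp (-|ω|) := by
      rw [← Real.exp_add]; congr 1; ring
    have e3 : Real.exp |ω| * Real.exp (-|ω|) = 1 := by
      rw [← Real.exp_add]; simp
    calc ‖Ai 0‖ * (‖1 + I * (ω : ℂ) / (a : ℂ)‖ * ‖ph0 ω‖)
        ≤ ‖Ai 0‖ * (((1 + 1 / a) * Real.exp |ω|) * (C * Real.exp (-((A + 1) * |ω|)))) := by
          have h2 := hC ω
          gcongr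
      _ = ‖Ai 0‖ * ((1 + 1 / a) * C) * Real.exp (-(A * |ω|)) *
          (Real.exp |ω| * Real.exp (-|ω|)) := by rw [e2]; ring
      _ = _ := by rw [e3, mul_one]
  refine ⟨⟨hcont, ?_, ?_⟩, hdecay, hform, Ai0, ?_⟩
  · intro j
    obtain ⟨C, hC⟩ := hdecay 2
    exact mom_of (ph1 a) hcont C hC j
  · intro ω
    rw [hform, hform, map_mul, map_mul, map_add, map_one, map_div₀, conj_Iw,
      Complex.conj_ofReal, ← ph0_sym, Complex.conj_eq_iff_im.2 Ai0.2]
  · intro j x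
    obtain ⟨_, _, _, hi0, _⟩ := hT ph0 hmom0 j
    obtain ⟨_, _, _, hi1, _⟩ := hT ph0 hmom0 (j + 1)
    have hAr : Ai 0 = (((Ai 0).re : ℝ) : ℂ) := by
      apply Complex.ext
      · simp
      · simp [Ai0.2]
    have hTr : Tr (ph1 a) j x = Ai 0 * (Tr ph0 j x + Tr ph0 (j + 1) x / (a : ℂ)) := by
      unfold Tr
      rw [← integral_div, ← integral_add (hi0 x) ((hi1 x).div_const _), ← integral_const_mul]
      congr 1
      funext ω
      rw [hform ω]
      ring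
    unfold RT
    rw [hTr]
    have h9 : (Ai 0 * (Tr ph0 j x + Tr ph0 (j + 1) x / (a : ℂ))).re =
        (Ai 0).re * (Tr ph0 j x + Tr ph0 (j + 1) x / (a : ℂ)).re := by
      conv_lhs => rw [hAr]
      rw [Complex.re_ofReal_mul]
    rw [h9, Complex.add_re, Complex.div_ofReal_re]

end Pool.Agent.R748.CH
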