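import Pool.Agent.R748.CH.Stm

set_option autoImplicit false

open Complex MeasureTheory Set Filter Topology Polynomial

namespace Pool.Agent.R748.CH

theorem poly_aux (h : S_CLOSE) : ∀ n : ℕ, ∀ Q : ℂ[X], Q.natDegree = n →
    (∀ w, Q.IsRoot w → w.im = 0) → Q.eval 0 ≠ 0 → ∀ φ : ℝ → ℂ, LC φ →
    (∀ ω : ℝ, ‖Q.eval 0‖ ≤ ‖Q.eval (I * (ω : ℂ))‖) ∧
    LC (fun ω : ℝ => φ ω * (Q.eval 0 / Q.eval (I * (ω : ℂ)))) := by
  intro n
  induction n with
  | zero =>
    intro Q hQ _ h0 φ hφ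
    rw [Polynomial.natDegree_eq_zero] at hQ
    obtain ⟨a, rfl⟩ := hQ
    simp only [Polynomial.eval_C] at h0 ⊢
    refine ⟨fun _ => le_rfl, ?_⟩
    have : (fun ω : ℝ => φ ω * (a / a)) = φ := by
      funext ω
      rw [div_self h0, mul_one]
    rw [this]
    exact hφ
  | succ n ih =>
    intro Q hQ hr h0 φ hφ
    obtain ⟨r, hr0⟩ := Complex.exists_root (f := Q)
      (Polynomial.natDegree_pos_iff_degree_pos.1 (by omega))
    obtain ⟨x, rfl⟩ : ∃ x : ℝ, r = (x : ℂ) :=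
      ⟨r.re, Complex.ext (by simp) (by simp [hr r hr0])⟩
    obtain ⟨Q', rfl⟩ := Polynomial.dvd_iff_isRoot.2 hr0
    have hQ'0 : Q' ≠ 0 := by
      rintro rfl
      simp at h0
    have hdeg : Q'.natDegree = n := by
      rw [Polynomial.natDegree_mul (Polynomial.X_sub_C_ne_zero _) hQ'0,
        Polynomial.natDegree_X_sub_C] at hQ
      omega
    have hr' : ∀ w, Q'.IsRoot w → w.im = 0 := by
      intro w hw
      apply hr w
      rw [Polynomial.IsRoot.def] at hw ⊢
      rw [Polynomial.eval_mul, hw, mul_zero]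
    simp only [Polynomial.eval_mul, Polynomial.eval_sub, Polynomial.eval_X,
      Polynomial.eval_C] at h0 ⊢
    have h0' : Q'.eval 0 ≠ 0 := right_ne_zero_of_mul h0
    have hxc : (x : ℂ) ≠ 0 := by
      intro hx
      rw [hx] at h0
      simp at h0
    have hx : x ≠ 0 := fun hx => hxc (by rw [hx]; simp)
    obtain ⟨i1, i2⟩ := ih Q' hdeg hr' h0' φ hφ
    refine ⟨fun ω => ?_, ?_⟩
    · rw [norm_mul, norm_mul]
      refine mul_le_mul ?_ (i1 ω) (norm_nonneg _) (norm_nonneg _)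
      have e : ‖(0 : ℂ) - (x : ℂ)‖ = |x| := by
        rw [zero_sub, norm_neg, Complex.norm_real, Real.norm_eq_abs]
      rw [e]
      have h2 := Complex.abs_re_le_norm (I * (ω : ℂ) - (x : ℂ))
      have h3 : (I * (ω : ℂ) - (x : ℂ)).re = -x := by simp
      rw [h3, abs_neg] at h2
      exact h2
    · have h5 := h _ i2 (-x) (neg_ne_zero.2 hx)
      have e : (fun ω : ℝ => φ ω * ((0 - (x : ℂ)) * Q'.eval 0 /
          ((I * (ω : ℂ) - (x : ℂ)) * Q'.eval (I * (ω : ℂ))))) =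
          fun ω : ℝ => φ ω * (Q'.eval 0 / Q'.eval (I * (ω : ℂ))) /
            (1 + I * (ω : ℂ) / ((-x : ℝ) : ℂ)) := by
        funext ω
        have h1 : I * (ω : ℂ) - x = (-(x : ℂ)) * (1 + I * (ω : ℂ) / ((-x : ℝ) : ℂ)) := by
          push_cast
          field_simp
          ring
        rw [h1, zero_sub, mul_assoc, mul_div_mul_left _ _ (neg_ne_zero.2 hxc),
          mul_div_assoc (φ ω), div_div, mul_comm (eval (I * (ω : ℂ)) Q')]
      rw [e]
      exact h5

theorem t_POLY (h : S_CLOSE) : S_POLY := by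
  intro φ hφ Q hr h0
  exact poly_aux h _ Q rfl hr h0 φ hφ

end Pool.Agent.R748.CH
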