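import Pool.Agent.R748.CH.Stm

set_option autoImplicit false

/-! Project CH: piece POS. -/

open Filter Topology

namespace Pool.Agent.R748.CH

theorem t_POS : S_POS := by
  intro f hf hnn hlc ⟨y, hy⟩ x
  rcases (hnn x).lt_or_eq with h | h
  · exact h
  exfalso
  -- `f` does not vanish near `x`
  rcases (hf x (Set.mem_univ x)).eventually_eq_zero_or_eventually_ne_zero with h1 | h1
  · have h2 : Set.EqOn f 0 Set.univ :=
      hf.eqOn_zero_of_preconnected_of_eventuallyEq_zero isPreconnected_univ (Set.mem_univ x) h1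
    exact hy (h2 (Set.mem_univ y))
  · rw [eventually_nhdsWithin_iff, Metric.eventually_nhds_iff] at h1
    obtain ⟨ε, hε, h1⟩ := h1
    have e1 := h1 (y := x - ε / 2) (by
      rw [Real.dist_eq]; rw [show x - ε / 2 - x = -(ε / 2) by ring, abs_neg, abs_of_pos]
      · linarith
      · linarith) (by
      intro h; rw [Set.mem_singleton_iff] at h; linarith)
    have e2 := h1 (y := x + ε / 2) (by
      rw [Real.dist_eq]; rw [show x + ε / 2 - x = ε / 2 by ring, abs_of_pos]
      · linarith
      · linarith) (by
      intro h; rw [Set.mem_singleton_iff] at h; linarith)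
    have h3 := hlc (x - ε / 2) (x + ε / 2)
    rw [show (x - ε / 2 + (x + ε / 2)) / 2 = x by ring, ← h] at h3
    have h4 : 0 < f (x - ε / 2) := lt_of_le_of_ne (hnn _) (Ne.symm e1)
    have h5 : 0 < f (x + ε / 2) := lt_of_le_of_ne (hnn _) (Ne.symm e2)
    have := mul_pos h4 h5
    linarith

end Pool.Agent.R748.CH
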