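import Pool.Agent.R748.CH.Stm

set_option autoImplicit false

open Complex MeasureTheory Set Filter Topology Polynomial
open Pool.Agent.H140R2.FR (Ai)

namespace Pool.Agent.R748.CH

theorem t_SCALE : S_SCALE := by
  intro t
  have hki : (2 : ℝ) ^ (-((1 : ℝ) / 3)) = ((2 : ℝ) ^ ((1 : ℝ) / 3))⁻¹ :=
    Real.rpow_neg zero_le_two _
  have hk2 : (2 : ℝ) ^ ((2 : ℝ) / 3) = (2 : ℝ) ^ ((1 : ℝ) / 3) * (2 : ℝ) ^ ((1 : ℝ) / 3) := by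
    rw [← Real.rpow_add zero_lt_two]; norm_num
  have hk0 : (0 : ℝ) < (2 : ℝ) ^ ((1 : ℝ) / 3) := Real.rpow_pos_of_pos zero_lt_two _
  unfold gG Tr
  rw [hki, hk2]
  generalize (2 : ℝ) ^ ((1 : ℝ) / 3) = k at hk0 ⊢
  have h := MeasureTheory.Measure.integral_comp_mul_left
    (fun l : ℝ => cexp (-(I * (l : ℂ) * (t : ℂ))) *
      ((k : ℂ) / Ai (I * ((k⁻¹ * l : ℝ) : ℂ)))) k
  have h2 : (fun ω : ℝ => cexp (-(I * ((k * ω : ℝ) : ℂ) * (t : ℂ))) *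
      ((k : ℂ) / Ai (I * ((k⁻¹ * (k * ω) : ℝ) : ℂ)))) =
      fun ω : ℝ => (k : ℂ) * ((I * (ω : ℂ)) ^ 0 *
        cexp (I * (ω : ℂ) * ((-(k * t) : ℝ) : ℂ)) * ph0 ω) := by
    funext ω
    have e1 : k⁻¹ * (k * ω) = ω := by
      rw [← mul_assoc, inv_mul_cancel₀ hk0.ne', one_mul]
    rw [e1, pow_zero, one_mul, ph0]
    have e2 : -(I * ((k * ω : ℝ) : ℂ) * (t : ℂ)) = I * (ω : ℂ) * ((-(k * t) : ℝ) : ℂ) := by
      push_cast; ring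
    rw [e2, div_eq_mul_inv]; ring
  rw [h2, integral_const_mul, abs_of_pos (inv_pos.2 hk0)] at h
  have hkc : (k : ℂ) ≠ 0 := by exact_mod_cast hk0.ne'
  have h3 : ∫ l : ℝ, cexp (-(I * (l : ℂ) * (t : ℂ))) * ((k : ℂ) / Ai (I * ((k⁻¹ * l : ℝ) : ℂ)))
      = (k : ℂ) * ((k : ℂ) * ∫ ω : ℝ, (I * (ω : ℂ)) ^ 0 *
        cexp (I * (ω : ℂ) * ((-(k * t) : ℝ) : ℂ)) * ph0 ω) := by
    rw [h, Complex.real_smul]
    push_cast
    rw [← mul_assoc, mul_inv_cancel₀ hkc, one_mul]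
  rw [h3]
  push_cast
  ring

end Pool.Agent.R748.CH
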