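import Pool.Agent.R748.CH.Stm
import Pool.Agent.H140R2.FR.T03Zeros

/-!
# Project CH: shift of the contour (SHIFT)
-/

set_option autoImplicit false

open Complex MeasureTheory Set Filter Topology Polynomial
open Pool.Agent.H140R2.FR (Ai Ai_differentiable Ai_ne_zero)

namespace Pool.Agent.R748.CH

namespace SHIFT

/-- Cauchy's theorem in a strip -/
theorem strip (F : ℂ → ℂ) (L C : ℝ) (hL : 0 ≤ L)
    (hFd : ∀ u : ℂ, 0 ≤ u.re → u.re ≤ L → DifferentiableAt ℂ F u)
    (hFb : ∀ u : ℂ, 0 ≤ u.re → u.re ≤ L → ‖F u‖ ≤ C / (1 + u.im ^ 2)) :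
    ∫ y : ℝ, F ((L : ℂ) + y * I) = ∫ y : ℝ, F (((0 : ℝ) : ℂ) + y * I) := by
  have hcont : ∀ c : ℝ, 0 ≤ c → c ≤ L → Continuous (fun y : ℝ => F ((c : ℂ) + y * I)) := by
    intro c h0 h4
    rw [continuous_iff_continuousAt]
    intro y
    have h1 : ContinuousAt F ((c : ℂ) + y * I) :=
      (hFd _ (by simpa using h0) (by simpa using h4)).continuousAt
    exact ContinuousAt.comp (f := fun y : ℝ => (c : ℂ) + y * I) h1 (by fun_prop)
  have hint : ∀ c : ℝ, 0 ≤ c → c ≤ L → Integrable (fun y : ℝ => F ((c : ℂ) + y * I)) := by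
    intro c h0 h4
    refine (integrable_inv_one_add_sq.const_mul C).mono' (hcont c h0 h4).aestronglyMeasurable
      (Eventually.of_forall fun y => ?_)
    have := hFb ((c : ℂ) + y * I) (by simpa using h0) (by simpa using h4)
    simpa [div_eq_mul_inv] using this
  have hrect : ∀ R : ℝ, 0 ≤ R →
      ‖(∫ y in (-R)..R, F ((L : ℝ) + y * I)) - ∫ y in (-R)..R, F ((0 : ℝ) + y * I)‖ ≤
        2 * L * (C / (1 + R ^ 2)) := by
    intro R hR
    have h1 := Complex.integral_boundary_rect_eq_zero_of_differentiableOn F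
      (((0 : ℝ) : ℂ) + ((-R : ℝ) : ℂ) * I) (((L : ℝ) : ℂ) + ((R : ℝ) : ℂ) * I) (by
        intro u hu
        rw [Complex.mem_reProdIm] at hu
        have h2 := hu.1
        simp only [Complex.add_re, Complex.ofReal_re, Complex.mul_re, Complex.I_re, mul_zero,
          Complex.ofReal_im, Complex.I_im, mul_one, sub_self, add_zero] at h2
        rw [uIcc_of_le hL] at h2
        exact (hFd u h2.1 h2.2).differentiableWithinAt)
    simp only [Complex.add_re, Complex.ofReal_re, Complex.mul_re, Complex.I_re, mul_zero,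
      Complex.ofReal_im, Complex.I_im, mul_one, sub_self, add_zero, Complex.add_im,
      Complex.mul_im, zero_add, smul_eq_mul] at h1
    have hh : ∀ s : ℝ, s ^ 2 = R ^ 2 → ‖∫ x in (0 : ℝ)..L, F (x + (s : ℂ) * I)‖ ≤
        L * (C / (1 + R ^ 2)) := by
      intro s hs
      have := intervalIntegral.norm_integral_le_of_norm_le_const (a := 0) (b := L)
        (f := fun x : ℝ => F (x + (s : ℂ) * I)) (C := C / (1 + R ^ 2)) (by
          intro x hx
          rw [uIoc_of_le hL] at hx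
          have h3 := hFb (x + (s : ℂ) * I) (by simpa using hx.1.le) (by simpa using hx.2)
          simpa [hs] using h3)
      refine this.trans (le_of_eq ?_)
      rw [sub_zero, abs_of_nonneg hL]
      ring
    have e1 := hh (-R) (by ring)
    have e2 := hh R rfl
    set a := ∫ x in (0 : ℝ)..L, F (x + ((-R : ℝ) : ℂ) * I) with ha
    set b := ∫ x in (0 : ℝ)..L, F (x + ((R : ℝ) : ℂ) * I) with hb'
    set c := ∫ y in (-R)..R, F (((L : ℝ) : ℂ) + y * I) with hc
    set d := ∫ y in (-R)..R, F (((0 : ℝ) : ℂ) + y * I) with hd'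
    have h4 : I * (c - d) = b - a := by linear_combination h1
    have h5 : ‖c - d‖ = ‖b - a‖ := by
      rw [← h4, norm_mul, Complex.norm_I, one_mul]
    rw [h5]
    calc ‖b - a‖ ≤ ‖b‖ + ‖a‖ := norm_sub_le _ _
      _ ≤ 2 * L * (C / (1 + R ^ 2)) := by linarith
  have hl4 : Tendsto (fun R : ℝ => ∫ y in (-R)..R, F ((L : ℝ) + y * I)) atTop
      (𝓝 (∫ y : ℝ, F ((L : ℝ) + y * I))) :=
    intervalIntegral_tendsto_integral (hint L hL le_rfl) tendsto_neg_atTop_atBot tendsto_id
  have hl0 : Tendsto (fun R : ℝ => ∫ y in (-R)..R, F ((0 : ℝ) + y * I)) atTop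
      (𝓝 (∫ y : ℝ, F ((0 : ℝ) + y * I))) :=
    intervalIntegral_tendsto_integral (hint 0 le_rfl hL) tendsto_neg_atTop_atBot tendsto_id
  have hz : Tendsto (fun R : ℝ => 2 * L * (C / (1 + R ^ 2))) atTop (𝓝 0) := by
    have h1 : Tendsto (fun R : ℝ => 1 + R ^ 2) atTop atTop :=
      tendsto_atTop_add_const_left _ _ (tendsto_pow_atTop (by norm_num))
    have h2 := (h1.const_div_atTop C).const_mul (2 * L)
    simpa using h2
  have h0 : Tendsto (fun R : ℝ => (∫ y in (-R)..R, F ((L : ℝ) + y * I)) -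
      ∫ y in (-R)..R, F ((0 : ℝ) + y * I)) atTop (𝓝 0) := by
    apply squeeze_zero_norm' _ hz
    filter_upwards [eventually_ge_atTop (0 : ℝ)] with R hR using hrect R hR
  have heq := tendsto_nhds_unique h0 (hl4.sub hl0)
  exact sub_eq_zero.1 heq.symm

end SHIFT

open SHIFT in
/-- SHIFT of the contour. -/
theorem t_SHIFT (hD : S_DECAY) : S_SHIFT := by
  intro j x L hL
  obtain ⟨C, hC, hCb⟩ := hD L 1 hL zero_le_one
  set F : ℂ → ℂ := fun u => u ^ j * cexp (u * (x : ℂ)) * (Ai u)⁻¹ with hF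
  have hFd : ∀ u : ℂ, 0 ≤ u.re → u.re ≤ L → DifferentiableAt ℂ F u := by
    intro u h0 h4
    have h1 : Ai u ≠ 0 := Ai_ne_zero u (Or.inr h0)
    have h2 : DifferentiableAt ℂ (fun u => (Ai u)⁻¹) u := (Ai_differentiable u).inv h1
    exact (by fun_prop : DifferentiableAt ℂ (fun u : ℂ => u ^ j * cexp (u * (x : ℂ))) u).mul h2
  have hFb : ∀ u : ℂ, 0 ≤ u.re → u.re ≤ L → ‖F u‖ ≤
      (Real.exp (L * |x|) * C * ((j + 2).factorial * Real.exp (L + 1))) / (1 + u.im ^ 2) := by
    intro u h0 h4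
    have hu : u = (u.re : ℂ) + I * (u.im : ℂ) := by
      rw [mul_comm]; exact (Complex.re_add_im u).symm
    have h1 : ‖(Ai u)⁻¹‖ ≤ C * Real.exp (-(1 * |u.im|)) := by
      have := hCb u.re u.im h0 h4
      rwa [← hu] at this
    have h2 : ‖cexp (u * (x : ℂ))‖ ≤ Real.exp (L * |x|) := by
      rw [Complex.norm_exp, Complex.re_mul_ofReal]
      refine Real.exp_le_exp.2 ?_
      calc u.re * x ≤ u.re * |x| := mul_le_mul_of_nonneg_left (le_abs_self x) h0
        _ ≤ L * |x| := mul_le_mul_of_nonneg_right h4 (abs_nonneg x)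
    set y : ℝ := L + 1 + |u.im| with hy
    have hy0 : 0 ≤ y := by positivity
    have h3 : ‖u ^ j‖ ≤ y ^ j := by
      rw [norm_pow]
      refine pow_le_pow_left₀ (norm_nonneg _) ?_ j
      refine (Complex.norm_le_abs_re_add_abs_im u).trans ?_
      rw [abs_of_nonneg h0]
      linarith
    have h5 : 1 + u.im ^ 2 ≤ y ^ 2 := by
      rw [hy, ← sq_abs u.im]
      nlinarith [abs_nonneg u.im]
    have h6 : y ^ (j + 2) ≤ (j + 2).factorial * Real.exp y := by
      have := Real.pow_div_factorial_le_exp y hy0 (j + 2)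
      rw [div_le_iff₀ (by positivity)] at this
      linarith
    rw [le_div_iff₀ (by positivity)]
    have h7 : ‖F u‖ = ‖u ^ j‖ * ‖cexp (u * (x : ℂ))‖ * ‖(Ai u)⁻¹‖ := by
      rw [hF]
      show ‖u ^ j * cexp (u * (x : ℂ)) * (Ai u)⁻¹‖ = _
      rw [norm_mul, norm_mul]
    rw [h7]
    have h8 : Real.exp (-(1 * |u.im|)) * Real.exp y = Real.exp (L + 1) := by
      rw [← Real.exp_add, hy]
      congr 1
      ring
    calc ‖u ^ j‖ * ‖cexp (u * (x : ℂ))‖ * ‖(Ai u)⁻¹‖ * (1 + u.im ^ 2) ≤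
        y ^ j * Real.exp (L * |x|) * (C * Real.exp (-(1 * |u.im|))) * y ^ 2 := by gcongr
      _ = Real.exp (L * |x|) * C * (y ^ (j + 2) * Real.exp (-(1 * |u.im|))) := by ring
      _ ≤ Real.exp (L * |x|) * C * (((j + 2).factorial * Real.exp y) *
          Real.exp (-(1 * |u.im|))) := by gcongr
      _ = Real.exp (L * |x|) * C * ((j + 2).factorial * (Real.exp (-(1 * |u.im|)) *
          Real.exp y)) := by ring
      _ = _ := by rw [h8]
  have h := strip F L _ hL hFd hFb
  have e1 : Tr ph0 j x = ∫ y : ℝ, F (((0 : ℝ) : ℂ) + y * I) := by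
    unfold Tr ph0
    refine integral_congr_ae (Filter.Eventually.of_forall fun ω => ?_)
    simp only [hF]
    rw [Complex.ofReal_zero, zero_add, mul_comm (ω : ℂ) I]
  rw [e1, ← h]
  refine integral_congr_ae (Filter.Eventually.of_forall fun ω => ?_)
  simp only [hF]
  rw [mul_comm (ω : ℂ) I]

end Pool.Agent.R748.CH
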