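import Pool.Agent.R748.CH.Stm
import Pool.Agent.H140R2.FR.T01Airy

/-!
# CH-TAIL: the second log-derivative at `-∞`
-/

set_option autoImplicit false

open Complex MeasureTheory Set Filter Topology
open Pool.Agent.H140R2.FR (Ai Ai_differentiable)

namespace Pool.Agent.R748.CH

namespace TailP

lemma HX_meas (X : ℝ) : Measurable (HX X) := by
  unfold HX
  have h : Measurable Ai := Ai_differentiable.continuous.measurable
  apply Measurable.mul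
  · apply measurable_const.div
    apply h.comp
    apply Continuous.measurable
    fun_prop
  · apply Continuous.measurable
    fun_prop

/-- the moments of the kernel -/
noncomputable def nu (k : ℕ) (X : ℝ) : ℂ := ∫ v : ℝ, (v : ℂ) ^ k * HX X v

/-- the moments of the limit -/
noncomputable def mr (k : ℕ) : ℝ := ∫ v : ℝ, v ^ k * Real.exp (-(v ^ 2) / 4)

lemma dom (k : ℕ) (hk : k ≤ 2) (v : ℝ) :
    |v| ^ k * ((1 + |v|) * Real.exp (-(|v| / 4))) ≤ 20 ^ 5 * (1 + v ^ 2)⁻¹ := by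
  set t := |v| with ht
  have ht0 : 0 ≤ t := abs_nonneg v
  have hv : v ^ 2 = t ^ 2 := by rw [ht, sq_abs]
  rw [hv]
  have h1 : 1 + t ≤ 20 * Real.exp (t / 20) := by
    have := Real.add_one_le_exp (t / 20)
    linarith
  have h2 : (1 + t) ^ 5 ≤ 20 ^ 5 * Real.exp (t / 4) := by
    calc (1 + t) ^ 5 ≤ (20 * Real.exp (t / 20)) ^ 5 := pow_le_pow_left₀ (by positivity) h1 5
      _ = 20 ^ 5 * Real.exp (t / 4) := by
        rw [mul_pow, ← Real.exp_nat_mul]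
        congr 2
        push_cast
        ring
  have h3 : t ^ k ≤ (1 + t) ^ 2 := by
    calc t ^ k ≤ (1 + t) ^ k := pow_le_pow_left₀ ht0 (by linarith) k
      _ ≤ (1 + t) ^ 2 := pow_le_pow_right₀ (by linarith) hk
  have h4 : t ^ k * (1 + t) * (1 + t ^ 2) ≤ (1 + t) ^ 5 := by
    calc t ^ k * (1 + t) * (1 + t ^ 2) ≤ (1 + t) ^ 2 * (1 + t) * (1 + t) ^ 2 := by
          have h5 : 1 + t ^ 2 ≤ (1 + t) ^ 2 := by nlinarith
          gcongr
      _ = (1 + t) ^ 5 := by ring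
  have h6 : 0 < 1 + t ^ 2 := by positivity
  rw [← div_eq_mul_inv, le_div_iff₀ h6]
  have h7 : Real.exp (-(t / 4)) * Real.exp (t / 4) = 1 := by
    rw [← Real.exp_add]
    simp
  calc t ^ k * ((1 + t) * Real.exp (-(t / 4))) * (1 + t ^ 2) =
        (t ^ k * (1 + t) * (1 + t ^ 2)) * Real.exp (-(t / 4)) := by ring
    _ ≤ (20 ^ 5 * Real.exp (t / 4)) * Real.exp (-(t / 4)) :=
        mul_le_mul_of_nonneg_right (h4.trans h2) (Real.exp_pos _).le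
    _ = 20 ^ 5 * (Real.exp (-(t / 4)) * Real.exp (t / 4)) := by ring
    _ = 20 ^ 5 := by rw [h7, mul_one]

lemma bound {C : ℝ} (hC : 0 < C) (hb : ∀ X v : ℝ, 1 ≤ X →
    ‖HX X v‖ ≤ C * (1 + |v|) * Real.exp (-(|v| / 4))) (k : ℕ) (hk : k ≤ 2) (X v : ℝ) (hX : 1 ≤ X) :
    ‖(v : ℂ) ^ k * HX X v‖ ≤ C * (20 ^ 5 * (1 + v ^ 2)⁻¹) := by
  rw [norm_mul, norm_pow, Complex.norm_real, Real.norm_eq_abs]
  calc |v| ^ k * ‖HX X v‖ ≤ |v| ^ k * (C * (1 + |v|) * Real.exp (-(|v| / 4))) :=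
        mul_le_mul_of_nonneg_left (hb X v hX) (by positivity)
    _ = C * (|v| ^ k * ((1 + |v|) * Real.exp (-(|v| / 4)))) := by ring
    _ ≤ C * (20 ^ 5 * (1 + v ^ 2)⁻¹) := mul_le_mul_of_nonneg_left (dom k hk v) hC.le

lemma bound_int (C : ℝ) : Integrable (fun v : ℝ => C * (20 ^ 5 * (1 + v ^ 2)⁻¹)) :=
  (integrable_inv_one_add_sq.const_mul _).const_mul _

lemma meas (k : ℕ) (X : ℝ) : AEStronglyMeasurable (fun v : ℝ => (v : ℂ) ^ k * HX X v) volume := by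
  apply Measurable.aestronglyMeasurable
  exact (by fun_prop : Continuous (fun v : ℝ => (v : ℂ) ^ k)).measurable.mul (HX_meas X)

lemma integ (hB : S_KERB) (k : ℕ) (hk : k ≤ 2) (X : ℝ) (hX : 1 ≤ X) :
    Integrable (fun v : ℝ => (v : ℂ) ^ k * HX X v) := by
  obtain ⟨C, hC, hb⟩ := hB
  exact (bound_int C).mono' (meas k X) (Eventually.of_forall fun v => bound hC hb k hk X v hX)

lemma mr_eq (k : ℕ) : ((mr k : ℝ) : ℂ) = ∫ v : ℝ, (v : ℂ) ^ k * cexp (-((v : ℂ) ^ 2) / 4) := by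
  unfold mr
  rw [← integral_complex_ofReal]
  congr 1
  funext v
  push_cast
  rfl

lemma nu_tendsto (hB : S_KERB) (hL : S_KERL) (k : ℕ) (hk : k ≤ 2) :
    Tendsto (nu k) atTop (𝓝 ((mr k : ℝ) : ℂ)) := by
  obtain ⟨C, hC, hb⟩ := hB
  rw [mr_eq]
  unfold nu
  apply tendsto_integral_filter_of_dominated_convergence (fun v : ℝ => C * (20 ^ 5 * (1 + v ^ 2)⁻¹))
  · exact Eventually.of_forall fun X => meas k X
  · filter_upwards [eventually_ge_atTop 1] with X hX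
    exact Eventually.of_forall fun v => bound hC hb k hk X v hX
  · exact bound_int C
  · exact Eventually.of_forall fun v => (hL v).const_mul _

lemma mr0 : 0 < mr 0 := by
  have h := integral_gaussian (1 / 4)
  have h2 : mr 0 = ∫ x : ℝ, Real.exp (-(1 / 4) * x ^ 2) := by
    unfold mr
    congr 1
    funext v
    rw [pow_zero, one_mul]
    congr 1
    ring
  rw [h2, h]
  positivity

lemma mr1 : mr 1 = 0 := by
  have h := integral_neg_eq_self (fun v : ℝ => v ^ 1 * Real.exp (-(v ^ 2) / 4)) volume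
  have h2 : (fun v : ℝ => (-v) ^ 1 * Real.exp (-((-v) ^ 2) / 4)) =
      fun v : ℝ => -(v ^ 1 * Real.exp (-(v ^ 2) / 4)) := by
    funext v
    rw [neg_sq]
    ring
  rw [h2, integral_neg] at h
  unfold mr
  linarith

lemma mr2 : 0 < mr 2 := by
  unfold mr
  have hi : Integrable (fun v : ℝ => v ^ 2 * Real.exp (-(v ^ 2) / 4)) := by
    have h := integrable_rpow_mul_exp_neg_mul_sq (b := 1 / 4) (by norm_num) (s := 2) (by norm_num)
    refine h.congr (Eventually.of_forall fun v => ?_)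
    simp only
    rw [show (2 : ℝ) = ((2 : ℕ) : ℝ) by norm_num, Real.rpow_natCast]
    congr 2
    ring
  rw [integral_pos_iff_support_of_nonneg (fun v => by positivity) hi]
  have h : Function.support (fun v : ℝ => v ^ 2 * Real.exp (-(v ^ 2) / 4)) = {0}ᶜ := by
    ext v
    simp [Function.mem_support, Real.exp_ne_zero]
  rw [h]
  exact isOpen_compl_singleton.measure_pos volume ⟨1, by simp⟩

lemma Tr_eq (hS : S_SHIFT) (j : ℕ) (X : ℝ) (hX : 1 ≤ X) (hA : Ai ((X : ℂ) ^ 2) ≠ 0) :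
    Tr ph0 j (-X) = ((Real.sqrt X : ℝ) : ℂ) * (cexp (-((X : ℂ) ^ 3)) / Ai ((X : ℂ) ^ 2)) *
      ∫ v : ℝ, ((X : ℂ) ^ 2 + I * ((Real.sqrt X * v : ℝ) : ℂ)) ^ j * HX X v := by
  have hX0 : 0 < X := by linarith
  have hs0 : 0 < Real.sqrt X := Real.sqrt_pos.2 hX0
  rw [hS j (-X) (X ^ 2) (by positivity)]
  set g : ℝ → ℂ := fun ω => (((X ^ 2 : ℝ) : ℂ) + I * (ω : ℂ)) ^ j *
    cexp ((((X ^ 2 : ℝ) : ℂ) + I * (ω : ℂ)) * ((-X : ℝ) : ℂ)) *
    (Ai (((X ^ 2 : ℝ) : ℂ) + I * (ω : ℂ)))⁻¹ with hg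
  have h1 := MeasureTheory.Measure.integral_comp_mul_left g (Real.sqrt X)
  rw [abs_of_pos (inv_pos.2 hs0)] at h1
  have h2 : ∫ ω, g ω = ((Real.sqrt X : ℝ) : ℂ) * ∫ v : ℝ, g (Real.sqrt X * v) := by
    rw [h1, Complex.real_smul, ← mul_assoc, ← Complex.ofReal_mul, mul_inv_cancel₀ hs0.ne',
      Complex.ofReal_one, one_mul]
  rw [h2, mul_assoc]
  congr 1
  rw [← integral_const_mul]
  congr 1
  funext v
  rw [hg]
  simp only
  unfold HX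
  rw [show ((X ^ 2 : ℝ) : ℂ) = (X : ℂ) ^ 2 by push_cast; ring]
  have h3 : cexp (((X : ℂ) ^ 2 + I * ((Real.sqrt X * v : ℝ) : ℂ)) * ((-X : ℝ) : ℂ)) =
      cexp (-((X : ℂ) ^ 3)) * cexp (-(I * ((X * Real.sqrt X * v : ℝ) : ℂ))) := by
    rw [← Complex.exp_add]
    congr 1
    push_cast
    ring
  rw [h3]
  field_simp

lemma Tr0 (hS : S_SHIFT) (X : ℝ) (hX : 1 ≤ X) (hA : Ai ((X : ℂ) ^ 2) ≠ 0) :
    Tr ph0 0 (-X) = ((Real.sqrt X : ℝ) : ℂ) * (cexp (-((X : ℂ) ^ 3)) / Ai ((X : ℂ) ^ 2)) * nu 0 X := by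
  rw [Tr_eq hS 0 X hX hA]
  rfl

lemma Tr1 (hS : S_SHIFT) (hB : S_KERB) (X : ℝ) (hX : 1 ≤ X) (hA : Ai ((X : ℂ) ^ 2) ≠ 0) :
    Tr ph0 1 (-X) = ((Real.sqrt X : ℝ) : ℂ) * (cexp (-((X : ℂ) ^ 3)) / Ai ((X : ℂ) ^ 2)) *
      ((X : ℂ) ^ 2 * nu 0 X + I * ((Real.sqrt X : ℝ) : ℂ) * nu 1 X) := by
  rw [Tr_eq hS 1 X hX hA]
  congr 1
  unfold nu
  rw [← integral_const_mul, ← integral_const_mul, ← integral_add
    ((integ hB 0 (by norm_num) X hX).const_mul _) ((integ hB 1 (by norm_num) X hX).const_mul _)]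
  congr 1
  funext v
  push_cast
  ring

lemma Tr2 (hS : S_SHIFT) (hB : S_KERB) (X : ℝ) (hX : 1 ≤ X) (hA : Ai ((X : ℂ) ^ 2) ≠ 0) :
    Tr ph0 2 (-X) = ((Real.sqrt X : ℝ) : ℂ) * (cexp (-((X : ℂ) ^ 3)) / Ai ((X : ℂ) ^ 2)) *
      ((X : ℂ) ^ 4 * nu 0 X + (2 * I * (X : ℂ) ^ 2 * ((Real.sqrt X : ℝ) : ℂ)) * nu 1 X +
        (-(X : ℂ)) * nu 2 X) := by
  rw [Tr_eq hS 2 X hX hA]
  congr 1
  unfold nu
  have g0 : Integrable (fun v : ℝ => (X : ℂ) ^ 4 * ((v : ℂ) ^ 0 * HX X v)) :=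
    (integ hB 0 (by norm_num) X hX).const_mul _
  have g1 : Integrable (fun v : ℝ => (2 * I * (X : ℂ) ^ 2 * ((Real.sqrt X : ℝ) : ℂ)) *
    ((v : ℂ) ^ 1 * HX X v)) := (integ hB 1 (by norm_num) X hX).const_mul _
  have g2 : Integrable (fun v : ℝ => (-(X : ℂ)) * ((v : ℂ) ^ 2 * HX X v)) :=
    (integ hB 2 (by norm_num) X hX).const_mul _
  have g01 : Integrable (fun v : ℝ => (X : ℂ) ^ 4 * ((v : ℂ) ^ 0 * HX X v) +
    (2 * I * (X : ℂ) ^ 2 * ((Real.sqrt X : ℝ) : ℂ)) * ((v : ℂ) ^ 1 * HX X v)) := g0.add g1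
  rw [← integral_const_mul, ← integral_const_mul, ← integral_const_mul, ← integral_add g0 g1,
    ← integral_add g01 g2]
  congr 1
  funext v
  have hs : ((Real.sqrt X : ℝ) : ℂ) ^ 2 = (X : ℂ) := by
    rw [← Complex.ofReal_pow, Real.sq_sqrt (by linarith)]
  have hI : I ^ 2 = -1 := Complex.I_sq
  push_cast
  linear_combination (((Real.sqrt X : ℝ) : ℂ) ^ 2 * (v : ℂ) ^ 2 * HX X v) * hI -
    ((v : ℂ) ^ 2 * HX X v) * hs

end TailP

open TailP in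
theorem t_TAIL (hS : S_SHIFT) (hB : S_KERB) (hL : S_KERL) (hT : S_TR) (hP : S_PH) : S_TAIL := by
  have hM := hP.1
  have hn0 := nu_tendsto hB hL 0 (by norm_num)
  have hn1 := nu_tendsto hB hL 1 (by norm_num)
  have hn2 := nu_tendsto hB hL 2 (by norm_num)
  have hm0 := mr0
  have hm2 := mr2
  have hm0c : ((mr 0 : ℝ) : ℂ) ≠ 0 := by exact_mod_cast hm0.ne'
  have hr : Tendsto (fun X => (nu 0 X * nu 2 X - nu 1 X ^ 2) / nu 0 X ^ 2) atTop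
      (𝓝 (((mr 2 / mr 0 : ℝ)) : ℂ)) := by
    have h := ((hn0.mul hn2).sub (hn1.pow 2)).div (hn0.pow 2) (pow_ne_zero 2 hm0c)
    have e : (((mr 0 : ℝ) : ℂ) * ((mr 2 : ℝ) : ℂ) - ((mr 1 : ℝ) : ℂ) ^ 2) / ((mr 0 : ℝ) : ℂ) ^ 2 =
        ((mr 2 / mr 0 : ℝ) : ℂ) := by
      rw [mr1]
      push_cast
      field_simp
      ring
    rw [e] at h
    exact h
  have hre : Tendsto (fun X => ((nu 0 X * nu 2 X - nu 1 X ^ 2) / nu 0 X ^ 2).re) atTop
      (𝓝 (mr 2 / mr 0)) := by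
    have := (Complex.continuous_re.tendsto _).comp hr
    rw [Complex.ofReal_re] at this
    exact this
  have hρ : 0 < mr 2 / mr 0 := div_pos hm2 hm0
  have hev1 : ∀ᶠ X : ℝ in atTop, mr 2 / mr 0 / 2 <
      ((nu 0 X * nu 2 X - nu 1 X ^ 2) / nu 0 X ^ 2).re :=
    hre.eventually (lt_mem_nhds (by linarith))
  have hev2 : ∀ᶠ X : ℝ in atTop, nu 0 X ≠ 0 := hn0.eventually_ne hm0c
  have hev3 : ∀ᶠ X : ℝ in atTop, HX X 0 ≠ 0 := by
    have h := hL 0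
    have h1 : cexp (-(((0 : ℝ) : ℂ) ^ 2) / 4) ≠ 0 := Complex.exp_ne_zero _
    exact h.eventually_ne h1
  have hev := ((hev1.and hev2).and hev3).and
    ((eventually_ge_atTop (1 : ℝ)).and (eventually_ge_atTop (1 / (mr 2 / mr 0 / 2))))
  obtain ⟨X₀, hX₀⟩ := eventually_atTop.1 hev
  refine ⟨X₀, fun X hX => ?_⟩
  obtain ⟨⟨⟨h1, h2⟩, h3⟩, h4, h5⟩ := hX₀ X hX
  have hA : Ai ((X : ℂ) ^ 2) ≠ 0 := by
    intro h0
    apply h3
    unfold HX
    rw [h0, zero_div, zero_mul]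
  have hX0 : 0 < X := by linarith
  set c : ℂ := ((Real.sqrt X : ℝ) : ℂ) * (cexp (-((X : ℂ) ^ 3)) / Ai ((X : ℂ) ^ 2)) with hc
  have hc0 : c ≠ 0 := by
    rw [hc]
    apply mul_ne_zero
    · exact_mod_cast (Real.sqrt_pos.2 hX0).ne'
    · exact div_ne_zero (Complex.exp_ne_zero _) hA
  have e0 := Tr0 hS X h4 hA
  have e1 := Tr1 hS hB X h4 hA
  have e2 := Tr2 hS hB X h4 hA
  rw [← hc] at e0 e1 e2
  rw [(hT ph0 hM 0).2.1] at e0
  rw [(hT ph0 hM 1).2.1] at e1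
  rw [(hT ph0 hM 2).2.1] at e2
  have ht0 : RT ph0 0 (-X) ≠ 0 := by
    intro h0
    rw [h0, Complex.ofReal_zero] at e0
    exact (mul_ne_zero hc0 h2) e0.symm
  refine ⟨?_, ht0⟩
  set r : ℂ := (nu 0 X * nu 2 X - nu 1 X ^ 2) / nu 0 X ^ 2 with hrdef
  have hs : ((Real.sqrt X : ℝ) : ℂ) ^ 2 = (X : ℂ) := by
    rw [← Complex.ofReal_pow, Real.sq_sqrt hX0.le]
  have hI : I ^ 2 = -1 := Complex.I_sq
  have key : ((RT ph0 1 (-X) ^ 2 - RT ph0 0 (-X) * RT ph0 2 (-X) : ℝ) : ℂ) =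
      ((RT ph0 0 (-X) ^ 2 * X : ℝ) : ℂ) * r := by
    push_cast
    rw [e0, e1, e2, hrdef]
    have h6 : (c * nu 0 X) ^ 2 * (X : ℂ) * ((nu 0 X * nu 2 X - nu 1 X ^ 2) / nu 0 X ^ 2) =
        c ^ 2 * (X : ℂ) * (nu 0 X * nu 2 X - nu 1 X ^ 2) := by
      field_simp
    rw [h6]
    linear_combination (c ^ 2 * ((Real.sqrt X : ℝ) : ℂ) ^ 2 * nu 1 X ^ 2) * hI -
      (c ^ 2 * nu 1 X ^ 2) * hs
  have hkre := congrArg Complex.re key
  rw [Complex.ofReal_re, Complex.re_ofReal_mul] at hkre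
  rw [hkre]
  have h7 : 1 ≤ X * r.re := by
    have h8 : 1 / (mr 2 / mr 0 / 2) * (mr 2 / mr 0 / 2) = 1 := by
      rw [one_div, inv_mul_cancel₀ (by linarith)]
    calc (1 : ℝ) = 1 / (mr 2 / mr 0 / 2) * (mr 2 / mr 0 / 2) := h8.symm
      _ ≤ X * r.re := by
        apply mul_le_mul h5 h1.le (by linarith) hX0.le
  have h9 : 0 ≤ RT ph0 0 (-X) ^ 2 := sq_nonneg _
  nlinarith

end Pool.Agent.R748.CH
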