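import Pool.Agent.R748.CH.Stm

/-! Project CH (helper748), piece TR by helper506: Fourier integrals. -/

set_option autoImplicit false

open Complex MeasureTheory Set Filter Topology Polynomial

namespace Pool.Agent.R748.CH

namespace TRpf

lemma norm_int (φ : ℝ → ℂ) (j : ℕ) (x ω : ℝ) :
    ‖(I * (ω : ℂ)) ^ j * cexp (I * (ω : ℂ) * (x : ℂ)) * φ ω‖ = |ω| ^ j * ‖φ ω‖ := by
  have h : I * (ω : ℂ) * (x : ℂ) = ((ω * x : ℝ) : ℂ) * I := by push_cast; ring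
  rw [norm_mul, norm_mul, norm_pow, norm_mul, norm_I, one_mul, h, norm_exp_ofReal_mul_I, mul_one,
    norm_real, Real.norm_eq_abs]

lemma cont_int {φ : ℝ → ℂ} (hφ : Continuous φ) (j : ℕ) (x : ℝ) :
    Continuous fun ω : ℝ => (I * (ω : ℂ)) ^ j * cexp (I * (ω : ℂ) * (x : ℂ)) * φ ω := by
  fun_prop

lemma integ {φ : ℝ → ℂ} (hφ : Mom φ) (j : ℕ) (x : ℝ) :
    Integrable (fun ω : ℝ => (I * (ω : ℂ)) ^ j * cexp (I * (ω : ℂ) * (x : ℂ)) * φ ω) := by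
  refine Integrable.mono' (hφ.mom j) (cont_int hφ.cont j x).aestronglyMeasurable (ae_of_all _ fun ω => ?_)
  rw [norm_int]

lemma deriv_Tr {φ : ℝ → ℂ} (hφ : Mom φ) (j : ℕ) (x : ℝ) : HasDerivAt (Tr φ j) (Tr φ (j + 1) x) x := by
  have h := hasDerivAt_integral_of_dominated_loc_of_deriv_le (μ := (volume : Measure ℝ))
    (F := fun (x : ℝ) (ω : ℝ) => (I * (ω : ℂ)) ^ j * cexp (I * (ω : ℂ) * (x : ℂ)) * φ ω)
    (F' := fun (x : ℝ) (ω : ℝ) => (I * (ω : ℂ)) ^ (j + 1) * cexp (I * (ω : ℂ) * (x : ℂ)) * φ ω)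
    (x₀ := x) (s := Set.univ) (bound := fun ω => |ω| ^ (j + 1) * ‖φ ω‖) univ_mem
    (Eventually.of_forall fun y => (cont_int hφ.cont j y).aestronglyMeasurable) (integ hφ j x)
    (cont_int hφ.cont (j + 1) x).aestronglyMeasurable (ae_of_all _ fun ω y _ => (norm_int φ (j + 1) y ω).le)
    (hφ.mom (j + 1)) (ae_of_all _ fun ω y _ => ?_)
  · exact h.2
  · have h1 : HasDerivAt (fun y : ℝ => I * (ω : ℂ) * (y : ℂ)) (I * (ω : ℂ) * 1) y :=
      (HasDerivAt.ofReal_comp (hasDerivAt_id y)).const_mul _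
    have h2 := ((h1.cexp).const_mul ((I * (ω : ℂ)) ^ j)).mul_const (φ ω)
    refine h2.congr_deriv ?_
    ring

lemma conj_Tr {φ : ℝ → ℂ} (hφ : Mom φ) (j : ℕ) (x : ℝ) : (starRingEnd ℂ) (Tr φ j x) = Tr φ j x := by
  unfold Tr
  rw [← integral_conj, ← integral_neg_eq_self (fun ω : ℝ => (I * (ω : ℂ)) ^ j * cexp (I * (ω : ℂ) * (x : ℂ)) * φ ω)]
  refine integral_congr_ae (ae_of_all _ fun ω => ?_)
  simp only [map_mul, map_pow, conj_I, conj_ofReal, ← exp_conj, hφ.sym, ofReal_neg]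
  rw [neg_mul, mul_neg]

end TRpf

open TRpf

theorem t_TR : S_TR := by
  intro φ hφ j
  refine ⟨fun x => ?_, fun x => ?_, ?_, fun x => integ hφ j x, fun x => ?_⟩
  · exact reCLM.hasFDerivAt.comp_hasDerivAt x (deriv_Tr hφ j x)
  · exact (conj_eq_iff_re.mp (conj_Tr hφ j x)).symm
  · refine ⟨∫ ω : ℝ, |ω| ^ j * ‖φ ω‖, fun x => ?_⟩
    calc |RT φ j x| ≤ ‖Tr φ j x‖ := abs_re_le_norm _
      _ ≤ ∫ ω : ℝ, ‖(I * (ω : ℂ)) ^ j * cexp (I * (ω : ℂ) * (x : ℂ)) * φ ω‖ := norm_integral_le_integral_norm _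
      _ = _ := by simp only [norm_int]
  · unfold Tr
    rw [← integral_const_mul, ← integral_neg_eq_self (fun ω : ℝ => (I * (ω : ℂ)) ^ j *
      cexp (I * (ω : ℂ) * (x : ℂ)) * (fun ω => φ (-ω)) ω)]
    refine integral_congr_ae (ae_of_all _ fun ω => ?_)
    simp only [neg_neg, ofReal_neg]
    have h1 : (I * -(ω : ℂ)) ^ j = (-1) ^ j * (I * (ω : ℂ)) ^ j := by
      rw [← mul_pow]
      ring
    have h2 : I * -(ω : ℂ) * (x : ℂ) = I * (ω : ℂ) * -(x : ℂ) := by ring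
    rw [h1, h2]
    ring

end Pool.Agent.R748.CH
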