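import Pool.Agent.R748.CH.G
import Pool.Agent.R748.CH.LEMA
import Pool.Agent.R748.CH.POLY
import Pool.Agent.R748.CH.MID
import Pool.Agent.R748.CH.AILOW
import Pool.Agent.R748.CH.CLOSE
import Pool.Agent.R748.CH.DECAY
import Pool.Agent.R748.CH.ENT
import Pool.Agent.R748.CH.FAST
import Pool.Agent.R748.CH.FDEF
import Pool.Agent.R748.CH.FIN
import Pool.Agent.R748.CH.GAUSS
import Pool.Agent.R748.CH.GROW
import Pool.Agent.R748.CH.KERB
import Pool.Agent.R748.CH.KERL
import Pool.Agent.R748.CH.LIMIT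
import Pool.Agent.R748.CH.PH
import Pool.Agent.R748.CH.POS
import Pool.Agent.R748.CH.SCALE
import Pool.Agent.R748.CH.SHIFT
import Pool.Agent.R748.CH.TAIL
import Pool.Agent.R748.CH.TR
import Pool.Agent.R748.CH.Final

/-!
# Project CH: everything together
-/

set_option autoImplicit false

open Complex MeasureTheory Set Filter Topology Polynomial
open Pool.Agent.H140R2.FR (Ai)

namespace Pool.Agent.R748.CH

theorem all_S_G : S_G := by
  have hTR := t_TR
  have hLEMA := t_LEMA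
  have hA := t_AILOW
  have hD := t_DECAY hA
  have hF := t_FDEF t_GROW
  have hPH := t_PH hD hF hTR
  have hS := t_SHIFT hD
  have hFA := t_FAST hS hD
  have hTA := t_TAIL hS (t_KERB hA) t_KERL hTR hPH
  have hC := t_CLOSE hTR hLEMA
  have hLI := t_LIMIT (t_POLY hC) (t_GAUSS hTR) (t_MID hTR)
  exact t_G hTR hLEMA hLI t_ENT t_POS hF hPH hFA hTA

theorem all_PH : S_PH := t_PH (t_DECAY t_AILOW) (t_FDEF t_GROW) t_TR

theorem all_TAIL : S_TAIL :=
  t_TAIL (t_SHIFT (t_DECAY t_AILOW)) (t_KERB t_AILOW) t_KERL t_TR all_PH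

theorem all_G (t : ℝ) : (gG t).im = 0 ∧ 0 < (gG t).re := by
  have hM0 := all_PH.1
  rw [t_SCALE t, (t_TR ph0 hM0 0).2.1, ← Complex.ofReal_mul]
  refine ⟨Complex.ofReal_im _, ?_⟩
  rw [Complex.ofReal_re]
  exact mul_pos (by positivity) (all_S_G.1 _)

theorem all_FINAL : ∃ c : ℝ, 0 < c ∧ (∀ t, 0 < fZ t) ∧ ContDiff ℝ 2 fZ ∧
      (∀ t, c ≤ -(iteratedDeriv 2 (fun s => Real.log (fZ s)) t)) ∧
      ConvexOn ℝ Set.univ (fun t => -Real.log (fZ t) - c / 2 * t ^ 2) := by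
  exact t_FINAL t_TR all_PH all_TAIL all_S_G t_SCALE t_FIN

end Pool.Agent.R748.CH
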