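import Pool.Agent.H140R2.FR.Defs

/-!
# Project CH (MP_0705dc_pr): Chernoff's density is strongly log-concave.  Definitions.
-/

set_option autoImplicit false

open Complex MeasureTheory Set Filter Topology Polynomial
open Pool.Agent.H140R2.FR (Ai)

namespace Pool.Agent.R748.CH

/-- the inverse Fourier integral `∫ (iω)^j e^{iωx} φ(ω) dω` -/
noncomputable def Tr (φ : ℝ → ℂ) (j : ℕ) (x : ℝ) : ℂ :=
  ∫ ω : ℝ, (I * (ω : ℂ)) ^ j * cexp (I * (ω : ℂ) * (x : ℂ)) * φ ω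

/-- its real part -/
noncomputable def RT (φ : ℝ → ℂ) (j : ℕ) (x : ℝ) : ℝ := (Tr φ j x).re

/-- continuous, all moments finite, `φ(-ω) = conj (φ ω)` -/
structure Mom (φ : ℝ → ℂ) : Prop where
  cont : Continuous φ
  mom : ∀ j : ℕ, Integrable (fun ω : ℝ => |ω| ^ j * ‖φ ω‖)
  sym : ∀ ω : ℝ, φ (-ω) = (starRingEnd ℂ) (φ ω)

/-- the transform `f = RT φ 0` is positive and log-concave: `f f'' ≤ f'^2` -/
structure LC (φ : ℝ → ℂ) : Prop extends Mom φ where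
  pos : ∀ x : ℝ, 0 < RT φ 0 x
  lc : ∀ x : ℝ, RT φ 0 x * RT φ 2 x ≤ RT φ 1 x ^ 2

/-- `1 / Ai` on the imaginary axis -/
noncomputable def ph0 (ω : ℝ) : ℂ := (Ai (I * (ω : ℂ)))⁻¹

/-- for a real zero `-a` of `Ai`: the entire function `Ai z / (Ai 0 * (1 + z/a))` -/
noncomputable def Fa (a : ℝ) (z : ℂ) : ℂ := ((a : ℂ) / Ai 0) * dslope Ai (-(a : ℂ)) z

/-- `1 / Fa a` on the imaginary axis -/
noncomputable def ph1 (a : ℝ) (ω : ℝ) : ℂ := (Fa a (I * (ω : ℂ)))⁻¹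

/-- the normalised integrand on the line `Re = X^2`, `Im = √X v` -/
noncomputable def HX (X v : ℝ) : ℂ :=
  Ai ((X : ℂ) ^ 2) / Ai ((X : ℂ) ^ 2 + I * ((Real.sqrt X * v : ℝ) : ℂ)) *
    cexp (-(I * ((X * Real.sqrt X * v : ℝ) : ℂ)))

/-- Groeneboom's function `g`, with `∫ e^{iλs} g(s) ds = 2^{1/3} / Ai (i 2^{-1/3} λ)` -/
noncomputable def gG (t : ℝ) : ℂ :=
  ((1 / (2 * Real.pi) : ℝ) : ℂ) * ∫ l : ℝ, cexp (-(I * (l : ℂ) * (t : ℂ))) *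
    ((((2 : ℝ) ^ ((1 : ℝ) / 3) : ℝ) : ℂ) / Ai (I * ((((2 : ℝ) ^ (-((1 : ℝ) / 3)) : ℝ) * l : ℝ) : ℂ)))

/-- Chernoff's density `f_Z(t) = (1/2) g(t) g(-t)` (Groeneboom 1985, 1989) -/
noncomputable def fZ (t : ℝ) : ℝ := (1 / 2) * (gG t).re * (gG (-t)).re

end Pool.Agent.R748.CH
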