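import Pool.Agent.R748.CH.Stm
import Pool.Agent.H140R2.FR.T03Zeros
import Pool.Agent.Y275.GL.Had1

/-!
# Project CH: assembly of the statement S_G
-/

set_option autoImplicit false

open Complex MeasureTheory Set Filter Topology Polynomial
open Pool.Agent.H140R2.FR (Ai)

namespace Pool.Agent.R748.CH

theorem t_G (hTR : S_TR) (hLEMA : S_LEMA) (hLIM : S_LIMIT) (hENT : S_ENT) (hPOS : S_POS)
    (hFDEF : S_FDEF) (hPH : S_PH) (hFAST : S_FAST) (hTAIL : S_TAIL) : S_G := by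
  obtain ⟨z1, hz1, hz1z, -, -, -⟩ := Pool.Agent.H140R2.FR.exists_first_zero
  obtain ⟨a, rfl⟩ : ∃ a : ℝ, z1 = -a := ⟨-z1, by ring⟩
  have ha : 0 < a := by linarith
  have haz : Ai (-(a : ℂ)) = 0 := by simpa using hz1z
  obtain ⟨hFd, hF0, hFm, hFs, hFz, K, hK, hFg⟩ := hFDEF a ha haz
  obtain ⟨hM0, hPH'⟩ := hPH
  obtain ⟨hM1, hdec, -, ⟨hA0, -⟩, hRT⟩ := hPH' a ha haz
  -- the limit of real rooted polynomials
  obtain ⟨Q, hQ1, hQ2⟩ := Pool.Agent.Y275.GL.had_real hFd (by rw [hF0]; exact one_ne_zero) hFs hK hFg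
  obtain ⟨hnn, hlc, hmid⟩ := hLIM (Fa a) hFd.continuous hF0
    ⟨Q, fun N w hw => (hQ1 N w hw).elim (fun h => hFz w h) id, hQ2⟩ hM1
  have hnn' : ∀ x : ℝ, 0 ≤ RT (ph1 a) 0 x := hnn
  have hlc' : ∀ x : ℝ, RT (ph1 a) 0 x * RT (ph1 a) 2 x ≤ RT (ph1 a) 1 x ^ 2 := hlc
  have hmid' : ∀ x y : ℝ, RT (ph1 a) 0 x * RT (ph1 a) 0 y ≤ RT (ph1 a) 0 ((x + y) / 2) ^ 2 := hmid
  have han : AnalyticOnNhd ℝ (RT (ph1 a) 0) Set.univ := hENT (ph1 a) hM1.cont hdec
  -- derivatives
  have hd0 : ∀ x, HasDerivAt (RT ph0 0) (RT ph0 1 x) x := (hTR ph0 hM0 0).1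
  have hd1 : ∀ x, HasDerivAt (RT ph0 1) (RT ph0 2 x) x := (hTR ph0 hM0 1).1
  have hd2 : ∀ x, HasDerivAt (RT ph0 2) (RT ph0 3 x) x := (hTR ph0 hM0 2).1
  obtain ⟨C0, hC0⟩ := (hTR ph0 hM0 0).2.2.1
  have hE : ∀ x : ℝ, HasDerivAt (fun x : ℝ => Real.exp (a * x)) (a * Real.exp (a * x)) x := by
    intro x
    have h1 : HasDerivAt (fun x : ℝ => a * x) a x := by simpa using (hasDerivAt_id x).const_mul a
    simpa [mul_comm] using h1.exp
  set M : ℝ → ℝ := fun x => Real.exp (a * x) * RT ph0 0 x with hMdef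
  set m : ℝ → ℝ := fun x => Real.exp (a * x) * (a * RT ph0 0 x + RT ph0 1 x) with hmdef
  set m1 : ℝ → ℝ := fun x => Real.exp (a * x) * (a ^ 2 * RT ph0 0 x + 2 * a * RT ph0 1 x + RT ph0 2 x)
    with hm1def
  set m2 : ℝ → ℝ := fun x => Real.exp (a * x) *
    (a ^ 3 * RT ph0 0 x + 3 * a ^ 2 * RT ph0 1 x + 3 * a * RT ph0 2 x + RT ph0 3 x) with hm2def
  have dM : ∀ x, HasDerivAt M (m x) x := by
    intro x
    refine ((hE x).mul (hd0 x)).congr_deriv ?_
    simp only [hmdef]; ring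
  have dm : ∀ x, HasDerivAt m (m1 x) x := by
    intro x
    refine ((hE x).mul (((hd0 x).const_mul a).add (hd1 x))).congr_deriv ?_
    simp only [hm1def, Pi.add_apply]; ring
  have dm1 : ∀ x, HasDerivAt m1 (m2 x) x := by
    intro x
    refine ((hE x).mul ((((hd0 x).const_mul (a ^ 2)).add ((hd1 x).const_mul (2 * a))).add
      (hd2 x))).congr_deriv ?_
    simp only [hm2def, Pi.add_apply]; ring
  have hexp0 : Tendsto (fun x : ℝ => Real.exp (a * x)) atBot (𝓝 0) :=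
    Real.tendsto_exp_atBot.comp (tendsto_id.const_mul_atBot ha)
  have hlimM : Tendsto M atBot (𝓝 0) := by
    have h1 : Tendsto (fun x : ℝ => Real.exp (a * x) * |C0|) atBot (𝓝 (0 * |C0|)) :=
      hexp0.mul_const _
    rw [zero_mul] at h1
    refine squeeze_zero_norm (fun x => ?_) h1
    rw [hMdef, Real.norm_eq_abs, abs_mul, abs_of_pos (Real.exp_pos _)]
    exact mul_le_mul_of_nonneg_left ((hC0 x).trans (le_abs_self _)) (Real.exp_pos _).le
  -- relation with the transform of ph1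
  have hr : ∀ (j : ℕ) (x : ℝ), a * RT ph0 j x + RT ph0 (j + 1) x = a / (Ai 0).re * RT (ph1 a) j x := by
    intro j x
    rw [hRT j x]
    field_simp
  have hne : ∃ x, RT (ph1 a) 0 x ≠ 0 := by
    by_contra hcon
    push Not at hcon
    obtain ⟨X0, hX0⟩ := hTAIL
    have hmz : ∀ x, m x = 0 := by
      intro x
      simp only [hmdef]
      rw [hr 0 x, hcon x]; simp
    have hconst : ∀ x y, M x = M y := is_const_of_deriv_eq_zero
      (fun x => (dM x).differentiableAt) (fun x => by rw [(dM x).deriv]; exact hmz x)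
    have hM0' : ∀ x, M x = 0 := by
      intro x
      have h1 : Tendsto M atBot (𝓝 (M x)) := by
        have : M = fun _ => M x := by funext y; exact hconst y x
        rw [this]
        exact tendsto_const_nhds
      exact tendsto_nhds_unique h1 hlimM
    have h2 := hM0' (-X0)
    simp only [hMdef, mul_eq_zero] at h2
    rcases h2 with h2 | h2
    · exact (Real.exp_pos _).ne' h2
    · exact (hX0 X0 le_rfl).2 h2
  have hpos1 : ∀ x, 0 < RT (ph1 a) 0 x := hPOS _ han hnn' hmid' hne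
  have hc : 0 < a / (Ai 0).re := by positivity
  have hmpos : ∀ x, 0 < m x := by
    intro x
    simp only [hmdef]
    rw [hr 0 x]
    have := hpos1 x
    positivity
  have hmlc : ∀ x, m x * m2 x ≤ m1 x ^ 2 := by
    intro x
    have e0 := hr 0 x
    have e1 := hr 1 x
    have e2 := hr 2 x
    norm_num at e0 e1 e2
    have h := hlc' x
    have hexp := Real.exp_pos (a * x)
    have em : m x = Real.exp (a * x) * (a / (Ai 0).re * RT (ph1 a) 0 x) := by
      simp only [hmdef]; rw [e0]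
    have em1 : m1 x = Real.exp (a * x) * (a / (Ai 0).re * (a * RT (ph1 a) 0 x + RT (ph1 a) 1 x)) := by
      simp only [hm1def]
      have : a ^ 2 * RT ph0 0 x + 2 * a * RT ph0 1 x + RT ph0 2 x =
          a * (a * RT ph0 0 x + RT ph0 1 x) + (a * RT ph0 1 x + RT ph0 2 x) := by ring
      rw [this, e0, e1]; ring
    have em2 : m2 x = Real.exp (a * x) *
        (a / (Ai 0).re * (a ^ 2 * RT (ph1 a) 0 x + 2 * a * RT (ph1 a) 1 x + RT (ph1 a) 2 x)) := by
      simp only [hm2def]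
      have : a ^ 3 * RT ph0 0 x + 3 * a ^ 2 * RT ph0 1 x + 3 * a * RT ph0 2 x + RT ph0 3 x =
          a ^ 2 * (a * RT ph0 0 x + RT ph0 1 x) + 2 * a * (a * RT ph0 1 x + RT ph0 2 x) +
            (a * RT ph0 2 x + RT ph0 3 x) := by ring
      rw [this, e0, e1, e2]; ring
    rw [em, em1, em2]
    have key : (Real.exp (a * x) * (a / (Ai 0).re * (a * RT (ph1 a) 0 x + RT (ph1 a) 1 x))) ^ 2 -
        Real.exp (a * x) * (a / (Ai 0).re * RT (ph1 a) 0 x) * (Real.exp (a * x) *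
        (a / (Ai 0).re * (a ^ 2 * RT (ph1 a) 0 x + 2 * a * RT (ph1 a) 1 x + RT (ph1 a) 2 x))) =
        (Real.exp (a * x) * (a / (Ai 0).re)) ^ 2 *
          (RT (ph1 a) 1 x ^ 2 - RT (ph1 a) 0 x * RT (ph1 a) 2 x) := by ring
    have : 0 ≤ (Real.exp (a * x) * (a / (Ai 0).re)) ^ 2 *
          (RT (ph1 a) 1 x ^ 2 - RT (ph1 a) 0 x * RT (ph1 a) 2 x) :=
      mul_nonneg (sq_nonneg _) (by linarith)
    linarith
  obtain ⟨hMpos, -, hstrict⟩ := hLEMA M m m1 m2 dM dm dm1 hmpos hmlc hlimM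
  have hst : ∀ x, M x * m1 x < m x ^ 2 := by
    apply hstrict
    intro l hl
    obtain ⟨B0, hB0⟩ := hFAST l 0 hl.le
    obtain ⟨B1, hB1⟩ := hFAST l 1 hl.le
    have h1 : Tendsto (fun x : ℝ => Real.exp (a * x) * (a * B0 + B1)) atBot
        (𝓝 (0 * (a * B0 + B1))) := hexp0.mul_const _
    rw [zero_mul] at h1
    refine squeeze_zero_norm (fun x => ?_) h1
    rw [Real.norm_eq_abs, abs_mul, abs_of_pos (Real.exp_pos _)]
    simp only [hmdef]
    rw [abs_mul, abs_of_pos (Real.exp_pos _)]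
    have h2 : |a * RT ph0 0 x + RT ph0 1 x| ≤ (a * B0 + B1) * Real.exp (l * x) := by
      calc |a * RT ph0 0 x + RT ph0 1 x| ≤ |a * RT ph0 0 x| + |RT ph0 1 x| := abs_add_le _ _
        _ = a * |RT ph0 0 x| + |RT ph0 1 x| := by rw [abs_mul, abs_of_pos ha]
        _ ≤ a * (B0 * Real.exp (l * x)) + B1 * Real.exp (l * x) :=
            add_le_add (mul_le_mul_of_nonneg_left (hB0 x) ha.le) (hB1 x)
        _ = (a * B0 + B1) * Real.exp (l * x) := by ring
    calc Real.exp (-(l * x)) * (Real.exp (a * x) * |a * RT ph0 0 x + RT ph0 1 x|)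
        ≤ Real.exp (-(l * x)) * (Real.exp (a * x) * ((a * B0 + B1) * Real.exp (l * x))) := by
          gcongr
      _ = (Real.exp (-(l * x)) * Real.exp (l * x)) * (Real.exp (a * x) * (a * B0 + B1)) := by ring
      _ = Real.exp (a * x) * (a * B0 + B1) := by
          rw [← Real.exp_add]; simp
  constructor
  · intro x
    have := hMpos x
    simp only [hMdef] at this
    exact (pos_iff_pos_of_mul_pos this).1 (Real.exp_pos _)
  · intro x
    have h := hst x
    simp only [hMdef, hmdef, hm1def] at h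
    have hexp := Real.exp_pos (a * x)
    have key : (Real.exp (a * x) * (a * RT ph0 0 x + RT ph0 1 x)) ^ 2 -
        Real.exp (a * x) * RT ph0 0 x * (Real.exp (a * x) *
          (a ^ 2 * RT ph0 0 x + 2 * a * RT ph0 1 x + RT ph0 2 x)) =
        Real.exp (a * x) ^ 2 * (RT ph0 1 x ^ 2 - RT ph0 0 x * RT ph0 2 x) := by ring
    have h3 : 0 < Real.exp (a * x) ^ 2 * (RT ph0 1 x ^ 2 - RT ph0 0 x * RT ph0 2 x) := by
      linarith
    have h4 : 0 < RT ph0 1 x ^ 2 - RT ph0 0 x * RT ph0 2 x :=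
      (pos_iff_pos_of_mul_pos h3).1 (by positivity)
    linarith

end Pool.Agent.R748.CH
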