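import Pool.Agent.R748.CH.Stm

/-!
# Project CH: limits of real rooted polynomials (LIMIT)
-/

set_option autoImplicit false

open Complex MeasureTheory Set Filter Topology Polynomial

namespace Pool.Agent.R748.CH

namespace LIMIT

theorem conv {ι : Type} {l : Filter ι} [l.IsCountablyGenerated] {φn : ι → ℝ → ℂ} {φ : ℝ → ℂ}
    {g : ℝ → ℝ} (hc : ∀ᶠ n in l, Continuous (φn n)) (hb : ∀ᶠ n in l, ∀ ω, ‖φn n ω‖ ≤ g ω)
    (hlim : ∀ ω, Tendsto (fun n => φn n ω) l (𝓝 (φ ω))) (j : ℕ)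
    (hg : Integrable fun ω : ℝ => |ω| ^ j * g ω) (x : ℝ) :
    Tendsto (fun n => RT (φn n) j x) l (𝓝 (RT φ j x)) := by
  unfold RT Tr
  refine (Complex.continuous_re.tendsto _).comp ?_
  refine tendsto_integral_filter_of_dominated_convergence (fun ω => |ω| ^ j * g ω) ?_ ?_ hg ?_
  · filter_upwards [hc] with n hn
    refine Continuous.aestronglyMeasurable ?_
    exact (by fun_prop : Continuous fun ω : ℝ => (I * (ω : ℂ)) ^ j *
      cexp (I * (ω : ℂ) * (x : ℂ))).mul hn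
  · filter_upwards [hb] with n hn
    refine Eventually.of_forall fun ω => ?_
    have h1 : ‖cexp (I * (ω : ℂ) * (x : ℂ))‖ = 1 := by
      rw [Complex.norm_exp]; simp
    rw [norm_mul, norm_mul, h1, mul_one, norm_pow, norm_mul, Complex.norm_I, one_mul,
      Complex.norm_real, Real.norm_eq_abs]
    exact mul_le_mul_of_nonneg_left (hn ω) (by positivity)
  · exact Eventually.of_forall fun ω => (hlim ω).const_mul _

end LIMIT

open LIMIT in
/-- LIMIT: the transform of `1/F`, `F` a limit of real rooted polynomials. -/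
theorem t_LIMIT (hP : S_POLY) (hG : S_GAUSS) (hM : S_MID) : S_LIMIT := by
  intro F hF hF0 hQ0 hMom
  obtain ⟨Q, hQr, hQ⟩ := hQ0
  set φ : ℝ → ℂ := fun ω => (F (I * (ω : ℂ)))⁻¹ with hφ
  have hpt : ∀ w, Tendsto (fun N => (Q N).eval w) atTop (𝓝 (F w)) := fun w =>
    (tendstoLocallyUniformlyOn_univ.2 hQ).tendsto_at (mem_univ w)
  have hne : ∀ᶠ N in atTop, (Q N).eval 0 ≠ 0 := by
    have h1 := hpt 0
    rw [hF0] at h1
    exact h1.eventually_ne one_ne_zero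
  have hle : ∀ ω : ℝ, 1 ≤ ‖F (I * (ω : ℂ))‖ := by
    intro ω
    have h1 : Tendsto (fun N => ‖(Q N).eval 0‖) atTop (𝓝 ‖F 0‖) := (hpt 0).norm
    have h2 : Tendsto (fun N => ‖(Q N).eval (I * (ω : ℂ))‖) atTop (𝓝 ‖F (I * (ω : ℂ))‖) :=
      (hpt _).norm
    have h3 := le_of_tendsto_of_tendsto h1 h2 (by
      filter_upwards [hne] with N hN
      exact (hP _ (hG 1 one_pos) (Q N) (hQr N) hN).1 ω)
    rwa [hF0, norm_one] at h3
  have hFne : ∀ ω : ℝ, F (I * (ω : ℂ)) ≠ 0 := fun ω h => by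
    have := hle ω
    rw [h, norm_zero] at this
    linarith
  set ψ : ℝ → ℝ → ℂ := fun δ ω => cexp (-(δ : ℂ) * (ω : ℂ) ^ 2) * φ ω with hψ
  have key : ∀ δ : ℝ, 0 < δ → (∀ x, 0 ≤ RT (ψ δ) 0 x) ∧
      (∀ x, RT (ψ δ) 0 x * RT (ψ δ) 2 x ≤ RT (ψ δ) 1 x ^ 2) ∧
      (∀ x y, RT (ψ δ) 0 x * RT (ψ δ) 0 y ≤ RT (ψ δ) 0 ((x + y) / 2) ^ 2) := by
    intro δ hδ
    set χ : ℕ → ℝ → ℂ := fun N ω => cexp (-(δ : ℂ) * (ω : ℂ) ^ 2) *
      ((Q N).eval 0 / (Q N).eval (I * (ω : ℂ))) with hχ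
    have hLC : ∀ᶠ N in atTop, LC (χ N) := by
      filter_upwards [hne] with N hN
      exact (hP _ (hG δ hδ) (Q N) (hQr N) hN).2
    have hb : ∀ᶠ N in atTop, ∀ ω, ‖χ N ω‖ ≤ ‖cexp (-(δ : ℂ) * (ω : ℂ) ^ 2)‖ := by
      filter_upwards [hne] with N hN ω
      simp only [hχ]
      rw [norm_mul]
      refine mul_le_of_le_one_right (norm_nonneg _) ?_
      rw [norm_div]
      exact div_le_one_of_le₀ ((hP _ (hG δ hδ) (Q N) (hQr N) hN).1 ω) (norm_nonneg _)
    have hlim : ∀ ω, Tendsto (fun N => χ N ω) atTop (𝓝 (ψ δ ω)) := by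
      intro ω
      have h1 := (hpt 0).div (hpt (I * (ω : ℂ))) (hFne ω)
      have h2 := h1.const_mul (cexp (-(δ : ℂ) * (ω : ℂ) ^ 2))
      rw [hF0, one_div] at h2
      exact h2
    have hT : ∀ j x, Tendsto (fun N => RT (χ N) j x) atTop (𝓝 (RT (ψ δ) j x)) := fun j x =>
      conv (hLC.mono fun N h => h.cont) hb hlim j ((hG δ hδ).mom j) x
    refine ⟨fun x => ?_, fun x => ?_, fun x y => ?_⟩
    · exact ge_of_tendsto (hT 0 x) (hLC.mono fun N h => (h.pos x).le)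
    · exact le_of_tendsto_of_tendsto ((hT 0 x).mul (hT 2 x)) ((hT 1 x).pow 2)
        (hLC.mono fun N h => h.lc x)
    · exact le_of_tendsto_of_tendsto ((hT 0 x).mul (hT 0 y)) ((hT 0 _).pow 2)
        (hLC.mono fun N h => hM _ h x y)
  have hpos : ∀ n : ℕ, (0 : ℝ) < 1 / ((n : ℝ) + 1) := fun n => by positivity
  have hT : ∀ j x, Tendsto (fun n : ℕ => RT (ψ (1 / ((n : ℝ) + 1))) j x) atTop
      (𝓝 (RT φ j x)) := by
    intro j x
    refine conv (g := fun ω => ‖φ ω‖) ?_ ?_ ?_ j (hMom.mom j) x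
    · refine Eventually.of_forall fun n => ?_
      exact (by fun_prop : Continuous fun ω : ℝ =>
        cexp (-((1 / ((n : ℝ) + 1) : ℝ) : ℂ) * (ω : ℂ) ^ 2)).mul hMom.cont
    · refine Eventually.of_forall fun n ω => ?_
      simp only [hψ]
      rw [norm_mul]
      refine mul_le_of_le_one_left (norm_nonneg _) ?_
      have h1 : (-((1 / ((n : ℝ) + 1) : ℝ) : ℂ) * (ω : ℂ) ^ 2) =
          ((-(1 / ((n : ℝ) + 1)) * ω ^ 2 : ℝ) : ℂ) := by push_cast; ring
      rw [h1, Complex.norm_exp, Complex.ofReal_re, Real.exp_le_one_iff]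
      have := hpos n
      nlinarith [sq_nonneg ω]
    · intro ω
      have h1 : Tendsto (fun n : ℕ => (1 / ((n : ℝ) + 1) : ℝ)) atTop (𝓝 0) :=
        tendsto_one_div_add_atTop_nhds_zero_nat
      have h2 : Continuous fun δ : ℝ => cexp (-(δ : ℂ) * (ω : ℂ) ^ 2) * φ ω := by fun_prop
      have h3 := (h2.tendsto 0).comp h1
      have h4 : cexp (-((0 : ℝ) : ℂ) * (ω : ℂ) ^ 2) * φ ω = φ ω := by simp
      rw [h4] at h3
      exact h3
  refine ⟨fun x => ?_, fun x => ?_, fun x y => ?_⟩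
  · exact ge_of_tendsto (hT 0 x) (Eventually.of_forall fun n => (key _ (hpos n)).1 x)
  · exact le_of_tendsto_of_tendsto ((hT 0 x).mul (hT 2 x)) ((hT 1 x).pow 2)
      (Eventually.of_forall fun n => (key _ (hpos n)).2.1 x)
  · exact le_of_tendsto_of_tendsto ((hT 0 x).mul (hT 0 y)) ((hT 0 _).pow 2)
      (Eventually.of_forall fun n => (key _ (hpos n)).2.2 x y)

end Pool.Agent.R748.CH
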