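import Pool.Agent.R748.CH.Defs

/-!
# Project CH (MP_0705dc_pr): statements of the pieces
-/

set_option autoImplicit false

open Complex MeasureTheory Set Filter Topology Polynomial
open Pool.Agent.H140R2.FR (Ai)

namespace Pool.Agent.R748.CH

/-- TR: Fourier integrals: derivatives, reality, boundedness. -/
def S_TR : Prop := ∀ φ : ℝ → ℂ, Mom φ → ∀ j : ℕ,
  (∀ x : ℝ, HasDerivAt (RT φ j) (RT φ (j + 1) x) x) ∧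
  (∀ x : ℝ, Tr φ j x = (RT φ j x : ℂ)) ∧
  (∃ C : ℝ, ∀ x : ℝ, |RT φ j x| ≤ C) ∧
  (∀ x : ℝ, Integrable (fun ω : ℝ => (I * (ω : ℂ)) ^ j * cexp (I * (ω : ℂ) * (x : ℂ)) * φ ω)) ∧
  (∀ x : ℝ, Tr (fun ω => φ (-ω)) j x = (-1) ^ j * Tr φ j (-x))

/-- LEMA: primitives of log-concave functions are log-concave. -/
def S_LEMA : Prop := ∀ M m m1 m2 : ℝ → ℝ,
  (∀ x, HasDerivAt M (m x) x) → (∀ x, HasDerivAt m (m1 x) x) → (∀ x, HasDerivAt m1 (m2 x) x) →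
  (∀ x, 0 < m x) → (∀ x, m x * m2 x ≤ m1 x ^ 2) → Tendsto M atBot (𝓝 0) →
  (∀ x, 0 < M x) ∧ (∀ x, M x * m1 x ≤ m x ^ 2) ∧
  ((∀ l : ℝ, 0 < l → Tendsto (fun x => Real.exp (-(l * x)) * m x) atBot (𝓝 0)) →
    ∀ x, M x * m1 x < m x ^ 2)

/-- CLOSE: division by a linear factor with a real root keeps the class `LC`. -/
def S_CLOSE : Prop := ∀ φ : ℝ → ℂ, LC φ → ∀ α : ℝ, α ≠ 0 →
  LC (fun ω : ℝ => φ ω / (1 + I * (ω : ℂ) / (α : ℂ)))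

/-- GAUSS -/
def S_GAUSS : Prop := ∀ δ : ℝ, 0 < δ → LC (fun ω : ℝ => cexp (-(δ : ℂ) * (ω : ℂ) ^ 2))

/-- POLY -/
def S_POLY : Prop := ∀ φ : ℝ → ℂ, LC φ → ∀ Q : ℂ[X], (∀ w, Q.IsRoot w → w.im = 0) →
  Q.eval 0 ≠ 0 →
  (∀ ω : ℝ, ‖Q.eval 0‖ ≤ ‖Q.eval (I * (ω : ℂ))‖) ∧
  LC (fun ω : ℝ => φ ω * (Q.eval 0 / Q.eval (I * (ω : ℂ))))

/-- MID: midpoint log-concavity. -/
def S_MID : Prop := ∀ φ : ℝ → ℂ, LC φ → ∀ x y : ℝ,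
  RT φ 0 x * RT φ 0 y ≤ RT φ 0 ((x + y) / 2) ^ 2

/-- LIMIT: the transform of `1/F`, `F` a limit of real rooted polynomials. -/
def S_LIMIT : Prop := ∀ F : ℂ → ℂ, Continuous F → F 0 = 1 →
  (∃ Q : ℕ → ℂ[X], (∀ N w, (Q N).IsRoot w → w.im = 0) ∧
    TendstoLocallyUniformly (fun (N : ℕ) (w : ℂ) => (Q N).eval w) F atTop) →
  Mom (fun ω : ℝ => (F (I * (ω : ℂ)))⁻¹) →
  (∀ x : ℝ, 0 ≤ RT (fun ω : ℝ => (F (I * (ω : ℂ)))⁻¹) 0 x) ∧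
  (∀ x : ℝ, RT (fun ω : ℝ => (F (I * (ω : ℂ)))⁻¹) 0 x * RT (fun ω : ℝ => (F (I * (ω : ℂ)))⁻¹) 2 x ≤
    RT (fun ω : ℝ => (F (I * (ω : ℂ)))⁻¹) 1 x ^ 2) ∧
  (∀ x y : ℝ, RT (fun ω : ℝ => (F (I * (ω : ℂ)))⁻¹) 0 x * RT (fun ω : ℝ => (F (I * (ω : ℂ)))⁻¹) 0 y ≤
    RT (fun ω : ℝ => (F (I * (ω : ℂ)))⁻¹) 0 ((x + y) / 2) ^ 2)

/-- ENT: analyticity of the transform of a function with fast decay. -/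
def S_ENT : Prop := ∀ φ : ℝ → ℂ, Continuous φ →
  (∀ A : ℝ, ∃ C : ℝ, ∀ ω : ℝ, ‖φ ω‖ ≤ C * Real.exp (-(A * |ω|))) →
  AnalyticOnNhd ℝ (RT φ 0) Set.univ

/-- POS: an analytic, nonnegative, midpoint log-concave function, not identically zero, is
positive. -/
def S_POS : Prop := ∀ f : ℝ → ℝ, AnalyticOnNhd ℝ f Set.univ → (∀ x, 0 ≤ f x) →
  (∀ x y, f x * f y ≤ f ((x + y) / 2) ^ 2) → (∃ x, f x ≠ 0) → ∀ x, 0 < f x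

/-- GROW: order `3/2` growth of the Airy function. -/
def S_GROW : Prop := ∃ K : ℝ, 0 ≤ K ∧ ∀ z : ℂ, ‖Ai z‖ ≤ Real.exp (K * (1 + ‖z‖) ^ (3 / 2 : ℝ))

/-- FDEF: `Fa a` is entire, of order `3/2`, real, with real zeros, `Fa a 0 = 1`. -/
def S_FDEF : Prop := ∀ a : ℝ, 0 < a → Ai (-(a : ℂ)) = 0 →
  Differentiable ℂ (Fa a) ∧ Fa a 0 = 1 ∧
  (∀ z : ℂ, (1 + z / (a : ℂ)) * Fa a z = Ai z / Ai 0) ∧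
  (∀ x : ℂ, Fa a ((starRingEnd ℂ) x) = (starRingEnd ℂ) (Fa a x)) ∧
  (∀ z : ℂ, Fa a z = 0 → z.im = 0) ∧
  ∃ K : ℝ, 0 ≤ K ∧ ∀ z : ℂ, ‖Fa a z‖ ≤ Real.exp (K * (1 + ‖z‖) ^ (3 / 2 : ℝ))

/-- AILOW: lower bound of `Ai` in the half-plane. -/
def S_AILOW : Prop := ∃ C : ℝ, 0 < C ∧ ∀ p : ℂ, 0 < p.re → |p.im| ≤ p.re →
  ‖(Ai (p ^ 2))⁻¹‖ ≤ C * Real.sqrt (1 + ‖p‖) * Real.exp ((2 / 3) * (p ^ 3).re)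

/-- DECAY -/
def S_DECAY : Prop := ∀ L A : ℝ, 0 ≤ L → 0 ≤ A → ∃ C : ℝ, 0 < C ∧ ∀ l ω : ℝ, 0 ≤ l → l ≤ L →
  ‖(Ai ((l : ℂ) + I * (ω : ℂ)))⁻¹‖ ≤ C * Real.exp (-(A * |ω|))

/-- PH: the functions `ph0`, `ph1 a`. -/
def S_PH : Prop := Mom ph0 ∧ ∀ a : ℝ, 0 < a → Ai (-(a : ℂ)) = 0 →
  Mom (ph1 a) ∧ (∀ A : ℝ, ∃ C : ℝ, ∀ ω : ℝ, ‖ph1 a ω‖ ≤ C * Real.exp (-(A * |ω|))) ∧
  (∀ ω : ℝ, ph1 a ω = Ai 0 * ((1 + I * (ω : ℂ) / (a : ℂ)) * ph0 ω)) ∧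
  (0 < (Ai 0).re ∧ (Ai 0).im = 0) ∧
  (∀ (j : ℕ) (x : ℝ), RT (ph1 a) j x = (Ai 0).re * (RT ph0 j x + RT ph0 (j + 1) x / a))

/-- SHIFT of the contour. -/
def S_SHIFT : Prop := ∀ (j : ℕ) (x L : ℝ), 0 ≤ L →
  Tr ph0 j x = ∫ ω : ℝ, ((L : ℂ) + I * (ω : ℂ)) ^ j * cexp (((L : ℂ) + I * (ω : ℂ)) * (x : ℂ)) *
    (Ai ((L : ℂ) + I * (ω : ℂ)))⁻¹

/-- FAST: decay at `-∞` faster than every exponential. -/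
def S_FAST : Prop := ∀ (L : ℝ) (j : ℕ), 0 ≤ L →
  ∃ C : ℝ, ∀ x : ℝ, |RT ph0 j x| ≤ C * Real.exp (L * x)

/-- KERB: domination of the kernel. -/
def S_KERB : Prop := ∃ C : ℝ, 0 < C ∧ ∀ X v : ℝ, 1 ≤ X →
  ‖HX X v‖ ≤ C * (1 + |v|) * Real.exp (-(|v| / 4))

/-- KERL: limit of the kernel. -/
def S_KERL : Prop := ∀ v : ℝ, Tendsto (fun X : ℝ => HX X v) atTop (𝓝 (cexp (-((v : ℂ) ^ 2) / 4)))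

/-- TAIL: the weighted second log-derivative at `-∞`. -/
def S_TAIL : Prop := ∃ X₀ : ℝ, ∀ X : ℝ, X₀ ≤ X →
  RT ph0 0 (-X) ^ 2 ≤ RT ph0 1 (-X) ^ 2 - RT ph0 0 (-X) * RT ph0 2 (-X) ∧ RT ph0 0 (-X) ≠ 0

/-- G: everything about the function `G = RT ph0 0`. -/
def S_G : Prop :=
  (∀ x, 0 < RT ph0 0 x) ∧ (∀ x, RT ph0 0 x * RT ph0 2 x < RT ph0 1 x ^ 2)

/-- SCALE: Groeneboom's `g` in terms of `G`. -/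
def S_SCALE : Prop := ∀ t : ℝ, gG t =
  (((2 : ℝ) ^ ((2 : ℝ) / 3) / (2 * Real.pi) : ℝ) : ℂ) * Tr ph0 0 (-((2 : ℝ) ^ ((1 : ℝ) / 3) * t))

/-- FIN: the final calculus step. -/
def S_FIN : Prop := ∀ (G G1 G2 G3 : ℝ → ℝ) (k X₀ : ℝ), 0 < k →
  (∀ x, HasDerivAt G (G1 x) x) → (∀ x, HasDerivAt G1 (G2 x) x) → (∀ x, HasDerivAt G2 (G3 x) x) →
  (∀ x, 0 < G x) → (∀ x, G x * G2 x < G1 x ^ 2) →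
  (∀ X, X₀ ≤ X → G (-X) ^ 2 ≤ G1 (-X) ^ 2 - G (-X) * G2 (-X)) →
  ∃ c : ℝ, 0 < c ∧ ∀ f : ℝ → ℝ, (∃ b : ℝ, 0 < b ∧ ∀ t, f t = b * G (-(k * t)) * G (k * t)) →
    (∀ t, 0 < f t) ∧ ContDiff ℝ 2 f ∧
    (∀ t, c ≤ -(iteratedDeriv 2 (fun s => Real.log (f s)) t)) ∧
    ConvexOn ℝ Set.univ (fun t => -Real.log (f t) - c / 2 * t ^ 2)

end Pool.Agent.R748.CH
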